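import Mathlib

namespace Pool.Agent.Helper98.Alg

/-- second symmetric function of the Hessian of `f/r^2`, from the Euler relations -/
lemma X_id (x1 x2 x3 ρ f g1 g2 g3 h11 h12 h13 h22 h23 h33 : ℂ)
    (E0 : g1 * x1 + g2 * x2 + g3 * x3 = 3 * f)
    (E1 : h11 * x1 + h12 * x2 + h13 * x3 = 2 * g1)
    (E2 : h12 * x1 + h22 * x2 + h23 * x3 = 2 * g2)
    (E3 : h13 * x1 + h23 * x2 + h33 * x3 = 2 * g3)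
    (R : (x1 ^ 2 + x2 ^ 2 + x3 ^ 2) * ρ ^ 2 = 1)
    (W11 W12 W13 W22 W23 W33 : ℂ)
    (w11 : W11 = h11 * ρ ^ 2 - 2 * (g1 * x1 + g1 * x1) * ρ ^ 4 - 2 * f * ρ ^ 4 + 8 * f * x1 * x1 * ρ ^ 6)
    (w22 : W22 = h22 * ρ ^ 2 - 2 * (g2 * x2 + g2 * x2) * ρ ^ 4 - 2 * f * ρ ^ 4 + 8 * f * x2 * x2 * ρ ^ 6)
    (w33 : W33 = h33 * ρ ^ 2 - 2 * (g3 * x3 + g3 * x3) * ρ ^ 4 - 2 * f * ρ ^ 4 + 8 * f * x3 * x3 * ρ ^ 6)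
    (w12 : W12 = h12 * ρ ^ 2 - 2 * (g1 * x2 + g2 * x1) * ρ ^ 4 + 8 * f * x1 * x2 * ρ ^ 6)
    (w13 : W13 = h13 * ρ ^ 2 - 2 * (g1 * x3 + g3 * x1) * ρ ^ 4 + 8 * f * x1 * x3 * ρ ^ 6)
    (w23 : W23 = h23 * ρ ^ 2 - 2 * (g2 * x3 + g3 * x2) * ρ ^ 4 + 8 * f * x2 * x3 * ρ ^ 6) :
    W11 * W22 - W12 ^ 2 + (W11 * W33 - W13 ^ 2) + (W22 * W33 - W23 ^ 2) =
      (h11 * h22 - h12 ^ 2 + (h11 * h33 - h13 ^ 2) + (h22 * h33 - h23 ^ 2)) * ρ ^ 4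
        + 16 * f ^ 2 * ρ ^ 8 - 8 * f * (h11 + h22 + h33) * ρ ^ 6
        + 4 * (g1 ^ 2 + g2 ^ 2 + g3 ^ 2) * ρ ^ 6 := by
  have ht : W11 + W22 + W33 = (h11 + h22 + h33) * ρ ^ 2 - 10 * f * ρ ^ 4 := by
    rw [w11, w22, w33]
    linear_combination (-4 * ρ ^ 4) * E0 + (8 * f * ρ ^ 4) * R
  have hs : W11 ^ 2 + W22 ^ 2 + W33 ^ 2 + 2 * W12 ^ 2 + 2 * W13 ^ 2 + 2 * W23 ^ 2 =
      (h11 ^ 2 + h22 ^ 2 + h33 ^ 2 + 2 * h12 ^ 2 + 2 * h13 ^ 2 + 2 * h23 ^ 2) * ρ ^ 4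
        + 68 * f ^ 2 * ρ ^ 8 - 8 * (g1 ^ 2 + g2 ^ 2 + g3 ^ 2) * ρ ^ 6
        - 4 * f * (h11 + h22 + h33) * ρ ^ 6 := by
    rw [w11, w22, w33, w12, w13, w23]
    linear_combination (-8 * ρ ^ 6 * g1 + 16 * f * ρ ^ 8 * x1) * E1
      + (-8 * ρ ^ 6 * g2 + 16 * f * ρ ^ 8 * x2) * E2
      + (-8 * ρ ^ 6 * g3 + 16 * f * ρ ^ 8 * x3) * E3
      + (32 * f * ρ ^ 8 + 16 * f * ρ ^ 8
          - 64 * f * (x1 ^ 2 + x2 ^ 2 + x3 ^ 2) * ρ ^ 10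
          + 8 * ρ ^ 8 * (g1 * x1 + g2 * x2 + g3 * x3 + 3 * f)) * E0
      + (f ^ 2 * ρ ^ 8 * (64 * (x1 ^ 2 + x2 ^ 2 + x3 ^ 2) * ρ ^ 2 - 160)
          + 8 * (g1 ^ 2 + g2 ^ 2 + g3 ^ 2) * ρ ^ 6) * R
  have hX : W11 * W22 - W12 ^ 2 + (W11 * W33 - W13 ^ 2) + (W22 * W33 - W23 ^ 2) =
      ((W11 + W22 + W33) ^ 2 -
        (W11 ^ 2 + W22 ^ 2 + W33 ^ 2 + 2 * W12 ^ 2 + 2 * W13 ^ 2 + 2 * W23 ^ 2)) / 2 := by ring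
  rw [hX, ht, hs]
  ring

/-- mixed term of the Hessians of the norm and of `f^2/r^5` -/
lemma Y_id (x1 x2 x3 ρ f g1 g2 g3 h11 h12 h13 h22 h23 h33 : ℂ)
    (E0 : g1 * x1 + g2 * x2 + g3 * x3 = 3 * f)
    (E1 : h11 * x1 + h12 * x2 + h13 * x3 = 2 * g1)
    (E2 : h12 * x1 + h22 * x2 + h23 * x3 = 2 * g2)
    (E3 : h13 * x1 + h23 * x2 + h33 * x3 = 2 * g3)
    (R : (x1 ^ 2 + x2 ^ 2 + x3 ^ 2) * ρ ^ 2 = 1)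
    (V11 V12 V13 V22 V23 V33 N11 N12 N13 N22 N23 N33 : ℂ)
    (n11 : N11 = ρ - x1 * x1 * ρ ^ 3) (n22 : N22 = ρ - x2 * x2 * ρ ^ 3)
    (n33 : N33 = ρ - x3 * x3 * ρ ^ 3) (n12 : N12 = - x1 * x2 * ρ ^ 3)
    (n13 : N13 = - x1 * x3 * ρ ^ 3) (n23 : N23 = - x2 * x3 * ρ ^ 3)
    (v11 : V11 = (2 * g1 * g1 + 2 * f * h11) * ρ ^ 5 - 10 * f * (g1 * x1 + g1 * x1) * ρ ^ 7
      - 5 * f ^ 2 * ρ ^ 7 + 35 * f ^ 2 * x1 * x1 * ρ ^ 9)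
    (v22 : V22 = (2 * g2 * g2 + 2 * f * h22) * ρ ^ 5 - 10 * f * (g2 * x2 + g2 * x2) * ρ ^ 7
      - 5 * f ^ 2 * ρ ^ 7 + 35 * f ^ 2 * x2 * x2 * ρ ^ 9)
    (v33 : V33 = (2 * g3 * g3 + 2 * f * h33) * ρ ^ 5 - 10 * f * (g3 * x3 + g3 * x3) * ρ ^ 7
      - 5 * f ^ 2 * ρ ^ 7 + 35 * f ^ 2 * x3 * x3 * ρ ^ 9)
    (v12 : V12 = (2 * g1 * g2 + 2 * f * h12) * ρ ^ 5 - 10 * f * (g1 * x2 + g2 * x1) * ρ ^ 7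
      + 35 * f ^ 2 * x1 * x2 * ρ ^ 9)
    (v13 : V13 = (2 * g1 * g3 + 2 * f * h13) * ρ ^ 5 - 10 * f * (g1 * x3 + g3 * x1) * ρ ^ 7
      + 35 * f ^ 2 * x1 * x3 * ρ ^ 9)
    (v23 : V23 = (2 * g2 * g3 + 2 * f * h23) * ρ ^ 5 - 10 * f * (g2 * x3 + g3 * x2) * ρ ^ 7
      + 35 * f ^ 2 * x2 * x3 * ρ ^ 9) :
    N11 * V22 + N22 * V11 - 2 * N12 * V12 + (N11 * V33 + N33 * V11 - 2 * N13 * V13)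
        + (N22 * V33 + N33 * V22 - 2 * N23 * V23) =
      2 * (g1 ^ 2 + g2 ^ 2 + g3 ^ 2 + f * (h11 + h22 + h33)) * ρ ^ 6 - 40 * f ^ 2 * ρ ^ 8 := by
  have ht : V11 + V22 + V33 =
      2 * (g1 ^ 2 + g2 ^ 2 + g3 ^ 2 + f * (h11 + h22 + h33)) * ρ ^ 5 - 40 * f ^ 2 * ρ ^ 7 := by
    rw [v11, v22, v33]
    linear_combination (-20 * f * ρ ^ 7) * E0 + (35 * f ^ 2 * ρ ^ 7) * R
  have hq : x1 ^ 2 * V11 + x2 ^ 2 * V22 + x3 ^ 2 * V33 + 2 * x1 * x2 * V12 + 2 * x1 * x3 * V13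
      + 2 * x2 * x3 * V23 = 0 := by
    rw [v11, v22, v33, v12, v13, v23]
    linear_combination (2 * ρ ^ 5 * (g1 * x1 + g2 * x2 + g3 * x3 + 3 * f) + 4 * f * ρ ^ 5
        - 20 * f * (x1 ^ 2 + x2 ^ 2 + x3 ^ 2) * ρ ^ 7) * E0
      + (2 * f * ρ ^ 5 * x1) * E1 + (2 * f * ρ ^ 5 * x2) * E2 + (2 * f * ρ ^ 5 * x3) * E3
      + (f ^ 2 * ρ ^ 5 * (35 * (x1 ^ 2 + x2 ^ 2 + x3 ^ 2) * ρ ^ 2 - 30)) * R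
  have hY : N11 * V22 + N22 * V11 - 2 * N12 * V12 + (N11 * V33 + N33 * V11 - 2 * N13 * V13)
        + (N22 * V33 + N33 * V22 - 2 * N23 * V23) = ρ * (V11 + V22 + V33) +
      ρ ^ 3 * (x1 ^ 2 * V11 + x2 ^ 2 * V22 + x3 ^ 2 * V33 + 2 * x1 * x2 * V12
        + 2 * x1 * x3 * V13 + 2 * x2 * x3 * V23) := by
    rw [n11, n22, n33, n12, n13, n23]
    linear_combination (-ρ * (V11 + V22 + V33)) * R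
  rw [hY, ht, hq]
  ring

end Pool.Agent.Helper98.Alg
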