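import Mathlib

open MeasureTheory Set Metric
open scoped Pointwise RealInnerProductSpace

namespace Pool.Agent.Helper98.Steiner

abbrev E (n : ℕ) := EuclideanSpace ℝ (Fin n)

/-- The convex set with support function `H`. -/
def K {n : ℕ} (H : E n → ℝ) : Set (E n) := {y | ∀ x, ⟪y, x⟫ ≤ H x}

/-- Points over the projection `L`, at distance at most `ε` from it. -/
def C {n : ℕ} (P : E n →L[ℝ] E n) (L : Set (E n)) (ε : ℝ) : Set (E n) :=
  {y | P y ∈ L ∧ ‖y - P y‖ ≤ ε}

/-- Parameter domain. -/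
def D {n : ℕ} (P : E n →L[ℝ] E n) : Set (E n) := {x | P x ≠ 0 ∧ ‖x‖ ≤ 1}

def Psi {n : ℕ} (P : E n →L[ℝ] E n) (G : E n → E n) (ε : ℝ) (x : E n) : E n :=
  ε • x + P (G (P x))

structure IsProj {n : ℕ} (P : E n →L[ℝ] E n) : Prop where
  idem : ∀ x, P (P x) = P x
  symm : ∀ x y, ⟪P x, y⟫ = ⟪x, P y⟫

structure Supp {n : ℕ} (H : E n → ℝ) (G : E n → E n) : Prop where
  mem : ∀ x, x ≠ 0 → G x ∈ K H
  touch : ∀ x, x ≠ 0 → ⟪G x, x⟫ = H x
  uniq : ∀ x, x ≠ 0 → ∀ y ∈ K H, ⟪y, x⟫ = H x → y = G x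
  hom : ∀ x, ∀ t : ℝ, 0 < t → G (t • x) = G x
  bdd : ∃ c : ℝ, 0 ≤ c ∧ ∀ x, H x ≤ c * ‖x‖
  ne : ∃ x : E n, x ≠ 0

variable {n : ℕ}

lemma convex_K (H : E n → ℝ) : Convex ℝ (K H) := by
  intro a ha b hb s t hs ht hst x
  have h1 := ha x
  have h2 := hb x
  rw [inner_add_left, inner_smul_left, inner_smul_left]
  simp only [conj_trivial]
  have h3 : s * ⟪a, x⟫ ≤ s * H x := mul_le_mul_of_nonneg_left h1 hs
  have h4 : t * ⟪b, x⟫ ≤ t * H x := mul_le_mul_of_nonneg_left h2 ht
  have h5 : s * H x + t * H x = H x := by rw [← add_mul, hst, one_mul]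
  linarith

lemma isClosed_K (H : E n → ℝ) : IsClosed (K H) := by
  have : K H = ⋂ x, {y : E n | ⟪y, x⟫ ≤ H x} := by
    ext y; simp [K]
  rw [this]
  apply isClosed_iInter
  intro x
  exact isClosed_le (by fun_prop) continuous_const

lemma isBounded_K {H : E n → ℝ} {c : ℝ} (hc0 : 0 ≤ c) (hc : ∀ x, H x ≤ c * ‖x‖) :
    K H ⊆ closedBall 0 c := by
  intro y hy
  rw [mem_closedBall_zero_iff]
  by_cases h0 : ‖y‖ = 0
  · linarith
  · have h1 := hy y
    have h2 := hc y
    rw [real_inner_self_eq_norm_sq] at h1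
    have h3 : 0 < ‖y‖ := lt_of_le_of_ne (norm_nonneg _) (Ne.symm h0)
    have h4 : ‖y‖ * ‖y‖ ≤ c * ‖y‖ := by nlinarith
    exact le_of_mul_le_mul_right h4 h3

lemma isCompact_K {H : E n → ℝ} {G : E n → E n} (h : Supp H G) : IsCompact (K H) := by
  obtain ⟨c, hc0, hc⟩ := h.bdd
  exact (isCompact_closedBall (0 : E n) c).of_isClosed_subset (isClosed_K H)
    (isBounded_K hc0 hc)

lemma nonempty_K {H : E n → ℝ} {G : E n → E n} (h : Supp H G) : (K H).Nonempty := by
  obtain ⟨x, hx⟩ := h.ne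
  exact ⟨G x, h.mem x hx⟩

lemma IsProj.norm_le {P : E n →L[ℝ] E n} (hP : IsProj P) (x : E n) : ‖P x‖ ≤ ‖x‖ := by
  have h1 : ‖P x‖ ^ 2 = ⟪x, P x⟫ := by
    rw [← real_inner_self_eq_norm_sq, hP.symm, hP.idem]
  have h2 : ⟪x, P x⟫ ≤ ‖x‖ * ‖P x‖ := real_inner_le_norm _ _
  by_contra hlt
  push Not at hlt
  have h3 : 0 < ‖P x‖ := lt_of_le_of_lt (norm_nonneg _) hlt
  nlinarith

lemma IsProj.norm_sub_le {P : E n →L[ℝ] E n} (hP : IsProj P) (x : E n) :
    ‖x - P x‖ ≤ ‖x‖ := by
  have h1 : ‖x - P x‖ ^ 2 = ‖x‖ ^ 2 - ‖P x‖ ^ 2 := by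
    have h1 : ‖P x‖ ^ 2 = ⟪x, P x⟫ := by
      rw [← real_inner_self_eq_norm_sq, hP.symm, hP.idem]
    rw [norm_sub_sq_real, ← h1]; ring
  have h2 : ‖x - P x‖ ^ 2 ≤ ‖x‖ ^ 2 := by rw [h1]; nlinarith [sq_nonneg ‖P x‖]
  exact le_of_sq_le_sq h2 (norm_nonneg _)

/-- The main set decomposition. -/
lemma decomp {P : E n →L[ℝ] E n} (hP : IsProj P) {H : E n → ℝ} {G : E n → E n}
    (h : Supp H G) {ε : ℝ} (hε : 0 < ε) :
    P '' (K H) + closedBall (0 : E n) ε = C P (P '' (K H)) ε ∪ Psi P G ε '' (D P) := by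
  ext y
  constructor
  · intro hy
    obtain ⟨l, hl, b, hb, rfl⟩ := Set.mem_add.1 hy
    rw [mem_closedBall_zero_iff] at hb
    by_cases hPy : P (l + b) ∈ P '' (K H)
    · left
      refine ⟨hPy, ?_⟩
      obtain ⟨k, hk, rfl⟩ := hl
      have : P k + b - P (P k + b) = b - P b := by
        rw [map_add, hP.idem]; abel
      rw [this]
      exact (hP.norm_sub_le b).trans hb
    · right
      have hLne : (P '' (K H)).Nonempty := (nonempty_K h).image _
      have hLcomp : IsCompact (P '' (K H)) := (isCompact_K h).image P.continuous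
      have hLconv : Convex ℝ (P '' (K H)) := by
        have := (convex_K H).linear_image (P : E n →ₗ[ℝ] E n)
        simpa using this
      obtain ⟨l0, hl0, hmin⟩ := exists_norm_eq_iInf_of_complete_convex hLne
        hLcomp.isComplete hLconv (l + b)
      have hvar := (norm_eq_iInf_iff_real_inner_le_zero hLconv hl0).1 hmin
      set x := (l + b) - l0 with hx
      have hxn : ‖x‖ ≤ ε := by
        rw [hmin]
        refine (ciInf_le ⟨0, ?_⟩ (⟨l, hl⟩ : P '' (K H))).trans ?_
        · rintro _ ⟨w, rfl⟩; exact norm_nonneg _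
        · simpa using hb
      obtain ⟨k0, hk0, rfl⟩ := hl0
      have hPx : P x ≠ 0 := by
        intro h0
        apply hPy
        refine ⟨k0, hk0, ?_⟩
        have : P x = P (l + b) - P k0 := by rw [hx, map_sub, hP.idem]
        rw [h0] at this
        exact (sub_eq_zero.1 this.symm).symm
      have hk : ⟪k0, P x⟫ = H (P x) := by
        apply le_antisymm (hk0 _)
        rw [← h.touch (P x) hPx]
        have h1 := hvar (P (G (P x))) ⟨_, h.mem _ hPx, rfl⟩
        rw [← map_sub, ← hP.symm, inner_sub_right, real_inner_comm (G (P x)),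
          real_inner_comm k0] at h1
        linarith
      have hkG := h.uniq _ hPx k0 hk0 hk
      refine ⟨ε⁻¹ • x, ⟨?_, ?_⟩, ?_⟩
      · rw [map_smul]
        exact smul_ne_zero (inv_ne_zero hε.ne') hPx
      · rw [norm_smul, norm_inv, Real.norm_of_nonneg hε.le]
        rw [inv_mul_le_iff₀ hε]; linarith
      · unfold Psi
        rw [map_smul, h.hom _ _ (inv_pos.2 hε), ← hkG, smul_smul, mul_inv_cancel₀ hε.ne',
          one_smul, hx]
        abel
  · rintro (hy | hy)
    · obtain ⟨h1, h2⟩ := hy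
      refine Set.mem_add.2 ⟨P y, h1, y - P y, ?_, by abel⟩
      rwa [mem_closedBall_zero_iff]
    · obtain ⟨x, ⟨hx0, hx1⟩, rfl⟩ := hy
      unfold Psi
      refine Set.mem_add.2 ⟨P (G (P x)), ⟨_, h.mem _ hx0, rfl⟩, ε • x, ?_, by abel⟩
      rw [mem_closedBall_zero_iff, norm_smul, Real.norm_of_nonneg hε.le]
      nlinarith

lemma disj {P : E n →L[ℝ] E n} (hP : IsProj P) {H : E n → ℝ} {G : E n → E n}
    (h : Supp H G) {ε : ℝ} (hε : 0 < ε) :
    Disjoint (C P (P '' (K H)) ε) (Psi P G ε '' (D P)) := by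
  rw [Set.disjoint_left]
  rintro _ ⟨h1, -⟩ ⟨x, ⟨hx0, hx1⟩, rfl⟩
  obtain ⟨k, hk, hkeq⟩ := h1
  have h2 : ⟪P x, P (Psi P G ε x)⟫ = ε * ‖P x‖ ^ 2 + H (P x) := by
    unfold Psi
    rw [map_add, map_smul, hP.idem, inner_add_right, inner_smul_right,
      real_inner_self_eq_norm_sq, ← hP.symm, hP.idem, real_inner_comm, h.touch _ hx0]
  rw [← hkeq, ← hP.symm, hP.idem, real_inner_comm] at h2
  have h3 := hk (P x)
  have h4 : 0 < ‖P x‖ ^ 2 := by
    have := norm_pos_iff.2 hx0
    positivity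
  have h5 : 0 < ε * ‖P x‖ ^ 2 := mul_pos hε h4
  linarith

lemma mono {H : E n → ℝ} {G : E n → E n} (h : Supp H G) {p q : E n} (hp : p ≠ 0) (hq : q ≠ 0) :
    0 ≤ ⟪p - q, G p - G q⟫ := by
  have h1 := h.mem q hq p
  have h2 := h.mem p hp q
  have h3 := h.touch p hp
  have h4 := h.touch q hq
  rw [inner_sub_left, inner_sub_right, inner_sub_right, real_inner_comm, real_inner_comm (G q) p,
    real_inner_comm (G p) q, real_inner_comm (G q) q]
  linarith

lemma inj {P : E n →L[ℝ] E n} (hP : IsProj P) {H : E n → ℝ} {G : E n → E n}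
    (h : Supp H G) {ε : ℝ} (hε : 0 < ε) : InjOn (Psi P G ε) (D P) := by
  rintro x ⟨hx, -⟩ y ⟨hy, -⟩ hxy
  unfold Psi at hxy
  have h1 := mono h hx hy
  rw [← map_sub, hP.symm, map_sub] at h1
  have h2 : P (G (P x)) - P (G (P y)) = ε • (y - x) := by
    rw [smul_sub]
    have : P (G (P x)) = ε • y + P (G (P y)) - ε • x := by
      rw [← hxy]; abel
    rw [this]; abel
  rw [h2, inner_smul_right, ← neg_sub y x, inner_neg_left, real_inner_self_eq_norm_sq] at h1
  have h3 : ‖y - x‖ ^ 2 ≤ 0 := by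
    by_contra hc
    push Not at hc
    nlinarith [mul_pos hε hc]
  have h4 : ‖y - x‖ = 0 := by
    have := sq_nonneg ‖y - x‖
    exact pow_eq_zero_iff (two_ne_zero) |>.1 (le_antisymm h3 this)
  exact (sub_eq_zero.1 (norm_eq_zero.1 h4)).symm

lemma measurableSet_D (P : E n →L[ℝ] E n) : MeasurableSet (D P) := by
  have : D P = (P ⁻¹' {0})ᶜ ∩ closedBall 0 1 := by
    ext x; simp [D]
  rw [this]
  refine MeasurableSet.inter ?_ isClosed_closedBall.measurableSet
  exact ((isClosed_singleton.preimage P.continuous).measurableSet).compl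

lemma isClosed_C {P : E n →L[ℝ] E n} {L : Set (E n)} (hL : IsClosed L) (ε : ℝ) :
    IsClosed (C P L ε) := by
  have : C P L ε = P ⁻¹' L ∩ {y | ‖y - P y‖ ≤ ε} := by
    ext x; simp [C]
  rw [this]
  refine IsClosed.inter (hL.preimage P.continuous) ?_
  exact isClosed_le (by fun_prop) continuous_const

lemma det_toEuclideanCLM (M : Matrix (Fin n) (Fin n) ℝ) :
    (Matrix.toEuclideanCLM (n := Fin n) (𝕜 := ℝ) M).det = M.det := by
  unfold ContinuousLinearMap.det
  rw [Matrix.coe_toEuclideanCLM_eq_toEuclideanLin, Matrix.toEuclideanLin,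
    Matrix.toLpLin_eq_toLin, LinearMap.det_toLin]

/-- Volume of the parallel body as a sum of two parts. -/
lemma volume_split {P : E n →L[ℝ] E n} (hP : IsProj P) {H : E n → ℝ} {G : E n → E n}
    (h : Supp H G) {ε : ℝ} (hε : 0 < ε) {B : E n → Matrix (Fin n) (Fin n) ℝ}
    (hB : ∀ x, P x ≠ 0 → HasFDerivAt (fun x => P (G (P x)))
      (Matrix.toEuclideanCLM (n := Fin n) (𝕜 := ℝ) (B x)) x) :
    volume (P '' (K H) + closedBall (0 : E n) ε) = volume (C P (P '' (K H)) ε) +
      ∫⁻ x in D P, ENNReal.ofReal |(ε • (1 : Matrix (Fin n) (Fin n) ℝ) + B x).det| := by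
  rw [decomp hP h hε, measure_union' (disj hP h hε)]
  · congr 1
    rw [← lintegral_abs_det_fderiv_eq_addHaar_image volume (measurableSet_D P)
      (f' := fun x => Matrix.toEuclideanCLM (n := Fin n) (𝕜 := ℝ)
        (ε • (1 : Matrix (Fin n) (Fin n) ℝ) + B x)) ?_ (inj hP h hε)]
    · refine lintegral_congr fun x => ?_
      rw [det_toEuclideanCLM]
    · intro x hx
      apply HasFDerivAt.hasFDerivWithinAt
      have h1 := ((hasFDerivAt_id (𝕜 := ℝ) x).const_smul ε).add (hB x hx.1)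
      have h2 : Psi P G ε = ε • id + fun x => P (G (P x)) := by
        funext y; simp [Psi]
      rw [h2]
      convert h1 using 1
      ext v
      simp
  · exact (isClosed_C ((isCompact_K h).image P.continuous).isClosed ε).measurableSet

/-- Coordinate projection. -/
noncomputable def Pr (I : Finset (Fin n)) : E n →L[ℝ] E n :=
  Matrix.toEuclideanCLM (n := Fin n) (𝕜 := ℝ) (Matrix.diagonal fun i => if i ∈ I then 1 else 0)

lemma Pr_apply (I : Finset (Fin n)) (x : E n) (i : Fin n) :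
    Pr I x i = if i ∈ I then x i else 0 := by
  simp [Pr, Matrix.mulVec_diagonal]

lemma isProj_Pr (I : Finset (Fin n)) : IsProj (Pr I) := by
  constructor
  · intro x
    ext i
    simp only [Pr_apply]
    split_ifs <;> rfl
  · intro x y
    simp only [PiLp.inner_apply, Pr_apply]
    refine Finset.sum_congr rfl fun i _ => ?_
    split_ifs <;> simp

noncomputable def Sc (I : Finset (Fin n)) (ε : ℝ) : E n →L[ℝ] E n :=
  Matrix.toEuclideanCLM (n := Fin n) (𝕜 := ℝ) (Matrix.diagonal fun i => if i ∈ I then 1 else ε)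

lemma Sc_apply (I : Finset (Fin n)) (ε : ℝ) (x : E n) (i : Fin n) :
    Sc I ε x i = if i ∈ I then x i else ε * x i := by
  simp [Sc, Matrix.mulVec_diagonal]

lemma volume_C (I : Finset (Fin n)) (L : Set (E n)) {ε : ℝ} (hε : 0 < ε) :
    volume (C (Pr I) L ε) = ENNReal.ofReal (ε ^ (Iᶜ).card) * volume (C (Pr I) L 1) := by
  have hset : C (Pr I) L ε = Sc I ε '' C (Pr I) L 1 := by
    ext y
    constructor
    · rintro ⟨h1, h2⟩
      have hP : Pr I (Sc I ε⁻¹ y) = Pr I y := by
        ext i; simp only [Pr_apply, Sc_apply]; split_ifs <;> rfl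
      refine ⟨Sc I ε⁻¹ y, ⟨by rwa [hP], ?_⟩, ?_⟩
      · have : Sc I ε⁻¹ y - Pr I (Sc I ε⁻¹ y) = ε⁻¹ • (y - Pr I y) := by
          ext i
          simp only [PiLp.sub_apply, PiLp.smul_apply, Pr_apply, Sc_apply, smul_eq_mul]
          split_ifs <;> simp
        rw [this, norm_smul, norm_inv, Real.norm_of_nonneg hε.le, inv_mul_le_iff₀ hε]
        linarith
      · ext i
        simp only [Sc_apply]
        split_ifs
        · rfl
        · field_simp
    · rintro ⟨x, ⟨h1, h2⟩, rfl⟩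
      have hP : Pr I (Sc I ε x) = Pr I x := by
        ext i; simp only [Pr_apply, Sc_apply]; split_ifs <;> rfl
      refine ⟨by rwa [hP], ?_⟩
      have : Sc I ε x - Pr I (Sc I ε x) = ε • (x - Pr I x) := by
        ext i
        simp only [PiLp.sub_apply, PiLp.smul_apply, Pr_apply, Sc_apply, smul_eq_mul]
        split_ifs <;> simp
      rw [this, norm_smul, Real.norm_of_nonneg hε.le]
      nlinarith
  have hdet : LinearMap.det ((Sc I ε : E n →L[ℝ] E n) : E n →ₗ[ℝ] E n) =
      (Matrix.diagonal fun i => if i ∈ I then (1:ℝ) else ε).det := det_toEuclideanCLM _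
  rw [hset, Measure.addHaar_image_continuousLinearMap, hdet, Matrix.det_diagonal]
  congr 2
  rw [Finset.prod_ite, Finset.prod_const_one, one_mul, Finset.prod_const]
  have : (Finset.univ.filter fun x => x ∉ I) = Iᶜ := by ext; simp
  rw [this, abs_of_nonneg (by positivity)]

lemma volume_proj_zero {I : Finset (Fin n)} (hI : I ≠ Finset.univ) (S : Set (E n)) :
    volume (Pr I '' S) = 0 := by
  have h1 : Pr I '' S ⊆ (LinearMap.range (Pr I : E n →ₗ[ℝ] E n) : Set (E n)) := by
    rintro _ ⟨x, -, rfl⟩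
    exact ⟨x, rfl⟩
  refine measure_mono_null h1 (Measure.addHaar_submodule _ _ ?_)
  intro htop
  obtain ⟨i, hi⟩ : ∃ i, i ∉ I := by
    by_contra hc
    push Not at hc
    exact hI (Finset.eq_univ_iff_forall.2 hc)
  have : (EuclideanSpace.single i (1:ℝ)) ∈ LinearMap.range (Pr I : E n →ₗ[ℝ] E n) := by
    rw [htop]; trivial
  obtain ⟨x, hx⟩ := this
  have h2 := congrArg (fun z : E n => z i) hx
  simp only [ContinuousLinearMap.coe_coe, Pr_apply, if_neg hi] at h2
  simp at h2

/-- Steiner formula in dimension four, for coordinate projections. -/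
theorem steiner {I : Finset (Fin 4)} (hI : I ≠ Finset.univ) {H : E 4 → ℝ} {G : E 4 → E 4}
    (h : Supp H G) {B : E 4 → Matrix (Fin 4) (Fin 4) ℝ}
    (hB : ∀ x, Pr I x ≠ 0 → HasFDerivAt (fun x => Pr I (G (Pr I x)))
      (Matrix.toEuclideanCLM (n := Fin 4) (𝕜 := ℝ) (B x)) x)
    (hpos : ∀ x, Pr I x ≠ 0 → ∀ s : ℝ, 0 < s →
      0 < (s • (1 : Matrix (Fin 4) (Fin 4) ℝ) + B x).det)
    {c1 c2 c3 : E 4 → ℝ} (m1 : Measurable c1) (m2 : Measurable c2) (m3 : Measurable c3)
    (hdet : ∀ x, Pr I x ≠ 0 → ∀ s : ℝ, (s • (1 : Matrix (Fin 4) (Fin 4) ℝ) + B x).det =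
      s ^ 4 + c3 x * s ^ 3 + c2 x * s ^ 2 + c1 x * s) :
    IntegrableOn c2 (D (Pr I)) ∧ ∃ a1 a3 a4 : ℝ, ∀ ε : ℝ, 0 ≤ ε →
      (volume (Pr I '' (K H) + closedBall (0 : E 4) ε)).toReal =
        a4 * ε ^ 4 + a3 * ε ^ 3 + (∫ x in D (Pr I), c2 x) * ε ^ 2 + a1 * ε +
          (volume (C (Pr I) (Pr I '' (K H)) 1)).toReal * ε ^ (Iᶜ).card := by
  have hP := isProj_Pr I
  set P := Pr I with hPdef
  have hfin : ∀ ε : ℝ, volume (P '' (K H) + closedBall (0 : E 4) ε) < ⊤ := by
    intro ε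
    exact (((isCompact_K h).image P.continuous).add (isCompact_closedBall _ _)).measure_lt_top
  have hDm := measurableSet_D P
  have hDfin : volume (D P) < ⊤ := by
    refine lt_of_le_of_lt (measure_mono ?_) (isCompact_closedBall (0 : E 4) 1).measure_lt_top
    rintro x ⟨-, hx⟩
    rwa [mem_closedBall_zero_iff]
  have hsplit := fun (ε : ℝ) (hε : 0 < ε) => volume_split hP h hε hB
  -- integrand as an explicit function
  let τ : ℝ → E 4 → ℝ := fun s x => s ^ 4 + c3 x * s ^ 3 + c2 x * s ^ 2 + c1 x * s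
  have hτm : ∀ s, Measurable (τ s) := by
    intro s
    exact ((measurable_const.add (m3.mul_const _)).add (m2.mul_const _)).add (m1.mul_const _)
  have hlin : ∀ s : ℝ, 0 < s →
      (∫⁻ x in D P, ENNReal.ofReal |(s • (1 : Matrix (Fin 4) (Fin 4) ℝ) + B x).det|) =
        ∫⁻ x in D P, ENNReal.ofReal (τ s x) := by
    intro s hs
    refine setLIntegral_congr_fun hDm fun x hx => ?_
    rw [abs_of_pos (hpos x hx.1 s hs), hdet x hx.1 s]
  have hτnn : ∀ s : ℝ, 0 < s → 0 ≤ᵐ[volume.restrict (D P)] τ s := by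
    intro s hs
    rw [Filter.EventuallyLE, ae_restrict_iff' hDm]
    refine Filter.Eventually.of_forall fun x hx => ?_
    have := hpos x hx.1 s hs
    rw [hdet x hx.1 s] at this
    exact this.le
  have hτint : ∀ s : ℝ, 0 < s → IntegrableOn (τ s) (D P) := by
    intro s hs
    refine ⟨(hτm s).aestronglyMeasurable, ?_⟩
    rw [hasFiniteIntegral_iff_ofReal (hτnn s hs), ← hlin s hs]
    refine lt_of_le_of_lt ?_ (hfin s)
    rw [hsplit s hs]
    exact le_add_self
  have hconst : ∀ r : ℝ, IntegrableOn (fun _ : E 4 => r) (D P) := fun r =>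
    integrableOn_const hDfin.ne
  have hi3 : IntegrableOn c3 (D P) := by
    have := (((hτint 3 (by norm_num)).mul_const (1/6)).sub
      ((hτint 2 (by norm_num)).mul_const (1/2))).add (((hτint 1 (by norm_num)).mul_const (1/2)).sub
        (hconst 6))
    refine this.congr (Filter.Eventually.of_forall fun x => ?_)
    simp only [τ, Pi.add_apply, Pi.sub_apply]
    ring
  have hi2 : IntegrableOn c2 (D P) := by
    have := (((hτint 2 (by norm_num)).mul_const (1/2)).sub (hτint 1 (by norm_num))).sub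
      ((hi3.mul_const 3).add (hconst 7))
    refine this.congr (Filter.Eventually.of_forall fun x => ?_)
    simp only [τ, Pi.add_apply, Pi.sub_apply]
    ring
  have hi1 : IntegrableOn c1 (D P) := by
    have := ((hτint 1 (by norm_num)).sub hi2).sub (hi3.add (hconst 1))
    refine this.congr (Filter.Eventually.of_forall fun x => ?_)
    simp only [τ, Pi.add_apply, Pi.sub_apply]
    ring
  refine ⟨hi2, ∫ x in D P, c1 x, ∫ x in D P, c3 x, ∫ x in D P, (1:ℝ), ?_⟩
  intro ε hε
  rcases hε.eq_or_lt with rfl | hε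
  · have hc : (Iᶜ).card ≠ 0 := by
      rw [Finset.card_ne_zero, Finset.nonempty_iff_ne_empty]
      intro h0
      exact hI (by rwa [Finset.compl_eq_empty_iff] at h0)
    have h0 : volume (P '' (K H) + closedBall (0 : E 4) 0) = 0 := by
      rw [closedBall_zero, Set.singleton_zero, add_zero]
      exact volume_proj_zero hI _
    rw [h0, zero_pow hc]
    simp
  · rw [hsplit ε hε, volume_C I _ hε, hlin ε hε, ENNReal.toReal_add]
    · rw [ENNReal.toReal_mul, ENNReal.toReal_ofReal (by positivity)]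
      have h2 : (∫⁻ x in D P, ENNReal.ofReal (τ ε x)).toReal = ∫ x in D P, τ ε x := by
        rw [integral_eq_lintegral_of_nonneg_ae (hτnn ε hε) (hτm ε).aestronglyMeasurable]
      rw [h2]
      have h3 : (∫ x in D P, τ ε x) = (∫ x in D P, (1:ℝ)) * ε ^ 4 + (∫ x in D P, c3 x) * ε ^ 3 +
          (∫ x in D P, c2 x) * ε ^ 2 + (∫ x in D P, c1 x) * ε := by
        simp only [τ]
        have e0 : IntegrableOn (fun _ : E 4 => ε ^ 4) (D P) := hconst _
        have e3 : IntegrableOn (fun x => c3 x * ε ^ 3) (D P) := hi3.mul_const _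
        have e2 : IntegrableOn (fun x => c2 x * ε ^ 2) (D P) := hi2.mul_const _
        have e1 : IntegrableOn (fun x => c1 x * ε) (D P) := hi1.mul_const _
        have e03 : IntegrableOn (fun x => ε ^ 4 + c3 x * ε ^ 3) (D P) := e0.add e3
        have e032 : IntegrableOn (fun x => ε ^ 4 + c3 x * ε ^ 3 + c2 x * ε ^ 2) (D P) :=
          e03.add e2
        rw [integral_add e032 e1, integral_add e03 e2, integral_add e0 e3, integral_mul_const,
          integral_mul_const, integral_mul_const]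
        congr 3
        rw [← integral_mul_const]
        simp
      rw [h3]
      ring
    · rw [← volume_C I _ hε]
      refine (lt_of_le_of_lt ?_ (hfin ε)).ne
      rw [hsplit ε hε]
      exact le_self_add
    · rw [← hlin ε hε]
      refine (lt_of_le_of_lt ?_ (hfin ε)).ne
      rw [hsplit ε hε]
      exact le_add_self

end Pool.Agent.Helper98.Steiner
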