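import Mathlib
import Pool.Agent.Helper98.Steiner

open MeasureTheory Set Metric
open scoped Pointwise RealInnerProductSpace

namespace Pool.Agent.Helper98.Body

open Pool.Agent.Helper98.Steiner

noncomputable section

def e : ℝ := 1 / 100

def Lf (l : Fin 4 → ℂ) (x : E 4) : ℂ := ∑ j, l j * (x j : ℂ)

def ff (l m : Fin 4 → ℂ) (x : E 4) : ℂ := (Lf l x) ^ 2 * Lf m x

def gf (l m : Fin 4 → ℂ) (j : Fin 4) (x : E 4) : ℂ :=
  2 * Lf l x * l j * Lf m x + (Lf l x) ^ 2 * m j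

def hf (l m : Fin 4 → ℂ) (j k : Fin 4) (x : E 4) : ℂ :=
  2 * l j * l k * Lf m x + 2 * Lf l x * (l j * m k + l k * m j)

/-- inverse norm -/
def r (x : E 4) : ℝ := ‖x‖⁻¹

def H (l m : Fin 4 → ℂ) (x : E 4) : ℝ :=
  ‖x‖ + e * ((ff l m x).re * r x ^ 2) + e ^ 2 / 5 * ((ff l m x ^ 2).re * r x ^ 5)

def Nv (j : Fin 4) (x : E 4) : ℝ := x j * r x

def Wv (l m : Fin 4 → ℂ) (j : Fin 4) (x : E 4) : ℂ :=
  gf l m j x * (r x : ℂ) ^ 2 - 2 * ff l m x * (x j : ℂ) * (r x : ℂ) ^ 4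

def Vv (l m : Fin 4 → ℂ) (j : Fin 4) (x : E 4) : ℂ :=
  2 * ff l m x * gf l m j x * (r x : ℂ) ^ 5 - 5 * ff l m x ^ 2 * (x j : ℂ) * (r x : ℂ) ^ 7

def G (l m : Fin 4 → ℂ) (x : E 4) : E 4 :=
  WithLp.toLp 2 fun j => Nv j x + e * (Wv l m j x).re + e ^ 2 / 5 * (Vv l m j x).re

def Nm (j k : Fin 4) (x : E 4) : ℝ := (if j = k then r x else 0) - x j * x k * r x ^ 3

def Wm (l m : Fin 4 → ℂ) (j k : Fin 4) (x : E 4) : ℂ :=
  hf l m j k x * (r x : ℂ) ^ 2
    - 2 * (gf l m j x * (x k : ℂ) + gf l m k x * (x j : ℂ)) * (r x : ℂ) ^ 4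
    - (if j = k then 2 * ff l m x * (r x : ℂ) ^ 4 else 0)
    + 8 * ff l m x * (x j : ℂ) * (x k : ℂ) * (r x : ℂ) ^ 6

def Vm (l m : Fin 4 → ℂ) (j k : Fin 4) (x : E 4) : ℂ :=
  (2 * gf l m j x * gf l m k x + 2 * ff l m x * hf l m j k x) * (r x : ℂ) ^ 5
    - 10 * ff l m x * (gf l m j x * (x k : ℂ) + gf l m k x * (x j : ℂ)) * (r x : ℂ) ^ 7
    - (if j = k then 5 * ff l m x ^ 2 * (r x : ℂ) ^ 7 else 0)
    + 35 * ff l m x ^ 2 * (x j : ℂ) * (x k : ℂ) * (r x : ℂ) ^ 9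

def A (l m : Fin 4 → ℂ) (x : E 4) : Matrix (Fin 4) (Fin 4) ℝ :=
  Matrix.of fun j k => Nm j k x + e * (Wm l m j k x).re + e ^ 2 / 5 * (Vm l m j k x).re

/-- the functional with coefficients c -/
def lin (c : Fin 4 → ℂ) : E 4 →L[ℝ] ℂ :=
  ∑ j, (c j) • (Complex.ofRealCLM.comp (EuclideanSpace.proj j : E 4 →L[ℝ] ℝ))

lemma lin_apply (c : Fin 4 → ℂ) (v : E 4) : lin c v = ∑ j, c j * (v j : ℂ) := by
  simp [lin]

lemma hasFDerivAt_Lf (l : Fin 4 → ℂ) (x : E 4) : HasFDerivAt (Lf l) (lin l) x := by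
  have : Lf l = lin l := by
    funext v; rw [lin_apply]; rfl
  rw [this]
  exact (lin l).hasFDerivAt

lemma hasFDerivAt_r {x : E 4} (hx : x ≠ 0) :
    HasFDerivAt r (-(r x ^ 3) • innerSL ℝ x) x := by
  have h1 : HasFDerivAt (fun x : E 4 => ‖x‖ ^ 2) (2 • innerSL ℝ x) x :=
    (hasStrictFDerivAt_norm_sq x).hasFDerivAt
  have hn : 0 < ‖x‖ := norm_pos_iff.2 hx
  have h2 : HasDerivAt (fun t : ℝ => (Real.sqrt t)⁻¹)
      (-(1 / (2 * Real.sqrt (‖x‖ ^ 2))) / (Real.sqrt (‖x‖ ^ 2)) ^ 2) (‖x‖ ^ 2) := by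
    have := (Real.hasDerivAt_sqrt (by positivity : (‖x‖ ^ 2) ≠ 0)).inv
      (by rw [Real.sqrt_sq hn.le]; exact hn.ne')
    exact this
  have h3 := h2.comp_hasFDerivAt x h1
  have h4 : (fun t : ℝ => (Real.sqrt t)⁻¹) ∘ (fun x : E 4 => ‖x‖ ^ 2) = r := by
    funext y
    simp [r, Real.sqrt_sq (norm_nonneg y)]
  rw [h4] at h3
  refine h3.congr_fderiv ?_
  rw [Real.sqrt_sq hn.le]
  ext v
  simp only [r, _root_.smul_apply, innerSL_apply_apply, smul_eq_mul, nsmul_eq_mul,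
    Nat.cast_ofNat]
  field_simp

lemma hd_r {x : E 4} (hx : x ≠ 0) :
    HasFDerivAt (fun y => (r y : ℂ)) (lin fun k => -(r x : ℂ) ^ 3 * (x k : ℂ)) x := by
  have h := Complex.ofRealCLM.hasFDerivAt.comp x (hasFDerivAt_r hx)
  refine h.congr_fderiv ?_
  ext v
  rw [lin_apply]
  simp only [ContinuousLinearMap.comp_apply, _root_.smul_apply, innerSL_apply_apply,
    PiLp.inner_apply, RCLike.inner_apply, conj_trivial, smul_eq_mul, Complex.ofRealCLM_apply,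
    Complex.ofReal_mul, Complex.ofReal_neg, Complex.ofReal_pow, Complex.ofReal_sum,
    Finset.mul_sum]
  refine Finset.sum_congr rfl fun i _ => ?_
  ring

lemma hd_coord (j : Fin 4) (x : E 4) :
    HasFDerivAt (fun y : E 4 => ((y j : ℝ) : ℂ)) (lin fun k => if j = k then 1 else 0) x := by
  have h := Complex.ofRealCLM.hasFDerivAt.comp x
    (EuclideanSpace.proj j : E 4 →L[ℝ] ℝ).hasFDerivAt
  refine h.congr_fderiv ?_
  ext v
  rw [lin_apply]
  simp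

lemma hd_mul {F Q : E 4 → ℂ} {c d : Fin 4 → ℂ} {x : E 4} (hF : HasFDerivAt F (lin c) x)
    (hQ : HasFDerivAt Q (lin d) x) :
    HasFDerivAt (fun y => F y * Q y) (lin fun k => F x * d k + c k * Q x) x := by
  refine (hF.mul hQ).congr_fderiv ?_
  ext v
  simp only [_root_.add_apply, _root_.smul_apply, lin_apply, smul_eq_mul, Finset.mul_sum,
    ← Finset.sum_add_distrib]
  refine Finset.sum_congr rfl fun i _ => ?_
  ring

lemma hd_add {F Q : E 4 → ℂ} {c d : Fin 4 → ℂ} {x : E 4} (hF : HasFDerivAt F (lin c) x)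
    (hQ : HasFDerivAt Q (lin d) x) :
    HasFDerivAt (fun y => F y + Q y) (lin fun k => c k + d k) x := by
  refine (hF.add hQ).congr_fderiv ?_
  ext v
  simp only [_root_.add_apply, lin_apply, ← Finset.sum_add_distrib]
  refine Finset.sum_congr rfl fun i _ => ?_
  ring

lemma hd_sub {F Q : E 4 → ℂ} {c d : Fin 4 → ℂ} {x : E 4} (hF : HasFDerivAt F (lin c) x)
    (hQ : HasFDerivAt Q (lin d) x) :
    HasFDerivAt (fun y => F y - Q y) (lin fun k => c k - d k) x := by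
  refine (hF.sub hQ).congr_fderiv ?_
  ext v
  simp only [_root_.sub_apply, lin_apply, ← Finset.sum_sub_distrib]
  refine Finset.sum_congr rfl fun i _ => ?_
  ring

lemma hd_const (a : ℂ) (x : E 4) : HasFDerivAt (fun _ : E 4 => a) (lin fun _ => 0) x := by
  refine (hasFDerivAt_const a x).congr_fderiv ?_
  ext v
  simp [lin_apply]

lemma hd_pow {F : E 4 → ℂ} {c : Fin 4 → ℂ} {x : E 4} (hF : HasFDerivAt F (lin c) x) (n : ℕ) :
    HasFDerivAt (fun y => F y ^ n) (lin fun k => n * F x ^ (n - 1) * c k) x := by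
  refine (hF.pow n).congr_fderiv ?_
  ext v
  simp only [_root_.smul_apply, lin_apply, smul_eq_mul, Finset.mul_sum, nsmul_eq_mul]
  refine Finset.sum_congr rfl fun i _ => ?_
  ring

lemma hd_congr {F : E 4 → ℂ} {c d : Fin 4 → ℂ} {x : E 4} (hF : HasFDerivAt F (lin c) x)
    (h : ∀ k, c k = d k) : HasFDerivAt F (lin d) x := by
  have : c = d := funext h
  rwa [← this]

lemma hd_ff (l m : Fin 4 → ℂ) (x : E 4) : HasFDerivAt (ff l m) (lin fun k => gf l m k x) x := by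
  refine hd_congr (hd_mul (hd_pow (hasFDerivAt_Lf l x) 2) (hasFDerivAt_Lf m x)) fun k => ?_
  simp only [gf]
  push_cast
  ring

lemma hd_gf (l m : Fin 4 → ℂ) (j : Fin 4) (x : E 4) :
    HasFDerivAt (gf l m j) (lin fun k => hf l m j k x) x := by
  refine hd_congr (hd_add (hd_mul (hd_mul (hd_mul (hd_const 2 x) (hasFDerivAt_Lf l x))
    (hd_const (l j) x)) (hasFDerivAt_Lf m x))
    (hd_mul (hd_pow (hasFDerivAt_Lf l x) 2) (hd_const (m j) x))) fun k => ?_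
  simp only [hf]
  push_cast
  ring

lemma hd_W (l m : Fin 4 → ℂ) (j : Fin 4) {x : E 4} (hx : x ≠ 0) :
    HasFDerivAt (Wv l m j) (lin fun k => Wm l m j k x) x := by
  refine hd_congr (hd_sub (hd_mul (hd_gf l m j x) (hd_pow (hd_r hx) 2))
    (hd_mul (hd_mul (hd_mul (hd_const 2 x) (hd_ff l m x)) (hd_coord j x))
      (hd_pow (hd_r hx) 4))) fun k => ?_
  simp only [Wm]
  push_cast
  split_ifs <;> ring

lemma hd_V (l m : Fin 4 → ℂ) (j : Fin 4) {x : E 4} (hx : x ≠ 0) :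
    HasFDerivAt (Vv l m j) (lin fun k => Vm l m j k x) x := by
  refine hd_congr (hd_sub (hd_mul (hd_mul (hd_mul (hd_const 2 x) (hd_ff l m x))
    (hd_gf l m j x)) (hd_pow (hd_r hx) 5))
    (hd_mul (hd_mul (hd_mul (hd_const 5 x) (hd_pow (hd_ff l m x) 2)) (hd_coord j x))
      (hd_pow (hd_r hx) 7))) fun k => ?_
  simp only [Vm]
  push_cast
  split_ifs <;> ring

lemma hd_N (j : Fin 4) {x : E 4} (hx : x ≠ 0) :
    HasFDerivAt (fun y => ((Nv j y : ℝ) : ℂ)) (lin fun k => ((Nm j k x : ℝ) : ℂ)) x := by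
  have h1 : (fun y : E 4 => ((Nv j y : ℝ) : ℂ)) = fun y => (y j : ℂ) * (r y : ℂ) := by
    funext y; simp [Nv]
  rw [h1]
  refine hd_congr (hd_mul (hd_coord j x) (hd_r hx)) fun k => ?_
  simp only [Nm]
  push_cast
  split_ifs <;> simp <;> ring

lemma hasFDerivAt_G (l m : Fin 4 → ℂ) {x : E 4} (hx : x ≠ 0) :
    HasFDerivAt (G l m) (Matrix.toEuclideanCLM (n := Fin 4) (𝕜 := ℝ) (A l m x)) x := by
  rw [← hasFDerivWithinAt_univ, hasFDerivWithinAt_euclidean]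
  intro j
  rw [hasFDerivWithinAt_univ]
  have h1 := hd_add (hd_add (hd_N j hx) (hd_mul (hd_const (e : ℂ) x) (hd_W l m j hx)))
    (hd_mul (hd_const ((e ^ 2 / 5 : ℝ) : ℂ) x) (hd_V l m j hx))
  have h2 := Complex.reCLM.hasFDerivAt.comp x h1
  have h3 : (fun y : E 4 => (G l m y) j) = Complex.reCLM ∘ (fun y =>
      ((Nv j y : ℝ) : ℂ) + (e : ℂ) * Wv l m j y + ((e ^ 2 / 5 : ℝ) : ℂ) * Vv l m j y) := by
    funext y
    simp only [G, Function.comp, Complex.reCLM_apply, Complex.add_re, Complex.re_ofReal_mul,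
      Complex.ofReal_re]
  rw [h3]
  refine h2.congr_fderiv ?_
  ext v
  simp only [ContinuousLinearMap.comp_apply, lin_apply, Complex.reCLM_apply, Complex.re_sum,
    Complex.re_mul_ofReal, PiLp.proj_apply]
  rw [Matrix.ofLp_toEuclideanCLM]
  simp only [Matrix.mulVec, dotProduct, A, Matrix.of_apply]
  refine Finset.sum_congr rfl fun i _ => ?_
  congr 1
  simp only [zero_mul, add_zero, Complex.add_re, Complex.ofReal_re, Complex.re_ofReal_mul]

end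

end Pool.Agent.Helper98.Body
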