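import Mathlib
import Pool.Agent.Helper98.Body

open MeasureTheory Set Metric
open scoped Pointwise RealInnerProductSpace

namespace Pool.Agent.Helper98.Body

open Pool.Agent.Helper98.Steiner

noncomputable section

/-- admissible parameters -/
structure Adm (l m : Fin 4 → ℂ) : Prop where
  hl : ∀ x : E 4, ‖Lf l x‖ ≤ ‖x‖
  hm : ∀ x : E 4, ‖Lf m x‖ ≤ ‖x‖

lemma Lf_add (l : Fin 4 → ℂ) (x y : E 4) : Lf l (x + y) = Lf l x + Lf l y := by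
  simp only [Lf, PiLp.add_apply, Complex.ofReal_add, mul_add, Finset.sum_add_distrib]

lemma Lf_smul (l : Fin 4 → ℂ) (t : ℝ) (x : E 4) : Lf l (t • x) = t * Lf l x := by
  simp only [Lf, PiLp.smul_apply, smul_eq_mul, Complex.ofReal_mul, Finset.mul_sum]
  refine Finset.sum_congr rfl fun i _ => ?_
  ring

lemma Lf_sub (l : Fin 4 → ℂ) (x y : E 4) : Lf l (x - y) = Lf l x - Lf l y := by
  simp only [Lf, PiLp.sub_apply, Complex.ofReal_sub, mul_sub, Finset.sum_sub_distrib]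

/-- derivative of ff at x in direction y -/
def df (l m : Fin 4 → ℂ) (x y : E 4) : ℂ :=
  2 * Lf l x * Lf l y * Lf m x + Lf l x ^ 2 * Lf m y

lemma sum_gf (l m : Fin 4 → ℂ) (x y : E 4) : ∑ j, gf l m j x * (y j : ℂ) = df l m x y := by
  simp only [gf, df, Lf, Fin.sum_univ_four]
  ring

lemma inner_G (l m : Fin 4 → ℂ) (x y : E 4) :
    ⟪G l m x, y⟫ = ⟪x, y⟫ * r x
      + e * (df l m x y * (r x : ℂ) ^ 2 - 2 * ff l m x * (⟪x, y⟫ : ℝ) * (r x : ℂ) ^ 4).re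
      + e ^ 2 / 5 * (2 * ff l m x * df l m x y * (r x : ℂ) ^ 5
        - 5 * ff l m x ^ 2 * (⟪x, y⟫ : ℝ) * (r x : ℂ) ^ 7).re := by
  have h1 : ⟪x, y⟫ = ∑ j, x j * y j := by
    simp only [PiLp.inner_apply, RCLike.inner_apply, conj_trivial]
    exact Finset.sum_congr rfl fun i _ => mul_comm _ _
  have h2 : ⟪G l m x, y⟫ = ∑ j, (Nv j x + e * (Wv l m j x).re + e ^ 2 / 5 * (Vv l m j x).re) * y j := by
    simp only [PiLp.inner_apply, RCLike.inner_apply, conj_trivial, G]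
    exact Finset.sum_congr rfl fun i _ => mul_comm _ _
  have h3 : (df l m x y * (r x : ℂ) ^ 2 - 2 * ff l m x * (⟪x, y⟫ : ℝ) * (r x : ℂ) ^ 4).re =
      ∑ j, (Wv l m j x).re * y j := by
    have : (df l m x y * (r x : ℂ) ^ 2 - 2 * ff l m x * (⟪x, y⟫ : ℝ) * (r x : ℂ) ^ 4) =
        ∑ j, (Wv l m j x) * (y j : ℂ) := by
      rw [← sum_gf, h1]
      simp only [Wv, Fin.sum_univ_four]
      push_cast
      ring
    rw [this, Complex.re_sum]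
    exact Finset.sum_congr rfl fun i _ => Complex.re_mul_ofReal _ _
  have h4 : (2 * ff l m x * df l m x y * (r x : ℂ) ^ 5
        - 5 * ff l m x ^ 2 * (⟪x, y⟫ : ℝ) * (r x : ℂ) ^ 7).re =
      ∑ j, (Vv l m j x).re * y j := by
    have : (2 * ff l m x * df l m x y * (r x : ℂ) ^ 5
        - 5 * ff l m x ^ 2 * (⟪x, y⟫ : ℝ) * (r x : ℂ) ^ 7) =
        ∑ j, (Vv l m j x) * (y j : ℂ) := by
      rw [← sum_gf, h1]
      simp only [Vv, Fin.sum_univ_four]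
      push_cast
      ring
    rw [this, Complex.re_sum]
    exact Finset.sum_congr rfl fun i _ => Complex.re_mul_ofReal _ _
  rw [h2, h3, h4, h1]
  simp only [Nv, Fin.sum_univ_four]
  ring

/-- the basic convexity estimate for unit vectors -/
lemma key {l m : Fin 4 → ℂ} (h : Adm l m) {x y : E 4} (hx : ‖x‖ = 1) (hy : ‖y‖ = 1) :
    (1 / 4) * ‖y - x‖ ^ 2 ≤ H l m y - ⟪G l m x, y⟫ := by
  set d := y - x with hd
  have hyd : y = x + d := by rw [hd]; abel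
  have hs : ⟪x, y⟫ = 1 - ‖d‖ ^ 2 / 2 := by
    have := norm_sub_sq_real y x
    rw [← hd, hx, hy, real_inner_comm] at this
    linarith
  have hd2 : ‖d‖ ≤ 2 := by
    have := norm_sub_le y x
    rw [← hd, hx, hy] at this
    linarith
  set a := Lf l x with ha
  set b := Lf m x with hb
  set p := Lf l d with hp
  set q := Lf m d with hq
  have na : ‖a‖ ≤ 1 := by rw [← hx]; exact h.hl x
  have nb : ‖b‖ ≤ 1 := by rw [← hx]; exact h.hm x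
  have np : ‖p‖ ≤ ‖d‖ := h.hl d
  have nq : ‖q‖ ≤ ‖d‖ := h.hm d
  have hLy : Lf l y = a + p := by rw [hyd, Lf_add]
  have hMy : Lf m y = b + q := by rw [hyd, Lf_add]
  set δ := ‖d‖ with hδ
  have δ0 : 0 ≤ δ := norm_nonneg _
  have hrx : r x = 1 := by simp [r, hx]
  have hry : r y = 1 := by simp [r, hy]
  -- the two brackets
  set s1 : ℂ := p ^ 2 * b + 2 * a * p * q + p ^ 2 * q with hs1
  set Δ : ℂ := 2 * a * p * b + p ^ 2 * b + a ^ 2 * q + 2 * a * p * q + p ^ 2 * q with hΔ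
  have e1 : H l m y - ⟪G l m x, y⟫ = δ ^ 2 / 2 + e * (s1 - a ^ 2 * b * (δ ^ 2 : ℝ)).re
      + e ^ 2 / 5 * (Δ ^ 2 + 2 * (a ^ 2 * b) * s1 - 5 / 2 * (a ^ 2 * b) ^ 2 * (δ ^ 2 : ℝ)).re := by
    rw [inner_G, hrx, hs]
    unfold H ff df
    rw [hry, hy, hLy, hMy, ← ha, ← hb]
    have c1 : ((a + p) ^ 2 * (b + q)).re * 1 ^ 2 -
        ((2 * a * (a + p) * b + a ^ 2 * (b + q)) * ((1:ℝ) : ℂ) ^ 2 -
          2 * (a ^ 2 * b) * ((1 - δ ^ 2 / 2 : ℝ) : ℂ) * ((1:ℝ) : ℂ) ^ 4).re =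
        (s1 - a ^ 2 * b * (δ ^ 2 : ℝ)).re := by
      rw [one_pow, mul_one, ← Complex.sub_re]
      congr 1
      rw [hs1]
      push_cast
      ring
    have c2 : (((a + p) ^ 2 * (b + q)) ^ 2).re * 1 ^ 5 -
        (2 * (a ^ 2 * b) * (2 * a * (a + p) * b + a ^ 2 * (b + q)) * ((1:ℝ) : ℂ) ^ 5 -
          5 * (a ^ 2 * b) ^ 2 * ((1 - δ ^ 2 / 2 : ℝ) : ℂ) * ((1:ℝ) : ℂ) ^ 7).re =
        (Δ ^ 2 + 2 * (a ^ 2 * b) * s1 - 5 / 2 * (a ^ 2 * b) ^ 2 * (δ ^ 2 : ℝ)).re := by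
      rw [one_pow, mul_one, ← Complex.sub_re]
      congr 1
      rw [hs1, hΔ]
      push_cast
      ring
    rw [← c1, ← c2]
    ring
  have pp : ‖p‖ ^ 2 ≤ δ ^ 2 := pow_le_pow_left₀ (norm_nonneg _) np 2
  have npos := norm_nonneg p
  have nqos := norm_nonneg q
  have naos := norm_nonneg a
  have nbos := norm_nonneg b
  have b1 : ‖s1‖ ≤ 5 * δ ^ 2 := by
    have t1 : ‖p ^ 2 * b‖ ≤ δ ^ 2 := by
      rw [norm_mul, norm_pow]
      calc ‖p‖ ^ 2 * ‖b‖ ≤ δ ^ 2 * 1 := mul_le_mul pp nb nbos (by positivity)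
        _ = δ ^ 2 := mul_one _
    have t2 : ‖2 * a * p * q‖ ≤ 2 * δ ^ 2 := by
      rw [norm_mul, norm_mul, norm_mul]
      have : ‖(2:ℂ)‖ = 2 := by simp
      rw [this]
      calc 2 * ‖a‖ * ‖p‖ * ‖q‖ ≤ 2 * 1 * δ * δ := by gcongr
        _ = 2 * δ ^ 2 := by ring
    have t3 : ‖p ^ 2 * q‖ ≤ 2 * δ ^ 2 := by
      rw [norm_mul, norm_pow]
      calc ‖p‖ ^ 2 * ‖q‖ ≤ δ ^ 2 * 2 := mul_le_mul pp (nq.trans hd2) nqos (by positivity)
        _ = 2 * δ ^ 2 := by ring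
    calc ‖s1‖ ≤ ‖p ^ 2 * b + 2 * a * p * q‖ + ‖p ^ 2 * q‖ := norm_add_le _ _
      _ ≤ ‖p ^ 2 * b‖ + ‖2 * a * p * q‖ + ‖p ^ 2 * q‖ := by gcongr; exact norm_add_le _ _
      _ ≤ 5 * δ ^ 2 := by linarith
  have nab : ‖a ^ 2 * b‖ ≤ 1 := by
    rw [norm_mul, norm_pow]
    calc ‖a‖ ^ 2 * ‖b‖ ≤ 1 ^ 2 * 1 := by gcongr
      _ = 1 := by norm_num
  have b2 : ‖s1 - a ^ 2 * b * (δ ^ 2 : ℝ)‖ ≤ 6 * δ ^ 2 := by
    have : ‖a ^ 2 * b * (δ ^ 2 : ℝ)‖ ≤ δ ^ 2 := by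
      rw [norm_mul, Complex.norm_real, Real.norm_of_nonneg (by positivity)]
      calc ‖a ^ 2 * b‖ * δ ^ 2 ≤ 1 * δ ^ 2 := by gcongr
        _ = δ ^ 2 := one_mul _
    calc _ ≤ ‖s1‖ + ‖a ^ 2 * b * (δ ^ 2 : ℝ)‖ := norm_sub_le _ _
      _ ≤ _ := by linarith
  have b3 : ‖Δ‖ ≤ 13 * δ := by
    have u1 : ‖2 * a * p * b‖ ≤ 2 * δ := by
      rw [norm_mul, norm_mul, norm_mul]
      have : ‖(2:ℂ)‖ = 2 := by simp
      rw [this]
      calc 2 * ‖a‖ * ‖p‖ * ‖b‖ ≤ 2 * 1 * δ * 1 := by gcongr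
        _ = 2 * δ := by ring
    have u2 : ‖a ^ 2 * q‖ ≤ δ := by
      rw [norm_mul, norm_pow]
      calc ‖a‖ ^ 2 * ‖q‖ ≤ 1 ^ 2 * δ := by gcongr
        _ = δ := by ring
    have u3 : Δ = 2 * a * p * b + a ^ 2 * q + s1 := by rw [hΔ, hs1]; ring
    have u4 : 5 * δ ^ 2 ≤ 10 * δ := by nlinarith
    calc ‖Δ‖ ≤ ‖2 * a * p * b + a ^ 2 * q‖ + ‖s1‖ := by rw [u3]; exact norm_add_le _ _
      _ ≤ ‖2 * a * p * b‖ + ‖a ^ 2 * q‖ + ‖s1‖ := by gcongr; exact norm_add_le _ _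
      _ ≤ 13 * δ := by linarith
  have b4 : ‖Δ ^ 2 + 2 * (a ^ 2 * b) * s1 - 5 / 2 * (a ^ 2 * b) ^ 2 * (δ ^ 2 : ℝ)‖ ≤
      182 * δ ^ 2 := by
    have v1 : ‖Δ ^ 2‖ ≤ 169 * δ ^ 2 := by
      rw [norm_pow]
      calc ‖Δ‖ ^ 2 ≤ (13 * δ) ^ 2 := by gcongr
        _ = 169 * δ ^ 2 := by ring
    have v2 : ‖2 * (a ^ 2 * b) * s1‖ ≤ 10 * δ ^ 2 := by
      rw [norm_mul, norm_mul]
      have : ‖(2:ℂ)‖ = 2 := by simp
      rw [this]
      calc 2 * ‖a ^ 2 * b‖ * ‖s1‖ ≤ 2 * 1 * (5 * δ ^ 2) := by gcongr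
        _ = 10 * δ ^ 2 := by ring
    have v3 : ‖5 / 2 * (a ^ 2 * b) ^ 2 * (δ ^ 2 : ℝ)‖ ≤ 3 * δ ^ 2 := by
      rw [norm_mul, norm_mul, norm_pow, Complex.norm_real, Real.norm_of_nonneg (by positivity)]
      have : ‖(5 / 2 : ℂ)‖ = 5 / 2 := by simp
      rw [this]
      have h1 : ‖a ^ 2 * b‖ ^ 2 ≤ 1 := pow_le_one₀ (norm_nonneg _) nab
      have h2 : 0 ≤ δ ^ 2 := by positivity
      nlinarith
    calc _ ≤ ‖Δ ^ 2 + 2 * (a ^ 2 * b) * s1‖ + ‖5 / 2 * (a ^ 2 * b) ^ 2 * (δ ^ 2 : ℝ)‖ :=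
          norm_sub_le _ _
      _ ≤ ‖Δ ^ 2‖ + ‖2 * (a ^ 2 * b) * s1‖ + ‖5 / 2 * (a ^ 2 * b) ^ 2 * (δ ^ 2 : ℝ)‖ := by
          gcongr; exact norm_add_le _ _
      _ ≤ 182 * δ ^ 2 := by linarith
  have r1 := (abs_le.1 ((Complex.abs_re_le_norm _).trans b2)).1
  have r2 := (abs_le.1 ((Complex.abs_re_le_norm _).trans b4)).1
  rw [e1]
  unfold e
  have : 0 ≤ δ ^ 2 := by positivity
  linarith

lemma ff_smul (l m : Fin 4 → ℂ) (t : ℝ) (x : E 4) : ff l m (t • x) = t ^ 3 * ff l m x := by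
  simp only [ff, Lf_smul]; ring

lemma df_smul_left (l m : Fin 4 → ℂ) (t : ℝ) (x y : E 4) :
    df l m (t • x) y = t ^ 2 * df l m x y := by
  simp only [df, Lf_smul]; ring

lemma r_smul {t : ℝ} (ht : 0 < t) (x : E 4) : r (t • x) = t⁻¹ * r x := by
  simp [r, norm_smul, abs_of_pos ht, mul_comm]

lemma H_smul (l m : Fin 4 → ℂ) {t : ℝ} (ht : 0 < t) (x : E 4) : H l m (t • x) = t * H l m x := by
  have h1 : (ff l m (t • x)).re = t ^ 3 * (ff l m x).re := by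
    rw [ff_smul, ← Complex.ofReal_pow, Complex.re_ofReal_mul]
  have h2 : (ff l m (t • x) ^ 2).re = t ^ 6 * (ff l m x ^ 2).re := by
    rw [ff_smul, mul_pow, ← pow_mul, ← Complex.ofReal_pow, Complex.re_ofReal_mul]
  unfold H
  rw [h1, h2, r_smul ht, norm_smul, Real.norm_of_nonneg ht.le]
  field_simp

lemma gf_smul (l m : Fin 4 → ℂ) (j : Fin 4) (t : ℝ) (x : E 4) :
    gf l m j (t • x) = t ^ 2 * gf l m j x := by
  simp only [gf, Lf_smul]; ring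

lemma G_smul (l m : Fin 4 → ℂ) {t : ℝ} (ht : 0 < t) (x : E 4) : G l m (t • x) = G l m x := by
  have htc : (t : ℂ) ≠ 0 := by exact_mod_cast ht.ne'
  ext j
  simp only [G]
  have h1 : Nv j (t • x) = Nv j x := by
    simp only [Nv, r_smul ht, PiLp.smul_apply, smul_eq_mul]
    field_simp
  have h2 : Wv l m j (t • x) = Wv l m j x := by
    simp only [Wv, r_smul ht, PiLp.smul_apply, smul_eq_mul, gf_smul, ff_smul]
    push_cast
    field_simp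
  have h3 : Vv l m j (t • x) = Vv l m j x := by
    simp only [Vv, r_smul ht, PiLp.smul_apply, smul_eq_mul, gf_smul, ff_smul]
    push_cast
    field_simp
  rw [h1, h2, h3]

lemma H_zero (l m : Fin 4 → ℂ) : H l m 0 = 0 := by
  simp [H, r]

lemma df_self (l m : Fin 4 → ℂ) (x : E 4) : df l m x x = 3 * ff l m x := by
  simp only [df, ff]; ring

lemma touch (l m : Fin 4 → ℂ) {x : E 4} (hx : x ≠ 0) : ⟪G l m x, x⟫ = H l m x := by
  have hn : ‖x‖ ≠ 0 := norm_ne_zero_iff.2 hx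
  rw [inner_G, df_self, real_inner_self_eq_norm_sq]
  unfold H
  have h1 : (3 * ff l m x * (r x : ℂ) ^ 2 - 2 * ff l m x * ((‖x‖ ^ 2 : ℝ) : ℂ) * (r x : ℂ) ^ 4)
      = ff l m x * ((r x ^ 2 : ℝ) : ℂ) := by
    have : ((‖x‖ ^ 2 : ℝ) : ℂ) * (r x : ℂ) ^ 4 = (r x : ℂ) ^ 2 := by
      rw [← Complex.ofReal_pow, ← Complex.ofReal_pow, ← Complex.ofReal_mul]
      congr 1
      unfold r; field_simp
    rw [mul_assoc (2 * ff l m x), this]
    push_cast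
    ring
  have h2 : (2 * ff l m x * (3 * ff l m x) * (r x : ℂ) ^ 5
        - 5 * ff l m x ^ 2 * ((‖x‖ ^ 2 : ℝ) : ℂ) * (r x : ℂ) ^ 7) =
      ff l m x ^ 2 * ((r x ^ 5 : ℝ) : ℂ) := by
    have : ((‖x‖ ^ 2 : ℝ) : ℂ) * (r x : ℂ) ^ 7 = (r x : ℂ) ^ 5 := by
      rw [← Complex.ofReal_pow, ← Complex.ofReal_pow, ← Complex.ofReal_mul]
      congr 1
      unfold r; field_simp
    rw [mul_assoc (5 * ff l m x ^ 2), this]
    push_cast
    ring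
  rw [h1, h2, Complex.re_mul_ofReal, Complex.re_mul_ofReal]
  congr 2
  unfold r; field_simp

lemma key' {l m : Fin 4 → ℂ} (h : Adm l m) {x y : E 4} (hx : x ≠ 0) (hy : y ≠ 0) :
    (1 / 4) * ‖‖y‖⁻¹ • y - ‖x‖⁻¹ • x‖ ^ 2 * ‖y‖ ≤ H l m y - ⟪G l m x, y⟫ := by
  have nx : 0 < ‖x‖ := norm_pos_iff.2 hx
  have ny : 0 < ‖y‖ := norm_pos_iff.2 hy
  have h1 := key h (x := ‖x‖⁻¹ • x) (y := ‖y‖⁻¹ • y)
    (by rw [norm_smul, norm_inv, norm_norm, inv_mul_cancel₀ nx.ne'])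
    (by rw [norm_smul, norm_inv, norm_norm, inv_mul_cancel₀ ny.ne'])
  rw [G_smul l m (inv_pos.2 nx), H_smul l m (inv_pos.2 ny), inner_smul_right] at h1
  have h2 : ‖y‖⁻¹ * H l m y - ‖y‖⁻¹ * ⟪G l m x, y⟫ = (H l m y - ⟪G l m x, y⟫) / ‖y‖ := by
    field_simp
  rw [h2, le_div_iff₀ ny] at h1
  exact h1

lemma mem_K {l m : Fin 4 → ℂ} (h : Adm l m) {x : E 4} (hx : x ≠ 0) : G l m x ∈ K (H l m) := by
  intro y
  by_cases hy : y = 0
  · subst hy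
    rw [inner_zero_right, H_zero]
  · have := key' h hx hy
    have h2 : 0 ≤ (1 / 4) * ‖‖y‖⁻¹ • y - ‖x‖⁻¹ • x‖ ^ 2 * ‖y‖ := by positivity
    linarith

lemma differentiableAt_H (l m : Fin 4 → ℂ) {x : E 4} (hx : x ≠ 0) :
    DifferentiableAt ℝ (H l m) x := by
  have h1 : DifferentiableAt ℝ (fun y : E 4 => ‖y‖) x :=
    (contDiffAt_norm (n := 1) ℝ hx).differentiableAt (by norm_num)
  have h2 : DifferentiableAt ℝ r x := (hasFDerivAt_r hx).differentiableAt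
  have h3 : DifferentiableAt ℝ (ff l m) x := (hd_ff l m x).differentiableAt
  have h4 : DifferentiableAt ℝ (fun y => (ff l m y).re) x :=
    Complex.reCLM.differentiableAt.comp x h3
  have h5 : DifferentiableAt ℝ (fun y => (ff l m y ^ 2).re) x :=
    Complex.reCLM.differentiableAt.comp x (h3.pow 2)
  exact (h1.add ((h4.mul (h2.pow 2)).const_mul _)).add ((h5.mul (h2.pow 5)).const_mul _)

lemma grad_eq {l m : Fin 4 → ℂ} {x : E 4} (hx : x ≠ 0) {y : E 4} (hy : y ∈ K (H l m))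
    (hyx : ⟪y, x⟫ = H l m x) : fderiv ℝ (H l m) x = innerSL ℝ y := by
  have hmin : IsLocalMin (fun z => H l m z - ⟪y, z⟫) x := by
    refine Filter.Eventually.of_forall fun z => ?_
    show H l m x - ⟪y, x⟫ ≤ H l m z - ⟪y, z⟫
    have := hy z
    rw [hyx]
    linarith
  have h1 : HasFDerivAt (fun z => H l m z - ⟪y, z⟫) (fderiv ℝ (H l m) x - innerSL ℝ y) x :=
    (differentiableAt_H l m hx).hasFDerivAt.sub (innerSL ℝ y).hasFDerivAt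
  have h2 := hmin.hasFDerivAt_eq_zero h1
  exact sub_eq_zero.1 h2

lemma bdd_H {l m : Fin 4 → ℂ} (h : Adm l m) (x : E 4) : H l m x ≤ 2 * ‖x‖ := by
  by_cases hx : x = 0
  · subst hx; rw [H_zero]; simp
  have nx : 0 < ‖x‖ := norm_pos_iff.2 hx
  have hf : ‖ff l m x‖ ≤ ‖x‖ ^ 3 := by
    unfold ff
    rw [norm_mul, norm_pow]
    have h1 := h.hl x
    have h2 := h.hm x
    calc ‖Lf l x‖ ^ 2 * ‖Lf m x‖ ≤ ‖x‖ ^ 2 * ‖x‖ := by gcongr
      _ = ‖x‖ ^ 3 := by ring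
  have h1 : (ff l m x).re * r x ^ 2 ≤ ‖x‖ := by
    have h3 : (ff l m x).re ≤ ‖x‖ ^ 3 := (Complex.re_le_norm _).trans hf
    have h4 : 0 ≤ r x ^ 2 := by positivity
    calc (ff l m x).re * r x ^ 2 ≤ ‖x‖ ^ 3 * r x ^ 2 := mul_le_mul_of_nonneg_right h3 h4
      _ = ‖x‖ := by unfold r; field_simp
  have h2 : (ff l m x ^ 2).re * r x ^ 5 ≤ ‖x‖ := by
    have h3 : (ff l m x ^ 2).re ≤ ‖x‖ ^ 6 := by
      refine (Complex.re_le_norm _).trans ?_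
      rw [norm_pow]
      calc ‖ff l m x‖ ^ 2 ≤ (‖x‖ ^ 3) ^ 2 := by gcongr
        _ = ‖x‖ ^ 6 := by ring
    have h4 : 0 ≤ r x ^ 5 := by unfold r; positivity
    calc (ff l m x ^ 2).re * r x ^ 5 ≤ ‖x‖ ^ 6 * r x ^ 5 := mul_le_mul_of_nonneg_right h3 h4
      _ = ‖x‖ := by unfold r; field_simp
  unfold H e
  linarith

lemma supp {l m : Fin 4 → ℂ} (h : Adm l m) : Supp (H l m) (G l m) where
  mem x hx := mem_K h hx
  touch x hx := touch l m hx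
  uniq x hx y hy hyx := by
    have h1 := grad_eq hx hy hyx
    have h2 := grad_eq hx (mem_K h hx) (touch l m hx)
    rw [h1] at h2
    refine ext_inner_right ℝ fun z => ?_
    have h3 := DFunLike.congr_fun h2 z
    simpa using h3
  hom x t ht := G_smul l m ht x
  bdd := ⟨2, by norm_num, bdd_H h⟩
  ne := ⟨EuclideanSpace.single 0 1, by simp⟩

end

end Pool.Agent.Helper98.Body
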