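import Mathlib
import Pool.Agent.Helper98.Body2

open MeasureTheory Set Metric
open scoped Pointwise RealInnerProductSpace

namespace Pool.Agent.Helper98.Body

open Pool.Agent.Helper98.Steiner

noncomputable section

/-- derivative matrix of the projected gradient field -/
def B (l m : Fin 4 → ℂ) (I : Finset (Fin 4)) (x : E 4) : Matrix (Fin 4) (Fin 4) ℝ :=
  Matrix.of fun j k => if j ∈ I ∧ k ∈ I then A l m (Pr I x) j k else 0

lemma hasFDerivAt_PGP (l m : Fin 4 → ℂ) (I : Finset (Fin 4)) {x : E 4} (hx : Pr I x ≠ 0) :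
    HasFDerivAt (fun x => Pr I (G l m (Pr I x)))
      (Matrix.toEuclideanCLM (n := Fin 4) (𝕜 := ℝ) (B l m I x)) x := by
  have h1 : HasFDerivAt (fun x => Pr I (G l m (Pr I x))) ((Pr I).comp
      ((Matrix.toEuclideanCLM (n := Fin 4) (𝕜 := ℝ) (A l m (Pr I x))).comp (Pr I))) x :=
    (Pr I).hasFDerivAt.comp x ((hasFDerivAt_G l m hx).comp x (Pr I).hasFDerivAt)
  refine h1.congr_fderiv ?_
  ext v j
  simp only [ContinuousLinearMap.comp_apply, Pr_apply, Matrix.ofLp_toEuclideanCLM, Matrix.mulVec,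
    dotProduct, B, Matrix.of_apply]
  by_cases hj : j ∈ I
  · simp only [hj, if_true, true_and]
    refine Finset.sum_congr rfl fun k _ => ?_
    split_ifs <;> simp
  · simp [hj]

lemma A_symm (l m : Fin 4 → ℂ) (x : E 4) (j k : Fin 4) : A l m x j k = A l m x k j := by
  have h1 : Nm j k x = Nm k j x := by
    simp only [Nm, eq_comm (a := j)]; ring
  have h2 : Wm l m j k x = Wm l m k j x := by
    simp only [Wm, hf, eq_comm (a := j)]; ring
  have h3 : Vm l m j k x = Vm l m k j x := by
    simp only [Vm, hf, eq_comm (a := j)]; ring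
  simp only [A, Matrix.of_apply, h1, h2, h3]

lemma B_symm (l m : Fin 4 → ℂ) (I : Finset (Fin 4)) (x : E 4) (j k : Fin 4) :
    B l m I x j k = B l m I x k j := by
  simp only [B, Matrix.of_apply, A_symm l m (Pr I x) j k, and_comm (a := j ∈ I)]

lemma B_psd {l m : Fin 4 → ℂ} (h : Adm l m) (I : Finset (Fin 4)) {x : E 4} (hx : Pr I x ≠ 0)
    (v : E 4) :
    0 ≤ ⟪Matrix.toEuclideanCLM (n := Fin 4) (𝕜 := ℝ) (B l m I x) v, v⟫ := by
  have hs := supp h
  have hP := isProj_Pr I
  set φ : E 4 → E 4 := fun x => Pr I (G l m (Pr I x)) with hφ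
  have h1 : HasDerivAt (fun t : ℝ => x + t • v) v 0 := by
    simpa using ((hasDerivAt_id (0:ℝ)).smul_const v).const_add x
  have h0 : x = x + (0:ℝ) • v := by simp
  have h2 : HasDerivAt (fun t : ℝ => φ (x + t • v))
      (Matrix.toEuclideanCLM (n := Fin 4) (𝕜 := ℝ) (B l m I x) v) 0 := by
    have := hasFDerivAt_PGP l m I hx
    rw [h0] at this
    have h3 := this.comp_hasDerivAt (0:ℝ) h1
    rw [← h0] at h3
    exact h3
  have h3 : HasDerivAt (fun t : ℝ => ⟪φ (x + t • v), v⟫)
      ⟪Matrix.toEuclideanCLM (n := Fin 4) (𝕜 := ℝ) (B l m I x) v, v⟫ 0 := by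
    have := h2.inner ℝ (hasDerivAt_const (0:ℝ) v)
    simpa using this
  have h4 := (hasDerivAt_iff_tendsto_slope.1 h3).mono_left
    (nhdsWithin_mono 0 (s := Set.Ioi 0) (t := {0}ᶜ) (by
      intro t ht; simp only [mem_compl_iff, mem_singleton_iff]; exact (ne_of_gt ht)))
  refine ge_of_tendsto h4 ?_
  have hcont : Continuous fun t : ℝ => Pr I (x + t • v) := by fun_prop
  have hev : ∀ᶠ t in nhds (0:ℝ), Pr I (x + t • v) ≠ 0 := by
    have : Pr I (x + (0:ℝ) • v) ≠ 0 := by rwa [← h0]
    exact hcont.continuousAt.eventually_ne this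
  filter_upwards [nhdsWithin_le_nhds hev, self_mem_nhdsWithin] with t ht htpos
  rw [slope_def_field]
  have htp : (0:ℝ) < t := htpos
  refine div_nonneg ?_ (by linarith)
  rw [← h0, ← inner_sub_left]
  have h5 := mono hs ht hx
  have h6 : Pr I (x + t • v) - Pr I x = t • Pr I v := by
    rw [map_add, map_smul]; abel
  rw [h6, inner_smul_left, hP.symm, map_sub, real_inner_comm] at h5
  simp only [conj_trivial] at h5
  exact nonneg_of_mul_nonneg_right h5 htp

lemma B_det_pos {l m : Fin 4 → ℂ} (h : Adm l m) (I : Finset (Fin 4)) {x : E 4}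
    (hx : Pr I x ≠ 0) {s : ℝ} (hs : 0 < s) :
    0 < (s • (1 : Matrix (Fin 4) (Fin 4) ℝ) + B l m I x).det := by
  apply Matrix.PosDef.det_pos
  have hherm : (s • (1 : Matrix (Fin 4) (Fin 4) ℝ) + B l m I x).IsHermitian := by
    ext j k
    simp only [Matrix.conjTranspose_apply, Matrix.add_apply, Matrix.smul_apply, star_trivial,
      B_symm l m I x k j, Matrix.one_apply, eq_comm (a := k)]
  refine Matrix.PosDef.of_dotProduct_mulVec_pos hherm fun v hv => ?_
  have h1 := B_psd h I hx (WithLp.toLp 2 v)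
  rw [real_inner_comm, Matrix.inner_toEuclideanCLM] at h1
  simp only [star_trivial]
  rw [Matrix.add_mulVec, dotProduct_add, Matrix.smul_mulVec, Matrix.one_mulVec, dotProduct_smul,
    smul_eq_mul]
  have h2 : 0 < v ⬝ᵥ v := by
    have : 0 ≤ v ⬝ᵥ v := dotProduct_self_star_nonneg v
    refine lt_of_le_of_ne this (Ne.symm ?_)
    intro h0
    exact hv (dotProduct_self_eq_zero.1 h0)
  have h3 : 0 < s * (v ⬝ᵥ v) := mul_pos hs h2
  simp only at h1
  linarith

/-- radial direction is in the kernel -/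
lemma B_radial {l m : Fin 4 → ℂ} (I : Finset (Fin 4)) {x : E 4} (hx : Pr I x ≠ 0) :
    Matrix.toEuclideanCLM (n := Fin 4) (𝕜 := ℝ) (B l m I x) x = 0 := by
  set φ : E 4 → E 4 := fun x => Pr I (G l m (Pr I x)) with hφ
  have h1 : HasDerivAt (fun t : ℝ => x + t • x) x 0 := by
    simpa using ((hasDerivAt_id (0:ℝ)).smul_const x).const_add x
  have h0 : x = x + (0:ℝ) • x := by simp
  have h2 : HasDerivAt (fun t : ℝ => φ (x + t • x))
      (Matrix.toEuclideanCLM (n := Fin 4) (𝕜 := ℝ) (B l m I x) x) 0 := by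
    have := hasFDerivAt_PGP l m I hx
    rw [h0] at this
    have h3 := this.comp_hasDerivAt (0:ℝ) h1
    rw [← h0] at h3
    exact h3
  have h3 : (fun t : ℝ => φ (x + t • x)) =ᶠ[nhds 0] fun _ => φ x := by
    have : ∀ᶠ t in nhds (0:ℝ), -1 < t := eventually_gt_nhds (by norm_num)
    filter_upwards [this] with t ht
    have h4 : x + t • x = (1 + t) • x := by rw [add_smul, one_smul]
    simp only [hφ, h4, map_smul]
    rw [G_smul l m (by linarith)]
  have h4 : HasDerivAt (fun t : ℝ => φ (x + t • x)) 0 0 :=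
    (hasDerivAt_const (0:ℝ) (φ x)).congr_of_eventuallyEq h3
  exact h2.unique h4

lemma r_measurable : Measurable r := by
  unfold r
  exact measurable_norm.inv

lemma coord_measurable (j : Fin 4) : Measurable fun x : E 4 => x j := by
  have : Continuous fun x : E 4 => x j := by fun_prop
  exact this.measurable

lemma Lf_measurable (l : Fin 4 → ℂ) : Measurable (Lf l) := by
  have : Continuous (Lf l) := by
    unfold Lf
    fun_prop
  exact this.measurable

lemma A_measurable (l m : Fin 4 → ℂ) (j k : Fin 4) : Measurable fun x => A l m x j k := by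
  have hr := r_measurable
  have hrc : Measurable fun x : E 4 => (r x : ℂ) := Complex.measurable_ofReal.comp hr
  have hl := Lf_measurable l
  have hm := Lf_measurable m
  have hcj : ∀ j, Measurable fun x : E 4 => ((x j : ℝ) : ℂ) := fun j =>
    Complex.measurable_ofReal.comp (coord_measurable j)
  have hc := coord_measurable
  have hff : Measurable (ff l m) := (hl.pow_const 2).mul hm
  have hgf : ∀ j, Measurable (gf l m j) := fun j => by
    unfold gf
    exact (((hl.const_mul 2).mul_const _).mul hm).add ((hl.pow_const 2).mul_const _)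
  have hhf : ∀ j k, Measurable (hf l m j k) := fun j k => by
    unfold hf
    exact (hm.const_mul _).add ((hl.const_mul 2).mul_const _)
  have hN : Measurable fun x => Nm j k x := by
    unfold Nm
    refine Measurable.sub ?_ (((hc j).mul (hc k)).mul (hr.pow_const 3))
    split_ifs
    · exact hr
    · exact measurable_const
  have hW : Measurable fun x => Wm l m j k x := by
    unfold Wm
    refine Measurable.add (Measurable.sub (Measurable.sub ((hhf j k).mul (hrc.pow_const 2))
      (((((hgf j).mul (hcj k)).add ((hgf k).mul (hcj j))).const_mul 2).mul (hrc.pow_const 4))) ?_)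
      ((((hff.const_mul 8).mul (hcj j)).mul (hcj k)).mul (hrc.pow_const 6))
    split_ifs
    · exact (hff.const_mul 2).mul (hrc.pow_const 4)
    · exact measurable_const
  have hV : Measurable fun x => Vm l m j k x := by
    unfold Vm
    refine Measurable.add (Measurable.sub (Measurable.sub
      (((((hgf j).const_mul 2).mul (hgf k)).add ((hff.const_mul 2).mul (hhf j k))).mul
        (hrc.pow_const 5))
      (((hff.const_mul 10).mul (((hgf j).mul (hcj k)).add ((hgf k).mul (hcj j)))).mul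
        (hrc.pow_const 7))) ?_)
      (((((hff.pow_const 2).const_mul 35).mul (hcj j)).mul (hcj k)).mul (hrc.pow_const 9))
    split_ifs
    · exact ((hff.pow_const 2).const_mul 5).mul (hrc.pow_const 7)
    · exact measurable_const
  simp only [A, Matrix.of_apply]
  exact (hN.add ((Complex.measurable_re.comp hW).const_mul _)).add
    ((Complex.measurable_re.comp hV).const_mul _)

lemma B_measurable (l m : Fin 4 → ℂ) (I : Finset (Fin 4)) (j k : Fin 4) :
    Measurable fun x => B l m I x j k := by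
  simp only [B, Matrix.of_apply]
  split_ifs
  · exact (A_measurable l m j k).comp (Pr I).continuous.measurable
  · exact measurable_const

/-- hyperplane index set -/
def I3 : Finset (Fin 4) := {1, 2, 3}

/-- plane index set -/
def I2 : Finset (Fin 4) := {0, 2}

def c1h (b : Matrix (Fin 4) (Fin 4) ℝ) : ℝ :=
  b 1 1 * (b 2 2 * b 3 3 - b 2 3 * b 3 2) - b 1 2 * (b 2 1 * b 3 3 - b 2 3 * b 3 1)
    + b 1 3 * (b 2 1 * b 3 2 - b 2 2 * b 3 1)

def c2h (b : Matrix (Fin 4) (Fin 4) ℝ) : ℝ :=
  b 1 1 * b 2 2 - b 1 2 * b 2 1 + (b 1 1 * b 3 3 - b 1 3 * b 3 1)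
    + (b 2 2 * b 3 3 - b 2 3 * b 3 2)

def c3h (b : Matrix (Fin 4) (Fin 4) ℝ) : ℝ := b 1 1 + b 2 2 + b 3 3

lemma det_h (b : Matrix (Fin 4) (Fin 4) ℝ) (h1 : ∀ j, b 0 j = 0) (h2 : ∀ j, b j 0 = 0) (s : ℝ) :
    (s • (1 : Matrix (Fin 4) (Fin 4) ℝ) + b).det =
      s ^ 4 + c3h b * s ^ 3 + c2h b * s ^ 2 + c1h b * s := by
  unfold c1h c2h c3h
  simp [Matrix.det_succ_row_zero, Fin.sum_univ_succ, Fin.succAbove, h1, h2, Matrix.one_apply]
  ring

def c2p (b : Matrix (Fin 4) (Fin 4) ℝ) : ℝ := b 0 0 * b 2 2 - b 0 2 * b 2 0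

def c3p (b : Matrix (Fin 4) (Fin 4) ℝ) : ℝ := b 0 0 + b 2 2

lemma det_p (b : Matrix (Fin 4) (Fin 4) ℝ) (h1 : ∀ j, b 1 j = 0) (h2 : ∀ j, b j 1 = 0)
    (h3 : ∀ j, b 3 j = 0) (h4 : ∀ j, b j 3 = 0) (s : ℝ) :
    (s • (1 : Matrix (Fin 4) (Fin 4) ℝ) + b).det =
      s ^ 4 + c3p b * s ^ 3 + c2p b * s ^ 2 + 0 * s := by
  unfold c2p c3p
  simp [Matrix.det_succ_row_zero, Fin.sum_univ_succ, Fin.succAbove, h1, h2, h3, h4,
    Matrix.one_apply]
  ring

end

end Pool.Agent.Helper98.Body
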