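import Mathlib
import Pool.Agent.Helper98.Body3
import Pool.Agent.Helper98.Alg

open MeasureTheory Set Metric
open scoped Pointwise RealInnerProductSpace

namespace Pool.Agent.Helper98.Body

open Pool.Agent.Helper98.Steiner

noncomputable section

/-- multiply the third form by `-i` -/
def mi (m : Fin 4 → ℂ) : Fin 4 → ℂ := fun j => -Complex.I * m j

lemma Lf_mi (m : Fin 4 → ℂ) (x : E 4) : Lf (mi m) x = -Complex.I * Lf m x := by
  simp only [Lf, mi, Finset.mul_sum]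
  exact Finset.sum_congr rfl fun i _ => by ring

lemma Lf_neg (m : Fin 4 → ℂ) (x : E 4) : Lf m (-x) = - Lf m x := by
  simp only [Lf, PiLp.neg_apply, Complex.ofReal_neg, mul_neg, Finset.sum_neg_distrib]

lemma r_neg (x : E 4) : r (-x) = r x := by simp [r]

lemma Nm_neg (j k : Fin 4) (x : E 4) : Nm j k (-x) = Nm j k x := by
  simp only [Nm, r_neg, PiLp.neg_apply]; ring

lemma Wm_neg (l m : Fin 4 → ℂ) (j k : Fin 4) (x : E 4) : Wm l m j k (-x) = -Wm l m j k x := by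
  simp only [Wm, hf, gf, ff, Lf_neg, r_neg, PiLp.neg_apply, Complex.ofReal_neg]
  split_ifs <;> ring

lemma Vm_neg (l m : Fin 4 → ℂ) (j k : Fin 4) (x : E 4) : Vm l m j k (-x) = Vm l m j k x := by
  simp only [Vm, hf, gf, ff, Lf_neg, r_neg, PiLp.neg_apply, Complex.ofReal_neg]
  split_ifs <;> ring

lemma Wm_mi (l m : Fin 4 → ℂ) (j k : Fin 4) (x : E 4) :
    Wm l (mi m) j k x = -Complex.I * Wm l m j k x := by
  simp only [Wm, hf, gf, ff, Lf_mi]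
  simp only [mi]
  split_ifs <;> ring

lemma Vm_mi (l m : Fin 4 → ℂ) (j k : Fin 4) (x : E 4) :
    Vm l (mi m) j k x = -Vm l m j k x := by
  have hI : Complex.I ^ 2 = -1 := Complex.I_sq
  simp only [Vm, hf, gf, ff, Lf_mi]
  simp only [mi]
  split_ifs
  · linear_combination (((2 * (2 * Lf l x * l j * Lf m x + Lf l x ^ 2 * m j) *
      (2 * Lf l x * l k * Lf m x + Lf l x ^ 2 * m k) + 2 * (Lf l x ^ 2 * Lf m x) *
      (2 * l j * l k * Lf m x + 2 * Lf l x * (l j * m k + l k * m j))) * (r x : ℂ) ^ 5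
    - 10 * (Lf l x ^ 2 * Lf m x) * ((2 * Lf l x * l j * Lf m x + Lf l x ^ 2 * m j) * (x k : ℂ) +
      (2 * Lf l x * l k * Lf m x + Lf l x ^ 2 * m k) * (x j : ℂ)) * (r x : ℂ) ^ 7
    - 5 * (Lf l x ^ 2 * Lf m x) ^ 2 * (r x : ℂ) ^ 7
    + 35 * (Lf l x ^ 2 * Lf m x) ^ 2 * (x j : ℂ) * (x k : ℂ) * (r x : ℂ) ^ 9)) * hI
  · linear_combination (((2 * (2 * Lf l x * l j * Lf m x + Lf l x ^ 2 * m j) *
      (2 * Lf l x * l k * Lf m x + Lf l x ^ 2 * m k) + 2 * (Lf l x ^ 2 * Lf m x) *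
      (2 * l j * l k * Lf m x + 2 * Lf l x * (l j * m k + l k * m j))) * (r x : ℂ) ^ 5
    - 10 * (Lf l x ^ 2 * Lf m x) * ((2 * Lf l x * l j * Lf m x + Lf l x ^ 2 * m j) * (x k : ℂ) +
      (2 * Lf l x * l k * Lf m x + Lf l x ^ 2 * m k) * (x j : ℂ)) * (r x : ℂ) ^ 7
    + 35 * (Lf l x ^ 2 * Lf m x) ^ 2 * (x j : ℂ) * (x k : ℂ) * (r x : ℂ) ^ 9)) * hI

/-- first bilinear expression -/
def Xx (l m : Fin 4 → ℂ) (p : E 4) : ℂ :=
  Wm l m 1 1 p * Wm l m 2 2 p - Wm l m 1 2 p ^ 2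
    + (Wm l m 1 1 p * Wm l m 3 3 p - Wm l m 1 3 p ^ 2)
    + (Wm l m 2 2 p * Wm l m 3 3 p - Wm l m 2 3 p ^ 2)

def Yy (l m : Fin 4 → ℂ) (p : E 4) : ℂ :=
  (Nm 1 1 p : ℂ) * Vm l m 2 2 p + (Nm 2 2 p : ℂ) * Vm l m 1 1 p
      - 2 * (Nm 1 2 p : ℂ) * Vm l m 1 2 p
    + ((Nm 1 1 p : ℂ) * Vm l m 3 3 p + (Nm 3 3 p : ℂ) * Vm l m 1 1 p
      - 2 * (Nm 1 3 p : ℂ) * Vm l m 1 3 p)
    + ((Nm 2 2 p : ℂ) * Vm l m 3 3 p + (Nm 3 3 p : ℂ) * Vm l m 2 2 p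
      - 2 * (Nm 2 3 p : ℂ) * Vm l m 2 3 p)

lemma c2h_B (l m : Fin 4 → ℂ) (x : E 4) :
    c2h (B l m I3 x) = A l m (Pr I3 x) 1 1 * A l m (Pr I3 x) 2 2 - A l m (Pr I3 x) 1 2 ^ 2
      + (A l m (Pr I3 x) 1 1 * A l m (Pr I3 x) 3 3 - A l m (Pr I3 x) 1 3 ^ 2)
      + (A l m (Pr I3 x) 2 2 * A l m (Pr I3 x) 3 3 - A l m (Pr I3 x) 2 3 ^ 2) := by
  have h1 : (1 : Fin 4) ∈ I3 := by decide
  have h2 : (2 : Fin 4) ∈ I3 := by decide
  have h3 : (3 : Fin 4) ∈ I3 := by decide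
  simp only [c2h, B, Matrix.of_apply, h1, h2, h3, and_self, if_true]
  rw [A_symm l m _ 2 1, A_symm l m _ 3 1, A_symm l m _ 3 2]
  ring

lemma symm_id (l m : Fin 4 → ℂ) (x : E 4) :
    c2h (B l m I3 x) + c2h (B l m I3 (-x)) - c2h (B l (mi m) I3 x) - c2h (B l (mi m) I3 (-x)) =
      2 * e ^ 2 * (Xx l m (Pr I3 x) + 2 / 5 * Yy l m (Pr I3 x)).re := by
  simp only [c2h_B, map_neg, A, Matrix.of_apply, Nm_neg, Wm_neg, Vm_neg, Wm_mi, Vm_mi]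
  simp only [Xx, Yy]
  set p := Pr I3 x
  generalize Wm l m 1 1 p = W11
  generalize Wm l m 2 2 p = W22
  generalize Wm l m 3 3 p = W33
  generalize Wm l m 1 2 p = W12
  generalize Wm l m 1 3 p = W13
  generalize Wm l m 2 3 p = W23
  generalize Vm l m 1 1 p = V11
  generalize Vm l m 2 2 p = V22
  generalize Vm l m 3 3 p = V33
  generalize Vm l m 1 2 p = V12
  generalize Vm l m 1 3 p = V13
  generalize Vm l m 2 3 p = V23
  generalize Nm 1 1 p = N11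
  generalize Nm 2 2 p = N22
  generalize Nm 3 3 p = N33
  generalize Nm 1 2 p = N12
  generalize Nm 1 3 p = N13
  generalize Nm 2 3 p = N23
  have h25 : (2 / 5 : ℂ) = ((2 / 5 : ℝ) : ℂ) := by push_cast; ring
  have h2 : (2 : ℂ) = ((2 : ℝ) : ℂ) := by push_cast; ring
  rw [h25, Complex.add_re, Complex.re_ofReal_mul]
  simp only [h2, Complex.add_re, Complex.sub_re, Complex.mul_re, Complex.mul_im, pow_two,
    Complex.ofReal_re, Complex.ofReal_im, Complex.neg_re, Complex.neg_im, Complex.I_re,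
    Complex.I_im]
  ring

lemma holo_id (l m : Fin 4 → ℂ) (hl : l 3 = Complex.I * l 2) (hm : m 3 = Complex.I * m 2)
    {p : E 4} (hp0 : p 0 = 0) (hp : p ≠ 0) :
    Xx l m p + 2 / 5 * Yy l m p = 24 / 5 * (r p : ℂ) ^ 6 * (l 1 * m 2 - m 1 * l 2) ^ 2 *
      ((p 2 : ℂ) + Complex.I * (p 3 : ℂ)) ^ 2 * (Lf l p) ^ 2 := by
  have hI : Complex.I ^ 2 = -1 := Complex.I_sq
  have hL : Lf l p = l 1 * (p 1 : ℂ) + l 2 * ((p 2 : ℂ) + Complex.I * (p 3 : ℂ)) := by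
    simp only [Lf, Fin.sum_univ_four, hp0, hl]; push_cast; ring
  have hM : Lf m p = m 1 * (p 1 : ℂ) + m 2 * ((p 2 : ℂ) + Complex.I * (p 3 : ℂ)) := by
    simp only [Lf, Fin.sum_univ_four, hp0, hm]; push_cast; ring
  have hR : ((p 1 : ℂ) ^ 2 + (p 2 : ℂ) ^ 2 + (p 3 : ℂ) ^ 2) * (r p : ℂ) ^ 2 = 1 := by
    have h1 : (p 1) ^ 2 + (p 2) ^ 2 + (p 3) ^ 2 = ‖p‖ ^ 2 := by
      rw [EuclideanSpace.real_norm_sq_eq, Fin.sum_univ_four, hp0]; ring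
    have h2 : ((p 1) ^ 2 + (p 2) ^ 2 + (p 3) ^ 2) * (r p) ^ 2 = 1 := by
      have : ‖p‖ ≠ 0 := norm_ne_zero_iff.2 hp
      rw [h1]; unfold r; field_simp
    have h3 := congrArg (fun t : ℝ => (t : ℂ)) h2
    simpa only [Complex.ofReal_mul, Complex.ofReal_add, Complex.ofReal_pow,
      Complex.ofReal_one] using h3
  set L := Lf l p with hLd
  set M := Lf m p with hMd
  have eL : L = l 1 * (p 1 : ℂ) + l 2 * (p 2 : ℂ) + l 3 * (p 3 : ℂ) := by rw [hL, hl]; ring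
  have eM : M = m 1 * (p 1 : ℂ) + m 2 * (p 2 : ℂ) + m 3 * (p 3 : ℂ) := by rw [hM, hm]; ring
  have E0 : gf l m 1 p * (p 1 : ℂ) + gf l m 2 p * (p 2 : ℂ) + gf l m 3 p * (p 3 : ℂ)
      = 3 * ff l m p := by
    simp only [gf, ff, ← hLd, ← hMd]
    linear_combination (-(2 * L * M)) * eL - L ^ 2 * eM
  have EE : ∀ j, hf l m j 1 p * (p 1 : ℂ) + hf l m j 2 p * (p 2 : ℂ) + hf l m j 3 p * (p 3 : ℂ)
      = 2 * gf l m j p := by
    intro j
    simp only [gf, hf, ← hLd, ← hMd]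
    linear_combination (-(2 * l j * M + 2 * L * m j)) * eL - (2 * L * l j) * eM
  have hsym : ∀ j k, hf l m j k p = hf l m k j p := by
    intro j k; simp only [hf]; ring
  have E1 := EE 1
  have E2 := EE 2
  have E3 := EE 3
  rw [hsym 2 1] at E2
  rw [hsym 3 1, hsym 3 2] at E3
  have c12 : ¬ ((1 : Fin 4) = 2) := by decide
  have c13 : ¬ ((1 : Fin 4) = 3) := by decide
  have c23 : ¬ ((2 : Fin 4) = 3) := by decide
  have hX := Alg.X_id (p 1) (p 2) (p 3) (r p) (ff l m p) (gf l m 1 p) (gf l m 2 p) (gf l m 3 p)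
    (hf l m 1 1 p) (hf l m 1 2 p) (hf l m 1 3 p) (hf l m 2 2 p) (hf l m 2 3 p) (hf l m 3 3 p)
    E0 E1 E2 E3 hR (Wm l m 1 1 p) (Wm l m 1 2 p) (Wm l m 1 3 p) (Wm l m 2 2 p) (Wm l m 2 3 p)
    (Wm l m 3 3 p) (by simp only [Wm, if_true]) (by simp only [Wm, if_true])
    (by simp only [Wm, if_true]) (by simp only [Wm, if_neg c12]; ring)
    (by simp only [Wm, if_neg c13]; ring) (by simp only [Wm, if_neg c23]; ring)
  have hY := Alg.Y_id (p 1) (p 2) (p 3) (r p) (ff l m p) (gf l m 1 p) (gf l m 2 p) (gf l m 3 p)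
    (hf l m 1 1 p) (hf l m 1 2 p) (hf l m 1 3 p) (hf l m 2 2 p) (hf l m 2 3 p) (hf l m 3 3 p)
    E0 E1 E2 E3 hR (Vm l m 1 1 p) (Vm l m 1 2 p) (Vm l m 1 3 p) (Vm l m 2 2 p) (Vm l m 2 3 p)
    (Vm l m 3 3 p) (Nm 1 1 p) (Nm 1 2 p) (Nm 1 3 p) (Nm 2 2 p) (Nm 2 3 p) (Nm 3 3 p)
    (by simp only [Nm, if_true]; push_cast; ring) (by simp only [Nm, if_true]; push_cast; ring)
    (by simp only [Nm, if_true]; push_cast; ring)
    (by simp only [Nm, if_neg c12]; push_cast; ring)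
    (by simp only [Nm, if_neg c13]; push_cast; ring)
    (by simp only [Nm, if_neg c23]; push_cast; ring)
    (by simp only [Vm, if_true]) (by simp only [Vm, if_true]) (by simp only [Vm, if_true])
    (by simp only [Vm, if_neg c12]; ring) (by simp only [Vm, if_neg c13]; ring)
    (by simp only [Vm, if_neg c23]; ring)
  unfold Xx Yy
  rw [hX, hY]
  -- the remaining identity uses the holomorphic structure
  have hg : gf l m 1 p ^ 2 + gf l m 2 p ^ 2 + gf l m 3 p ^ 2 =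
      (2 * L * l 1 * M + L ^ 2 * m 1) ^ 2 := by
    simp only [gf, ← hLd, ← hMd, hl, hm]
    linear_combination (2 * L * l 2 * M + L ^ 2 * m 2) ^ 2 * hI
  have hh : hf l m 1 1 p + hf l m 2 2 p + hf l m 3 3 p =
      2 * l 1 ^ 2 * M + 4 * L * l 1 * m 1 := by
    simp only [hf, ← hLd, ← hMd, hl, hm]
    linear_combination (2 * l 2 ^ 2 * M + 4 * L * l 2 * m 2) * hI
  have hs : hf l m 1 1 p * hf l m 2 2 p - hf l m 1 2 p ^ 2 +
      (hf l m 1 1 p * hf l m 3 3 p - hf l m 1 3 p ^ 2) +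
      (hf l m 2 2 p * hf l m 3 3 p - hf l m 2 3 p ^ 2) = 0 := by
    simp only [hf, ← hLd, ← hMd, hl, hm]
    linear_combination ((2 * l 1 ^ 2 * M + 4 * L * l 1 * m 1) * (2 * l 2 ^ 2 * M + 4 * L * l 2 * m 2)
      - (2 * l 1 * l 2 * M + 2 * L * (l 1 * m 2 + l 2 * m 1)) ^ 2) * hI
  rw [hg, hh, hs]
  have hc : l 1 * M - m 1 * L = (l 1 * m 2 - m 1 * l 2) *
      ((p 2 : ℂ) + Complex.I * (p 3 : ℂ)) := by
    rw [hL, hM]; ring
  have hfin : 24 / 5 * (r p : ℂ) ^ 6 * (l 1 * m 2 - m 1 * l 2) ^ 2 *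
      ((p 2 : ℂ) + Complex.I * (p 3 : ℂ)) ^ 2 * L ^ 2 =
      24 / 5 * (r p : ℂ) ^ 6 * (l 1 * M - m 1 * L) ^ 2 * L ^ 2 := by
    rw [hc]; ring
  rw [hfin]
  simp only [ff, ← hLd, ← hMd]
  ring

end

end Pool.Agent.Helper98.Body
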