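import Mathlib
import Pool.Agent.Helper98.Hyper

open MeasureTheory Set Metric
open scoped Pointwise RealInnerProductSpace

namespace Pool.Agent.Helper98.Body

open Pool.Agent.Helper98.Steiner

noncomputable section

def mkIso (f : E 4 →ₗ[ℝ] E 4) (h : ∀ x, ‖f x‖ = ‖x‖) : E 4 ≃ₗᵢ[ℝ] E 4 :=
  (LinearIsometry.mk f h).toLinearIsometryEquiv rfl

lemma mkIso_apply (f : E 4 →ₗ[ℝ] E 4) (h : ∀ x, ‖f x‖ = ‖x‖) (x : E 4) : mkIso f h x = f x := rfl

lemma norm_sq4 (x : E 4) : ‖x‖ ^ 2 = x 0 ^ 2 + x 1 ^ 2 + x 2 ^ 2 + x 3 ^ 2 := by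
  rw [EuclideanSpace.real_norm_sq_eq, Fin.sum_univ_four]

lemma norm_eq_of_sq {x y : E 4} (h : ‖x‖ ^ 2 = ‖y‖ ^ 2) : ‖x‖ = ‖y‖ := by
  have h1 := norm_nonneg x
  have h2 := norm_nonneg y
  nlinarith [sq_nonneg (‖x‖ - ‖y‖), sq_nonneg (‖x‖ + ‖y‖)]

lemma lin_coord (M : Matrix (Fin 4) (Fin 4) ℝ) (x : E 4) (j : Fin 4) :
    (Matrix.toEuclideanLin M x) j = M j 0 * x 0 + M j 1 * x 1 + M j 2 * x 2 + M j 3 * x 3 := by
  simp [Matrix.mulVec, dotProduct, Fin.sum_univ_four]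

def rotM (ω : ℂ) : Matrix (Fin 4) (Fin 4) ℝ :=
  !![1, 0, 0, 0; 0, 1, 0, 0; 0, 0, ω.re, -ω.im; 0, 0, ω.im, ω.re]

lemma rotM_norm {ω : ℂ} (h : ω.re ^ 2 + ω.im ^ 2 = 1) (x : E 4) :
    ‖Matrix.toEuclideanLin (rotM ω) x‖ = ‖x‖ := by
  apply norm_eq_of_sq
  rw [norm_sq4, norm_sq4]
  simp only [lin_coord]
  simp [rotM]
  linear_combination (x 2 ^ 2 + x 3 ^ 2) * h

def rot (ω : ℂ) (h : ω.re ^ 2 + ω.im ^ 2 = 1) : E 4 ≃ₗᵢ[ℝ] E 4 :=
  mkIso (Matrix.toEuclideanLin (rotM ω)) (rotM_norm h)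

lemma rot_0 (ω : ℂ) (h : ω.re ^ 2 + ω.im ^ 2 = 1) (x : E 4) : rot ω h x 0 = x 0 := by
  rw [rot, mkIso_apply, lin_coord]; simp [rotM]
lemma rot_1 (ω : ℂ) (h : ω.re ^ 2 + ω.im ^ 2 = 1) (x : E 4) : rot ω h x 1 = x 1 := by
  rw [rot, mkIso_apply, lin_coord]; simp [rotM]
lemma rot_2 (ω : ℂ) (h : ω.re ^ 2 + ω.im ^ 2 = 1) (x : E 4) :
    rot ω h x 2 = ω.re * x 2 - ω.im * x 3 := by
  rw [rot, mkIso_apply, lin_coord]; simp [rotM]; ring
lemma rot_3 (ω : ℂ) (h : ω.re ^ 2 + ω.im ^ 2 = 1) (x : E 4) :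
    rot ω h x 3 = ω.im * x 2 + ω.re * x 3 := by
  rw [rot, mkIso_apply, lin_coord]; simp [rotM]

lemma Pr3_coord (x : E 4) : Pr I3 x 0 = 0 ∧ Pr I3 x 1 = x 1 ∧ Pr I3 x 2 = x 2 ∧ Pr I3 x 3 = x 3 := by
  refine ⟨?_, ?_, ?_, ?_⟩ <;> rw [Pr_apply] <;> simp [I3]

lemma rot_Pr (ω : ℂ) (h : ω.re ^ 2 + ω.im ^ 2 = 1) (x : E 4) :
    Pr I3 (rot ω h x) = rot ω h (Pr I3 x) := by
  obtain ⟨a0, a1, a2, a3⟩ := Pr3_coord x
  obtain ⟨b0, b1, b2, b3⟩ := Pr3_coord (rot ω h x)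
  ext j
  fin_cases j
  · show Pr I3 (rot ω h x) 0 = rot ω h (Pr I3 x) 0
    rw [b0, rot_0, a0]
  · show Pr I3 (rot ω h x) 1 = rot ω h (Pr I3 x) 1
    rw [b1, rot_1, rot_1, a1]
  · show Pr I3 (rot ω h x) 2 = rot ω h (Pr I3 x) 2
    rw [b2, rot_2, rot_2, a2, a3]
  · show Pr I3 (rot ω h x) 3 = rot ω h (Pr I3 x) 3
    rw [b3, rot_3, rot_3, a2, a3]

lemma D_inv (P : E 4 →L[ℝ] E 4) (T : E 4 ≃ₗᵢ[ℝ] E 4) (h : ∀ x, P (T x) = T (P x)) :
    T ⁻¹' (D P) = D P := by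
  ext x
  simp only [D, mem_preimage, Set.mem_ofPred_eq, h, LinearIsometryEquiv.norm_map, ne_eq,
    map_eq_zero_iff T T.injective]

lemma int_comp (T : E 4 ≃ₗᵢ[ℝ] E 4) {S : Set (E 4)} (hS : T ⁻¹' S = S) (F : E 4 → ℝ) :
    ∫ x in S, F (T x) = ∫ x in S, F x := by
  have h1 : MeasurePreserving T volume volume := T.measurePreserving
  have h2 : MeasurableEmbedding T := T.toHomeomorph.measurableEmbedding
  have h3 := h1.setIntegral_preimage_emb h2 F S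
  rwa [hS] at h3

lemma intble_comp (T : E 4 ≃ₗᵢ[ℝ] E 4) {S : Set (E 4)} (hS : T ⁻¹' S = S) {F : E 4 → ℝ}
    (hF : IntegrableOn F S) : IntegrableOn (fun x => F (T x)) S := by
  have h1 : MeasurePreserving T volume volume := T.measurePreserving
  have h2 : MeasurableEmbedding T := T.toHomeomorph.measurableEmbedding
  have h3 := (h1.integrableOn_comp_preimage h2 (f := F) (s := S)).2 hF
  rwa [hS] at h3

def zz (x : E 4) : ℂ := (x 2 : ℂ) + Complex.I * (x 3 : ℂ)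

lemma zz_rot (ω : ℂ) (h : ω.re ^ 2 + ω.im ^ 2 = 1) (x : E 4) : zz (rot ω h x) = ω * zz x := by
  unfold zz
  rw [rot_2, rot_3]
  apply Complex.ext
  · simp
  · simp; ring

lemma r_rot (T : E 4 ≃ₗᵢ[ℝ] E 4) (x : E 4) : r (T x) = r x := by
  simp [r]

/-- averaged integrand -/
def RR (κ a b : ℂ) (x : E 4) : ℝ :=
  (κ * zz x ^ 2 * (a * (x 1 : ℂ) + b * zz x) ^ 2).re * r (Pr I3 x) ^ 6

lemma RR_zero (κ a b : ℂ) (hint : IntegrableOn (RR κ a b) (D (Pr I3))) :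
    ∫ x in D (Pr I3), RR κ a b x = 0 := by
  have w1 : (-1 : ℂ).re ^ 2 + (-1 : ℂ).im ^ 2 = 1 := by simp
  have w2 : (Complex.I : ℂ).re ^ 2 + (Complex.I : ℂ).im ^ 2 = 1 := by simp
  set ω : ℂ := ⟨Real.sqrt 2 / 2, Real.sqrt 2 / 2⟩ with hω
  have s2 : Real.sqrt 2 ^ 2 = 2 := Real.sq_sqrt (by norm_num)
  have w3 : ω.re ^ 2 + ω.im ^ 2 = 1 := by
    simp only [hω]; nlinarith
  have hω2 : ω ^ 2 = Complex.I := by
    apply Complex.ext
    · simp only [hω, pow_two, Complex.mul_re, Complex.I_re]; ring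
    · simp only [hω, pow_two, Complex.mul_im, Complex.I_im]; nlinarith
  have hI : Complex.I ^ 2 = -1 := Complex.I_sq
  have hω4 : ω ^ 4 = -1 := by
    rw [show ω ^ 4 = (ω ^ 2) ^ 2 by ring, hω2, hI]
  -- intermediate integrands
  let F1 : E 4 → ℝ := fun x =>
    (κ * zz x ^ 2 * (a ^ 2 * (x 1 : ℂ) ^ 2 + b ^ 2 * zz x ^ 2)).re * r (Pr I3 x) ^ 6
  let F2 : E 4 → ℝ := fun x => (κ * b ^ 2 * zz x ^ 4).re * r (Pr I3 x) ^ 6
  have inv1 := D_inv (Pr I3) (rot (-1) w1) (rot_Pr _ w1)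
  have inv2 := D_inv (Pr I3) (rot Complex.I w2) (rot_Pr _ w2)
  have inv3 := D_inv (Pr I3) (rot ω w3) (rot_Pr _ w3)
  have e1 : ∀ x, F1 x = (1 / 2) * (RR κ a b x + RR κ a b (rot (-1) w1 x)) := by
    intro x
    simp only [F1, RR]
    rw [zz_rot, rot_Pr, r_rot, rot_1, ← add_mul, ← Complex.add_re, ← mul_assoc]
    congr 1
    rw [← Complex.re_ofReal_mul]
    congr 1
    push_cast
    ring
  have i1 : IntegrableOn F1 (D (Pr I3)) := by
    have := (hint.add (intble_comp _ inv1 hint)).const_mul (1 / 2)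
    refine this.congr (Filter.Eventually.of_forall fun x => ?_)
    exact (e1 x).symm
  have r1 : ∫ x in D (Pr I3), F1 x = ∫ x in D (Pr I3), RR κ a b x := by
    rw [integral_congr_ae (Filter.Eventually.of_forall e1), integral_const_mul,
      integral_add hint (intble_comp _ inv1 hint), int_comp _ inv1]
    ring
  have e2 : ∀ x, F2 x = (1 / 2) * (F1 x + F1 (rot Complex.I w2 x)) := by
    intro x
    simp only [F1, F2]
    rw [zz_rot, rot_Pr, r_rot, rot_1, ← add_mul, ← Complex.add_re, ← mul_assoc]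
    congr 1
    rw [← Complex.re_ofReal_mul]
    congr 1
    push_cast
    have hI4 : Complex.I ^ 4 = 1 := by rw [show Complex.I ^ 4 = (Complex.I ^ 2) ^ 2 by ring, hI]; ring
    linear_combination (-(1 / 2) * κ * zz x ^ 2 * (a ^ 2 * (x 1 : ℂ) ^ 2)) * hI
      - (1 / 2) * κ * b ^ 2 * zz x ^ 4 * hI4
  have i2 : IntegrableOn F2 (D (Pr I3)) := by
    have := (i1.add (intble_comp _ inv2 i1)).const_mul (1 / 2)
    refine this.congr (Filter.Eventually.of_forall fun x => ?_)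
    exact (e2 x).symm
  have r2 : ∫ x in D (Pr I3), F2 x = ∫ x in D (Pr I3), F1 x := by
    rw [integral_congr_ae (Filter.Eventually.of_forall e2), integral_const_mul,
      integral_add i1 (intble_comp _ inv2 i1), int_comp _ inv2]
    ring
  have e3 : ∀ x, F2 (rot ω w3 x) = - F2 x := by
    intro x
    simp only [F2]
    rw [zz_rot, rot_Pr, r_rot, mul_pow, hω4, ← neg_mul, ← Complex.neg_re]
    congr 2
    ring
  have r3 : ∫ x in D (Pr I3), F2 x = - ∫ x in D (Pr I3), F2 x := by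
    conv_lhs => rw [← int_comp _ inv3 F2]
    rw [integral_congr_ae (Filter.Eventually.of_forall e3), integral_neg]
  rw [← r1, ← r2]
  linarith

/-- the coefficient of the hyperplane projections agrees for the two bodies -/
lemma hyper_eq (l m : Fin 4 → ℂ) (hl : l 3 = Complex.I * l 2) (hm : m 3 = Complex.I * m 2)
    (i1 : IntegrableOn (fun x => c2h (B l m I3 x)) (D (Pr I3)))
    (i2 : IntegrableOn (fun x => c2h (B l (mi m) I3 x)) (D (Pr I3))) :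
    ∫ x in D (Pr I3), c2h (B l m I3 x) = ∫ x in D (Pr I3), c2h (B l (mi m) I3 x) := by
  set κ : ℂ := 24 / 5 * (l 1 * m 2 - m 1 * l 2) ^ 2 with hκ
  set Z : E 4 → ℝ := fun x => c2h (B l m I3 x) - c2h (B l (mi m) I3 x) with hZ
  have iZ : IntegrableOn Z (D (Pr I3)) := i1.sub i2
  let T : E 4 ≃ₗᵢ[ℝ] E 4 := LinearIsometryEquiv.neg ℝ
  have hT : ∀ x, T x = -x := fun x => rfl
  have invT : T ⁻¹' (D (Pr I3)) = D (Pr I3) := D_inv _ T (fun x => by
    rw [hT, hT, map_neg])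
  have hpt : ∀ x ∈ D (Pr I3), RR κ (l 1) (l 2) x = (2 * e ^ 2)⁻¹ * (Z x + Z (T x)) := by
    intro x hx
    have h1 := symm_id l m x
    obtain ⟨a0, a1, a2, a3⟩ := Pr3_coord x
    have h2 := holo_id l m hl hm (p := Pr I3 x) a0 hx.1
    rw [h2] at h1
    have h3 : Z x + Z (T x) = 2 * e ^ 2 * (24 / 5 * (r (Pr I3 x) : ℂ) ^ 6 *
        (l 1 * m 2 - m 1 * l 2) ^ 2 * ((Pr I3 x 2 : ℂ) + Complex.I * (Pr I3 x 3 : ℂ)) ^ 2 *
        Lf l (Pr I3 x) ^ 2).re := by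
      rw [← h1]; simp only [hZ, hT]; ring
    rw [h3, ← mul_assoc, inv_mul_cancel₀ (by unfold e; norm_num), one_mul]
    have hL : Lf l (Pr I3 x) = l 1 * (x 1 : ℂ) + l 2 * zz x := by
      simp only [Lf, Fin.sum_univ_four, a0, a1, a2, a3, hl, zz]; push_cast; ring
    rw [hL, a2, a3]
    unfold RR
    rw [← Complex.re_mul_ofReal]
    congr 1
    rw [hκ]
    unfold zz
    push_cast
    ring
  have iR : IntegrableOn (RR κ (l 1) (l 2)) (D (Pr I3)) := by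
    have := (iZ.add (intble_comp T invT iZ)).const_mul ((2 * e ^ 2)⁻¹)
    refine this.congr ?_
    rw [Filter.EventuallyEq, ae_restrict_iff' (measurableSet_D _)]
    exact Filter.Eventually.of_forall fun x hx => (hpt x hx).symm
  have h0 := RR_zero κ (l 1) (l 2) iR
  have h1 : ∫ x in D (Pr I3), RR κ (l 1) (l 2) x = (2 * e ^ 2)⁻¹ * (2 * ∫ x in D (Pr I3), Z x) := by
    rw [setIntegral_congr_fun (measurableSet_D _) hpt, integral_const_mul,
      integral_add iZ (intble_comp T invT iZ), int_comp T invT]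
    ring
  rw [h0] at h1
  have h2 : ∫ x in D (Pr I3), Z x = 0 := by
    have : (2 * e ^ 2)⁻¹ ≠ 0 := by unfold e; norm_num
    rcases mul_eq_zero.1 h1.symm with h | h
    · exact absurd h this
    · linarith
  rw [hZ, integral_sub i1 i2] at h2
  linarith

end

end Pool.Agent.Helper98.Body
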