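import Mathlib
import Pool.Agent.Helper98.Avg

open MeasureTheory Set Metric
open scoped Pointwise RealInnerProductSpace

namespace Pool.Agent.Helper98.Body

open Pool.Agent.Helper98.Steiner

noncomputable section

/-- cylinder domain -/
def Dc (P : E 4 →L[ℝ] E 4) : Set (E 4) := {x | P x ≠ 0 ∧ ‖P x‖ ≤ 1 ∧ ‖x - P x‖ ≤ 1}

def Phi (l m : Fin 4 → ℂ) (P : E 4 →L[ℝ] E 4) (x : E 4) : E 4 :=
  ‖P x‖ • P (G l m (P x)) + (x - P x)

lemma H_pos {l m : Fin 4 → ℂ} (h : Adm l m) {x : E 4} (hx : x ≠ 0) : 0 < H l m x := by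
  have nx : 0 < ‖x‖ := norm_pos_iff.2 hx
  have hf : ‖ff l m x‖ ≤ ‖x‖ ^ 3 := by
    unfold ff
    rw [norm_mul, norm_pow]
    have h1 := h.hl x
    have h2 := h.hm x
    calc ‖Lf l x‖ ^ 2 * ‖Lf m x‖ ≤ ‖x‖ ^ 2 * ‖x‖ := by gcongr
      _ = ‖x‖ ^ 3 := by ring
  have h1 : -‖x‖ ≤ (ff l m x).re * r x ^ 2 := by
    have h3 : -(‖x‖ ^ 3) ≤ (ff l m x).re :=
      (abs_le.1 ((Complex.abs_re_le_norm _).trans hf)).1
    have h4 : 0 ≤ r x ^ 2 := by positivity
    calc -‖x‖ = -(‖x‖ ^ 3) * r x ^ 2 := by unfold r; field_simp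
      _ ≤ (ff l m x).re * r x ^ 2 := mul_le_mul_of_nonneg_right h3 h4
  have h2 : -‖x‖ ≤ (ff l m x ^ 2).re * r x ^ 5 := by
    have h3 : -(‖x‖ ^ 6) ≤ (ff l m x ^ 2).re := by
      refine (abs_le.1 ((Complex.abs_re_le_norm _).trans ?_)).1
      rw [norm_pow]
      calc ‖ff l m x‖ ^ 2 ≤ (‖x‖ ^ 3) ^ 2 := by gcongr
        _ = ‖x‖ ^ 6 := by ring
    have h4 : 0 ≤ r x ^ 5 := by unfold r; positivity
    calc -‖x‖ = -(‖x‖ ^ 6) * r x ^ 5 := by unfold r; field_simp
      _ ≤ (ff l m x ^ 2).re * r x ^ 5 := mul_le_mul_of_nonneg_right h3 h4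
  unfold H e
  linarith

lemma H_nonneg {l m : Fin 4 → ℂ} (h : Adm l m) (x : E 4) : 0 ≤ H l m x := by
  by_cases hx : x = 0
  · subst hx; rw [H_zero]
  · exact (H_pos h hx).le

lemma smul_mem_K {l m : Fin 4 → ℂ} (h : Adm l m) {y : E 4} (hy : y ∈ K (H l m)) {t : ℝ}
    (h0 : 0 ≤ t) (h1 : t ≤ 1) : t • y ∈ K (H l m) := by
  intro z
  rw [inner_smul_left]
  simp only [conj_trivial]
  have h2 := hy z
  have h3 := H_nonneg h z
  calc t * ⟪y, z⟫ ≤ t * H l m z := mul_le_mul_of_nonneg_left h2 h0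
    _ ≤ 1 * H l m z := mul_le_mul_of_nonneg_right h1 h3
    _ = H l m z := one_mul _

lemma Phi_image {l m : Fin 4 → ℂ} (h : Adm l m) {P : E 4 →L[ℝ] E 4} (hP : IsProj P) :
    Phi l m P '' (Dc P) = C P (P '' (K (H l m))) 1 \ {y | P y = 0} := by
  have hs := supp h
  ext y
  constructor
  · rintro ⟨x, ⟨hx0, hx1, hx2⟩, rfl⟩
    have hPP : P (Phi l m P x) = ‖P x‖ • P (G l m (P x)) := by
      unfold Phi
      rw [map_add, map_smul, map_sub, hP.idem, hP.idem, sub_self, add_zero]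
    refine ⟨⟨?_, ?_⟩, ?_⟩
    · rw [hPP]
      refine ⟨‖P x‖ • G l m (P x), smul_mem_K h (mem_K h hx0) (norm_nonneg _) hx1, ?_⟩
      rw [map_smul]
    · rw [hPP]
      unfold Phi
      rw [add_sub_cancel_left]
      exact hx2
    · simp only [Set.mem_ofPred_eq, hPP]
      intro h0
      have h1 : ⟪‖P x‖ • P (G l m (P x)), P x⟫ = ‖P x‖ * H l m (P x) := by
        rw [inner_smul_left, hP.symm, hP.idem, touch l m hx0]
        simp
      rw [h0, inner_zero_left] at h1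
      have h2 : 0 < ‖P x‖ * H l m (P x) := mul_pos (norm_pos_iff.2 hx0) (H_pos h hx0)
      linarith
  · rintro ⟨⟨⟨k, hk, hky⟩, h2⟩, h3⟩
    simp only [Set.mem_ofPred_eq] at h3
    -- maximise the ratio on the unit sphere of the range
    set S : Set (E 4) := {v | P v = v ∧ ‖v‖ = 1} with hS
    have hScomp : IsCompact S := by
      have : S = {v | P v = v} ∩ sphere 0 1 := by
        ext v; simp [hS]
      rw [this]
      exact (isCompact_sphere _ _).inter_left (isClosed_eq P.continuous continuous_id)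
    have hSne : (‖P y‖⁻¹ • P y) ∈ S := by
      refine ⟨by rw [map_smul, hP.idem], ?_⟩
      rw [norm_smul, norm_inv, norm_norm, inv_mul_cancel₀ (norm_ne_zero_iff.2 h3)]
    have hne : ∀ v ∈ S, v ≠ 0 := by
      rintro v ⟨-, hv⟩ h0
      rw [h0, norm_zero] at hv
      exact zero_ne_one hv
    have hcont : ContinuousOn (fun v => ⟪P y, v⟫ / H l m v) S := by
      refine ContinuousOn.div (by fun_prop) ?_ fun v hv => (H_pos h (hne v hv)).ne'
      exact fun v hv => (differentiableAt_H l m (hne v hv)).continuousAt.continuousWithinAt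
    obtain ⟨v0, hv0, hmax⟩ := hScomp.exists_isMaxOn ⟨_, hSne⟩ hcont
    set t := ⟪P y, v0⟫ / H l m v0 with ht
    have hv0ne := hne v0 hv0
    have hH0 := H_pos h hv0ne
    have htpos : 0 < t := by
      have h4 : ⟪P y, ‖P y‖⁻¹ • P y⟫ / H l m (‖P y‖⁻¹ • P y) ≤ t := hmax hSne
      refine lt_of_lt_of_le (div_pos ?_ (H_pos h (hne _ hSne))) h4
      rw [inner_smul_right, real_inner_self_eq_norm_sq]
      have := norm_pos_iff.2 h3
      positivity
    have htle : t ≤ 1 := by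
      rw [ht, div_le_one hH0]
      have h4 := hk v0
      rwa [← hv0.1, ← hP.symm, hky, hv0.1] at h4
    have hineq : ∀ v, P v = v → ⟪P y, v⟫ ≤ t * H l m v := by
      intro v hv
      by_cases hv0 : v = 0
      · rw [hv0, inner_zero_right, H_zero, mul_zero]
      · have hvn : 0 < ‖v‖ := norm_pos_iff.2 hv0
        have hvS : ‖v‖⁻¹ • v ∈ S := by
          refine ⟨by rw [map_smul, hv], ?_⟩
          rw [norm_smul, norm_inv, norm_norm, inv_mul_cancel₀ hvn.ne']
        have h4 : ⟪P y, ‖v‖⁻¹ • v⟫ / H l m (‖v‖⁻¹ • v) ≤ t := hmax hvS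
        rw [div_le_iff₀ (H_pos h (hne _ hvS)), H_smul l m (inv_pos.2 hvn), inner_smul_right] at h4
        have h5 : ‖v‖⁻¹ * ⟪P y, v⟫ ≤ ‖v‖⁻¹ * (t * H l m v) := by linarith
        exact le_of_mul_le_mul_left h5 (inv_pos.2 hvn)
    have heq : ⟪P y, v0⟫ = t * H l m v0 := by
      rw [ht]; field_simp
    -- gradient comparison
    have hgrad := grad_eq hv0ne (mem_K h hv0ne) (touch l m hv0ne)
    have hw : ∀ w, P w = w → ⟪P y, w⟫ = t * ⟪G l m v0, w⟫ := by
      intro w hw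
      have hmin : IsLocalMin (fun s : ℝ => t * H l m (v0 + s • w) - ⟪P y, v0 + s • w⟫) 0 := by
        refine Filter.Eventually.of_forall fun s => ?_
        simp only [zero_smul, add_zero]
        have h4 := hineq (v0 + s • w) (by rw [map_add, map_smul, hw, hv0.1])
        linarith
      have hd1 : HasDerivAt (fun s : ℝ => v0 + s • w) w 0 := by
        simpa using ((hasDerivAt_id (0:ℝ)).smul_const w).const_add v0
      have hd2 : HasDerivAt (fun s : ℝ => H l m (v0 + s • w)) (fderiv ℝ (H l m) v0 w) 0 := by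
        have h5 : HasFDerivAt (H l m) (fderiv ℝ (H l m) v0) (v0 + (0:ℝ) • w) := by
          rw [zero_smul, add_zero]
          exact (differentiableAt_H l m hv0ne).hasFDerivAt
        exact h5.comp_hasDerivAt (0:ℝ) hd1
      have hd3 : HasDerivAt (fun s : ℝ => ⟪P y, v0 + s • w⟫) ⟪P y, w⟫ 0 := by
        have := (hasDerivAt_const (0:ℝ) (P y)).inner ℝ hd1
        simpa using this
      have h6 := hmin.hasDerivAt_eq_zero ((hd2.const_mul t).sub hd3)
      rw [hgrad] at h6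
      simp only [innerSL_apply_apply] at h6
      linarith
    have hPy : P y = t • P (G l m v0) := by
      have h7 : P y - t • P (G l m v0) = 0 := by
        set w := P y - t • P (G l m v0) with hwdef
        have h8 : P w = w := by
          rw [hwdef, map_sub, map_smul, hP.idem, hP.idem]
        have h9 := hw w h8
        have h10 : ⟪w, w⟫ = 0 := by
          have h11 : ⟪w, w⟫ = ⟪P y - t • P (G l m v0), w⟫ := rfl
          rw [h11, inner_sub_left, inner_smul_left, h9, hP.symm, h8]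
          simp
        exact inner_self_eq_zero.1 h10
      exact sub_eq_zero.1 h7
    have hPx : P (t • v0 + (y - P y)) = t • v0 := by
      rw [map_add, map_smul, hv0.1, map_sub, hP.idem, sub_self, add_zero]
    have hnx : ‖t • v0‖ = t := by
      rw [norm_smul, hv0.2, mul_one, Real.norm_of_nonneg htpos.le]
    refine ⟨t • v0 + (y - P y), ⟨?_, ?_, ?_⟩, ?_⟩
    · rw [hPx]
      exact smul_ne_zero htpos.ne' hv0ne
    · rw [hPx, hnx]; exact htle
    · rw [hPx, add_sub_cancel_left]; exact h2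
    · unfold Phi
      rw [hPx, hnx, G_smul l m htpos, add_sub_cancel_left, ← hPy]
      abel

lemma Phi_inj {l m : Fin 4 → ℂ} (h : Adm l m) {P : E 4 →L[ℝ] E 4} (hP : IsProj P) :
    InjOn (Phi l m P) (Dc P) := by
  rintro x ⟨hx0, -, -⟩ y ⟨hy0, -, -⟩ hxy
  have hPx : ∀ z, P (Phi l m P z) = ‖P z‖ • P (G l m (P z)) := by
    intro z
    unfold Phi
    rw [map_add, map_smul, map_sub, hP.idem, hP.idem, sub_self, add_zero]
  have h1 : ‖P x‖ • P (G l m (P x)) = ‖P y‖ • P (G l m (P y)) := by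
    rw [← hPx, ← hPx, hxy]
  have h2 : x - P x = y - P y := by
    unfold Phi at hxy
    rw [h1] at hxy
    exact add_left_cancel hxy
  have key2 : ∀ a b : E 4, P a ≠ 0 → P b ≠ 0 →
      ‖P a‖ • P (G l m (P a)) = ‖P b‖ • P (G l m (P b)) → ‖P a‖ ≤ ‖P b‖ := by
    intro a b ha hb hab
    have h3 : ⟪‖P a‖ • P (G l m (P a)), P a⟫ = ‖P a‖ * H l m (P a) := by
      rw [inner_smul_left, hP.symm, hP.idem, touch l m ha]; simp
    have h4 : ⟪‖P b‖ • P (G l m (P b)), P a⟫ ≤ ‖P b‖ * H l m (P a) := by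
      rw [inner_smul_left, hP.symm, hP.idem]
      simp only [conj_trivial]
      exact mul_le_mul_of_nonneg_left (mem_K h hb (P a)) (norm_nonneg _)
    rw [← hab, h3] at h4
    exact le_of_mul_le_mul_right h4 (H_pos h ha)
  have hn : ‖P x‖ = ‖P y‖ := le_antisymm (key2 x y hx0 hy0 h1) (key2 y x hy0 hx0 h1.symm)
  have hnp : 0 < ‖P x‖ := norm_pos_iff.2 hx0
  have hG : P (G l m (P x)) = P (G l m (P y)) := by
    rw [← hn] at h1
    exact smul_right_injective _ hnp.ne' h1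
  have h5 : ⟪G l m (P x), P y⟫ = H l m (P y) := by
    rw [← hP.symm, hG, hP.symm, touch l m hy0]
  have h6 := key' h hx0 hy0
  rw [h5, sub_self] at h6
  have hnq : 0 < ‖P y‖ := norm_pos_iff.2 hy0
  have h7 : ‖‖P y‖⁻¹ • P y - ‖P x‖⁻¹ • P x‖ ^ 2 ≤ 0 := by
    by_contra hc
    push Not at hc
    have := mul_pos hc hnq
    linarith
  have h8 : ‖P y‖⁻¹ • P y - ‖P x‖⁻¹ • P x = 0 := by
    have := sq_nonneg ‖‖P y‖⁻¹ • P y - ‖P x‖⁻¹ • P x‖
    exact norm_eq_zero.1 (pow_eq_zero_iff (two_ne_zero) |>.1 (le_antisymm h7 this))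
  rw [hn, ← smul_sub] at h8
  have h9 : P y - P x = 0 := by
    rcases smul_eq_zero.1 h8 with h | h
    · exact absurd h (inv_ne_zero hnq.ne')
    · exact h
  have h10 : P y = P x := sub_eq_zero.1 h9
  rw [h10] at h2
  exact sub_left_injective h2

/-- derivative matrix of `Phi` -/
def M (l m : Fin 4 → ℂ) (I : Finset (Fin 4)) (x : E 4) : Matrix (Fin 4) (Fin 4) ℝ :=
  Matrix.of fun j k => if j ∈ I ∧ k ∈ I then
    G l m (Pr I x) j * (Pr I x k * r (Pr I x)) + ‖Pr I x‖ * A l m (Pr I x) j k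
    else if j = k then 1 else 0

lemma hasFDerivAt_Phi (l m : Fin 4 → ℂ) (I : Finset (Fin 4)) {x : E 4} (hx : Pr I x ≠ 0) :
    HasFDerivAt (Phi l m (Pr I)) (Matrix.toEuclideanCLM (n := Fin 4) (𝕜 := ℝ) (M l m I x)) x := by
  have hn : HasFDerivAt (fun y : E 4 => ‖y‖) (r (Pr I x) • innerSL ℝ (Pr I x)) (Pr I x) := by
    have h1 : HasFDerivAt (fun x : E 4 => ‖x‖ ^ 2) (2 • innerSL ℝ (Pr I x)) (Pr I x) :=
      (hasStrictFDerivAt_norm_sq _).hasFDerivAt
    have hn : 0 < ‖Pr I x‖ := norm_pos_iff.2 hx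
    have h2 : HasDerivAt (fun t : ℝ => Real.sqrt t)
        (1 / (2 * Real.sqrt (‖Pr I x‖ ^ 2))) (‖Pr I x‖ ^ 2) :=
      Real.hasDerivAt_sqrt (by positivity)
    have h3 := h2.comp_hasFDerivAt (Pr I x) h1
    have h4 : (fun t : ℝ => Real.sqrt t) ∘ (fun x : E 4 => ‖x‖ ^ 2) = fun y => ‖y‖ := by
      funext y
      simp [Real.sqrt_sq (norm_nonneg y)]
    rw [h4] at h3
    refine h3.congr_fderiv ?_
    rw [Real.sqrt_sq hn.le]
    ext v
    simp only [r, _root_.smul_apply, innerSL_apply_apply, smul_eq_mul, nsmul_eq_mul,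
      Nat.cast_ofNat]
    field_simp
  have h1 := (hn.comp x (Pr I).hasFDerivAt).smul (hasFDerivAt_PGP l m I hx)
  have h2 := h1.add ((hasFDerivAt_id (𝕜 := ℝ) x).sub (Pr I).hasFDerivAt)
  have h3 : Phi l m (Pr I) = (((fun y : E 4 => ‖y‖) ∘ (Pr I)) • fun x => Pr I (G l m (Pr I x))) +
      (id - (Pr I : E 4 → E 4)) := by
    funext y
    simp [Phi]
  rw [h3]
  refine h2.congr_fderiv ?_
  ext v j
  simp only [_root_.add_apply, _root_.smul_apply, _root_.sub_apply, PiLp.add_apply,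
    PiLp.smul_apply, PiLp.sub_apply, ContinuousLinearMap.smulRight_apply,
    ContinuousLinearMap.comp_apply, innerSL_apply_apply, Matrix.ofLp_toEuclideanCLM,
    Matrix.mulVec, dotProduct, smul_eq_mul, Function.comp, ContinuousLinearMap.id_apply]
  have hin : ⟪Pr I x, Pr I v⟫ = ∑ k, Pr I x k * (if k ∈ I then v k else 0) := by
    simp only [PiLp.inner_apply, RCLike.inner_apply, conj_trivial, Pr_apply I v]
    exact Finset.sum_congr rfl fun k _ => mul_comm _ _
  rw [hin]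
  by_cases hj : j ∈ I
  · rw [Pr_apply I (G l m (Pr I x)), Pr_apply I v, if_pos hj, if_pos hj, sub_self, add_zero,
      Finset.mul_sum, Finset.mul_sum, Finset.sum_mul, ← Finset.sum_add_distrib]
    refine Finset.sum_congr rfl fun k _ => ?_
    simp only [M, B, Matrix.of_apply, hj, true_and]
    by_cases hk : k ∈ I
    · simp only [hk, if_true]; ring
    · have hjk : j ≠ k := fun h => hk (h ▸ hj)
      simp only [hk, if_false, hjk]; ring
  · rw [Pr_apply I (G l m (Pr I x)), Pr_apply I v, if_neg hj, if_neg hj]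
    simp only [M, B, Matrix.of_apply, hj, false_and, if_false]
    simp

/-- Jacobian of `Phi` in the plane case -/
def JJ (l m : Fin 4 → ℂ) (x : E 4) : ℝ :=
  H l m (Pr I2 x) * (A l m (Pr I2 x) 0 0 + A l m (Pr I2 x) 2 2)

lemma Pr2_coord (x : E 4) : Pr I2 x 0 = x 0 ∧ Pr I2 x 1 = 0 ∧ Pr I2 x 2 = x 2 ∧ Pr I2 x 3 = 0 := by
  refine ⟨?_, ?_, ?_, ?_⟩ <;> rw [Pr_apply] <;> simp [I2]

lemma det_M {l m : Fin 4 → ℂ} {x : E 4} (hx : Pr I2 x ≠ 0) :
    (M l m I2 x).det = JJ l m x := by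
  have hrad := B_radial (l := l) (m := m) I2 hx
  have h0 := congrArg (fun z : E 4 => z 0) hrad
  have h2 := congrArg (fun z : E 4 => z 2) hrad
  simp only [Matrix.ofLp_toEuclideanCLM, Matrix.mulVec, dotProduct, Fin.sum_univ_four, B,
    Matrix.of_apply] at h0 h2
  have k0 : (0 : Fin 4) ∈ I2 := by decide
  have k1 : (1 : Fin 4) ∉ I2 := by decide
  have k2 : (2 : Fin 4) ∈ I2 := by decide
  have k3 : (3 : Fin 4) ∉ I2 := by decide
  simp only [k0, k1, k2, k3, and_self, and_false, if_true, if_false, zero_mul, add_zero,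
    PiLp.zero_apply] at h0 h2
  obtain ⟨a0, a1, a2, a3⟩ := Pr2_coord x
  have hH := touch l m hx
  have hin : ⟪G l m (Pr I2 x), Pr I2 x⟫ = G l m (Pr I2 x) 0 * x 0 + G l m (Pr I2 x) 2 * x 2 := by
    simp only [PiLp.inner_apply, RCLike.inner_apply, conj_trivial, Fin.sum_univ_four, a0, a1, a2,
      a3]
    ring
  have hn : r (Pr I2 x) * ‖Pr I2 x‖ = 1 := by
    unfold r; exact inv_mul_cancel₀ (norm_ne_zero_iff.2 hx)
  have hsym := A_symm l m (Pr I2 x) 2 0
  have hdet : (M l m I2 x).det = M l m I2 x 0 0 * M l m I2 x 2 2 - M l m I2 x 0 2 * M l m I2 x 2 0 := by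
    simp [Matrix.det_succ_row_zero, Fin.sum_univ_succ, Fin.succAbove, M, I2]
    ring
  rw [hdet]
  simp only [M, Matrix.of_apply, k0, k2, and_self, if_true]
  unfold JJ
  rw [← hH, hin, a0, a2]
  rw [hsym] at h2 ⊢
  set g0 := G l m (Pr I2 x) 0
  set g2 := G l m (Pr I2 x) 2
  set A0 := A l m (Pr I2 x) 0 0
  set A1 := A l m (Pr I2 x) 0 2
  set A2 := A l m (Pr I2 x) 2 2
  set N := ‖Pr I2 x‖
  set ρ := r (Pr I2 x)
  set y0 := x 0
  set y2 := x 2
  have hne : y0 ≠ 0 ∨ y2 ≠ 0 := by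
    by_contra hc
    push Not at hc
    apply hx
    ext j
    fin_cases j
    · show Pr I2 x 0 = 0; rw [a0]; exact hc.1
    · show Pr I2 x 1 = 0; exact a1
    · show Pr I2 x 2 = 0; rw [a2]; exact hc.2
    · show Pr I2 x 3 = 0; exact a3
  have hdA : A0 * A2 - A1 * A1 = 0 := by
    rcases hne with h | h
    · have : y0 * (A0 * A2 - A1 * A1) = 0 := by linear_combination A2 * h0 - A1 * h2
      rcases mul_eq_zero.1 this with h' | h'
      · exact absurd h' h
      · exact h'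
    · have : y2 * (A0 * A2 - A1 * A1) = 0 := by linear_combination A0 * h2 - A1 * h0
      rcases mul_eq_zero.1 this with h' | h'
      · exact absurd h' h
      · exact h'
  linear_combination (N ^ 2) * hdA + (g0 * (y0 * A2 - y2 * A1) + g2 * (y2 * A0 - y0 * A1)) * hn
    - g0 * h0 - g2 * h2

end

end Pool.Agent.Helper98.Body
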