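import Mathlib
import Pool.Agent.Helper98.Plane

open MeasureTheory Set Metric
open scoped Pointwise RealInnerProductSpace

namespace Pool.Agent.Helper98.Body

open Pool.Agent.Helper98.Steiner

noncomputable section

lemma H_measurable (l m : Fin 4 → ℂ) : Measurable (H l m) := by
  have hr := r_measurable
  have hff : Measurable (ff l m) := ((Lf_measurable l).pow_const 2).mul (Lf_measurable m)
  unfold H
  exact (measurable_norm.add (((Complex.measurable_re.comp hff).mul (hr.pow_const 2)).const_mul _)).add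
    (((Complex.measurable_re.comp (hff.pow_const 2)).mul (hr.pow_const 5)).const_mul _)

lemma JJ_measurable (l m : Fin 4 → ℂ) : Measurable (JJ l m) := by
  have hp : Measurable fun x => Pr I2 x := (Pr I2).continuous.measurable
  unfold JJ
  exact ((H_measurable l m).comp hp).mul
    (((A_measurable l m 0 0).comp hp).add ((A_measurable l m 2 2).comp hp))

lemma B_diag_nonneg {l m : Fin 4 → ℂ} (h : Adm l m) (I : Finset (Fin 4)) {x : E 4}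
    (hx : Pr I x ≠ 0) (j : Fin 4) : 0 ≤ B l m I x j j := by
  have h1 := B_psd h I hx (EuclideanSpace.single j 1)
  have h2 : ⟪Matrix.toEuclideanCLM (n := Fin 4) (𝕜 := ℝ) (B l m I x) (EuclideanSpace.single j 1),
      (EuclideanSpace.single j (1:ℝ) : E 4)⟫ = B l m I x j j := by
    rw [EuclideanSpace.inner_single_right]
    simp [Matrix.ofLp_toEuclideanCLM, Matrix.mulVec, dotProduct]
  rwa [h2] at h1

lemma JJ_nonneg {l m : Fin 4 → ℂ} (h : Adm l m) {x : E 4} (hx : Pr I2 x ≠ 0) :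
    0 ≤ JJ l m x := by
  have h0 := B_diag_nonneg h I2 hx 0
  have h2 := B_diag_nonneg h I2 hx 2
  have k0 : (0 : Fin 4) ∈ I2 := by decide
  have k2 : (2 : Fin 4) ∈ I2 := by decide
  simp only [B, Matrix.of_apply, k0, k2, and_self, if_true] at h0 h2
  unfold JJ
  exact mul_nonneg (H_nonneg h _) (add_nonneg h0 h2)

lemma measurableSet_Dc (P : E 4 →L[ℝ] E 4) : MeasurableSet (Dc P) := by
  have : Dc P = (P ⁻¹' {0})ᶜ ∩ ({x | ‖P x‖ ≤ 1} ∩ {x | ‖x - P x‖ ≤ 1}) := by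
    ext x; simp [Dc]
  rw [this]
  refine MeasurableSet.inter ?_ (MeasurableSet.inter ?_ ?_)
  · exact ((isClosed_singleton.preimage P.continuous).measurableSet).compl
  · exact (isClosed_le (by fun_prop) continuous_const).measurableSet
  · exact (isClosed_le (by fun_prop) continuous_const).measurableSet

lemma volume_ker : volume {y : E 4 | Pr I2 y = 0} = 0 := by
  have h1 : {y : E 4 | Pr I2 y = 0} = (LinearMap.ker (Pr I2 : E 4 →ₗ[ℝ] E 4) : Set (E 4)) := by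
    ext y; simp
  rw [h1]
  refine Measure.addHaar_submodule _ _ ?_
  intro htop
  have h2 : (EuclideanSpace.single 0 (1:ℝ) : E 4) ∈ LinearMap.ker (Pr I2 : E 4 →ₗ[ℝ] E 4) := by
    rw [htop]; trivial
  rw [LinearMap.mem_ker] at h2
  have h3 := congrArg (fun z : E 4 => z 0) h2
  simp only [ContinuousLinearMap.coe_coe, Pr_apply] at h3
  simp [I2] at h3

lemma volC {l m : Fin 4 → ℂ} (h : Adm l m) :
    volume (C (Pr I2) (Pr I2 '' (K (H l m))) 1) =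
      ∫⁻ x in Dc (Pr I2), ENNReal.ofReal (JJ l m x) := by
  have hP := isProj_Pr (n := 4) I2
  have h1 : volume (C (Pr I2) (Pr I2 '' (K (H l m))) 1) =
      volume (Phi l m (Pr I2) '' Dc (Pr I2)) := by
    rw [Phi_image h hP]
    exact (measure_sdiff_null volume_ker).symm
  rw [h1, ← lintegral_abs_det_fderiv_eq_addHaar_image volume (measurableSet_Dc _)
    (fun x hx => (hasFDerivAt_Phi l m I2 hx.1).hasFDerivWithinAt) (Phi_inj h hP)]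
  refine setLIntegral_congr_fun (measurableSet_Dc _) fun x hx => ?_
  rw [det_toEuclideanCLM, det_M hx.1, abs_of_nonneg (JJ_nonneg h hx.1)]

lemma volC_fin {l m : Fin 4 → ℂ} (h : Adm l m) :
    volume (C (Pr I2) (Pr I2 '' (K (H l m))) 1) < ⊤ := by
  have h1 : C (Pr I2) (Pr I2 '' (K (H l m))) 1 ⊆
      Pr I2 '' (K (H l m)) + closedBall (0 : E 4) 1 := by
    rintro y ⟨h1, h2⟩
    refine Set.mem_add.2 ⟨Pr I2 y, h1, y - Pr I2 y, ?_, by abel⟩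
    rwa [mem_closedBall_zero_iff]
  refine lt_of_le_of_lt (measure_mono h1) ?_
  exact (((isCompact_K (supp h)).image (Pr I2).continuous).add
    (isCompact_closedBall _ _)).measure_lt_top

lemma JJ_int {l m : Fin 4 → ℂ} (h : Adm l m) : IntegrableOn (JJ l m) (Dc (Pr I2)) := by
  have hnn : 0 ≤ᵐ[volume.restrict (Dc (Pr I2))] JJ l m := by
    rw [Filter.EventuallyLE, ae_restrict_iff' (measurableSet_Dc _)]
    exact Filter.Eventually.of_forall fun x hx => JJ_nonneg h hx.1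
  refine ⟨(JJ_measurable l m).aestronglyMeasurable, ?_⟩
  rw [hasFiniteIntegral_iff_ofReal hnn, ← volC h]
  exact volC_fin h

lemma volC_real {l m : Fin 4 → ℂ} (h : Adm l m) :
    (volume (C (Pr I2) (Pr I2 '' (K (H l m))) 1)).toReal = ∫ x in Dc (Pr I2), JJ l m x := by
  have hnn : 0 ≤ᵐ[volume.restrict (Dc (Pr I2))] JJ l m := by
    rw [Filter.EventuallyLE, ae_restrict_iff' (measurableSet_Dc _)]
    exact Filter.Eventually.of_forall fun x hx => JJ_nonneg h hx.1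
  rw [integral_eq_lintegral_of_nonneg_ae hnn (JJ_measurable l m).aestronglyMeasurable, volC h]

/-- the two basic forms `z1` and `z2` -/
def l0 : Fin 4 → ℂ := ![1, Complex.I, 0, 0]
def m0 : Fin 4 → ℂ := ![0, 0, 1, Complex.I]

/-- normalised coordinates in the plane -/
def cc (x : E 4) : ℝ := x 0 * r (Pr I2 x)
def ss (x : E 4) : ℝ := x 2 * r (Pr I2 x)

lemma cs_sq {x : E 4} (hx : Pr I2 x ≠ 0) : cc x ^ 2 + ss x ^ 2 = 1 := by
  obtain ⟨a0, a1, a2, a3⟩ := Pr2_coord x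
  have h1 := norm_sq4 (Pr I2 x)
  rw [a0, a1, a2, a3] at h1
  have hn : ‖Pr I2 x‖ ≠ 0 := norm_ne_zero_iff.2 hx
  unfold cc ss
  have : (x 0 * r (Pr I2 x)) ^ 2 + (x 2 * r (Pr I2 x)) ^ 2 = ‖Pr I2 x‖ ^ 2 * r (Pr I2 x) ^ 2 := by
    rw [h1]; ring
  rw [this]
  unfold r; field_simp

lemma Lf_l0 (x : E 4) : Lf l0 (Pr I2 x) = (x 0 : ℂ) := by
  obtain ⟨a0, a1, a2, a3⟩ := Pr2_coord x
  simp [Lf, Fin.sum_univ_four, a0, a1, a2, a3, l0]

lemma Lf_m0 (x : E 4) : Lf m0 (Pr I2 x) = (x 2 : ℂ) := by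
  obtain ⟨a0, a1, a2, a3⟩ := Pr2_coord x
  simp [Lf, Fin.sum_univ_four, a0, a1, a2, a3, m0]

lemma trace_real (x : E 4) :
    Wm l0 m0 0 0 (Pr I2 x) + Wm l0 m0 2 2 (Pr I2 x) =
      ((2 * x 2 * r (Pr I2 x) ^ 2 - 12 * x 0 ^ 2 * x 2 * r (Pr I2 x) ^ 4
        - 4 * x 0 ^ 2 * x 2 * r (Pr I2 x) ^ 4
        + 8 * x 0 ^ 2 * x 2 * (x 0 ^ 2 + x 2 ^ 2) * r (Pr I2 x) ^ 6 : ℝ) : ℂ) ∧
    Vm l0 m0 0 0 (Pr I2 x) + Vm l0 m0 2 2 (Pr I2 x) =
      (((2 * (2 * x 0 * x 2) ^ 2 + 2 * (x 0 ^ 2) ^ 2 + 4 * x 0 ^ 2 * x 2 ^ 2) * r (Pr I2 x) ^ 5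
        - 60 * (x 0 ^ 2 * x 2) ^ 2 * r (Pr I2 x) ^ 7 - 10 * (x 0 ^ 2 * x 2) ^ 2 * r (Pr I2 x) ^ 7
        + 35 * (x 0 ^ 2 * x 2) ^ 2 * (x 0 ^ 2 + x 2 ^ 2) * r (Pr I2 x) ^ 9 : ℝ) : ℂ) := by
  obtain ⟨a0, a1, a2, a3⟩ := Pr2_coord x
  constructor
  · simp only [Wm, gf, hf, ff, Lf_l0, Lf_m0, a0, a2, if_true]
    simp only [l0, m0, Matrix.cons_val_zero, Matrix.cons_val]
    push_cast
    ring
  · simp only [Vm, gf, hf, ff, Lf_l0, Lf_m0, a0, a2, if_true]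
    simp only [l0, m0, Matrix.cons_val_zero, Matrix.cons_val]
    push_cast
    ring

lemma ff_real (x : E 4) : ff l0 m0 (Pr I2 x) = ((x 0 ^ 2 * x 2 : ℝ) : ℂ) := by
  simp only [ff, Lf_l0, Lf_m0]; push_cast; ring

lemma Nr {x : E 4} (hx : Pr I2 x ≠ 0) : ‖Pr I2 x‖ * r (Pr I2 x) = 1 := by
  unfold r; exact mul_inv_cancel₀ (norm_ne_zero_iff.2 hx)

lemma JJ_formula {x : E 4} (hx : Pr I2 x ≠ 0) :
    JJ l0 m0 x = (1 + e * (cc x ^ 2 * ss x) + e ^ 2 / 5 * (cc x ^ 4 * ss x ^ 2)) *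
      (1 + e * (2 * ss x - 8 * cc x ^ 2 * ss x)
        + e ^ 2 / 5 * (12 * cc x ^ 2 * ss x ^ 2 + 2 * cc x ^ 4 - 35 * cc x ^ 4 * ss x ^ 2)) := by
  obtain ⟨a0, a1, a2, a3⟩ := Pr2_coord x
  have hcs := cs_sq hx
  have hN := Nr hx
  obtain ⟨hW, hV⟩ := trace_real x
  have hT : A l0 m0 (Pr I2 x) 0 0 + A l0 m0 (Pr I2 x) 2 2 = r (Pr I2 x) *
      (1 + e * (2 * ss x - 8 * cc x ^ 2 * ss x)
        + e ^ 2 / 5 * (12 * cc x ^ 2 * ss x ^ 2 + 2 * cc x ^ 4 - 35 * cc x ^ 4 * ss x ^ 2)) := by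
    have h1 : A l0 m0 (Pr I2 x) 0 0 + A l0 m0 (Pr I2 x) 2 2 =
        (Nm 0 0 (Pr I2 x) + Nm 2 2 (Pr I2 x)) +
        e * (Wm l0 m0 0 0 (Pr I2 x) + Wm l0 m0 2 2 (Pr I2 x)).re +
        e ^ 2 / 5 * (Vm l0 m0 0 0 (Pr I2 x) + Vm l0 m0 2 2 (Pr I2 x)).re := by
      simp only [A, Matrix.of_apply, Complex.add_re]; ring
    rw [h1, hW, hV, Complex.ofReal_re, Complex.ofReal_re]
    simp only [Nm, if_true, a0, a2]
    unfold cc ss at hcs ⊢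
    linear_combination (-(r (Pr I2 x)) + e * 8 * x 0 ^ 2 * x 2 * r (Pr I2 x) ^ 4
      + e ^ 2 / 5 * 35 * (x 0 ^ 2 * x 2) ^ 2 * r (Pr I2 x) ^ 7) * hcs
  have hH : H l0 m0 (Pr I2 x) = ‖Pr I2 x‖ *
      (1 + e * (cc x ^ 2 * ss x) + e ^ 2 / 5 * (cc x ^ 4 * ss x ^ 2)) := by
    unfold H
    rw [ff_real, ← Complex.ofReal_pow, Complex.ofReal_re, Complex.ofReal_re]
    unfold cc ss
    linear_combination (-(e * (x 0 ^ 2 * x 2) * r (Pr I2 x) ^ 2)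
      - e ^ 2 / 5 * (x 0 ^ 2 * x 2) ^ 2 * r (Pr I2 x) ^ 5) * hN
  unfold JJ
  rw [hT, hH]
  linear_combination ((1 + e * (cc x ^ 2 * ss x) + e ^ 2 / 5 * (cc x ^ 4 * ss x ^ 2)) *
      (1 + e * (2 * ss x - 8 * cc x ^ 2 * ss x)
        + e ^ 2 / 5 * (12 * cc x ^ 2 * ss x ^ 2 + 2 * cc x ^ 4 - 35 * cc x ^ 4 * ss x ^ 2))) * hN

lemma JJ_formula' {x : E 4} (hx : Pr I2 x ≠ 0) :
    JJ l0 (mi m0) x = (1 - e ^ 2 / 5 * (cc x ^ 4 * ss x ^ 2)) *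
      (1 - e ^ 2 / 5 * (12 * cc x ^ 2 * ss x ^ 2 + 2 * cc x ^ 4 - 35 * cc x ^ 4 * ss x ^ 2)) := by
  obtain ⟨a0, a1, a2, a3⟩ := Pr2_coord x
  have hcs := cs_sq hx
  have hN := Nr hx
  obtain ⟨hW, hV⟩ := trace_real x
  have hT : A l0 (mi m0) (Pr I2 x) 0 0 + A l0 (mi m0) (Pr I2 x) 2 2 = r (Pr I2 x) *
      (1 - e ^ 2 / 5 * (12 * cc x ^ 2 * ss x ^ 2 + 2 * cc x ^ 4 - 35 * cc x ^ 4 * ss x ^ 2)) := by
    have h1 : A l0 (mi m0) (Pr I2 x) 0 0 + A l0 (mi m0) (Pr I2 x) 2 2 =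
        (Nm 0 0 (Pr I2 x) + Nm 2 2 (Pr I2 x)) +
        e * (-Complex.I * (Wm l0 m0 0 0 (Pr I2 x) + Wm l0 m0 2 2 (Pr I2 x))).re +
        e ^ 2 / 5 * (-(Vm l0 m0 0 0 (Pr I2 x) + Vm l0 m0 2 2 (Pr I2 x))).re := by
      simp only [A, Matrix.of_apply, Wm_mi, Vm_mi, mul_add, Complex.add_re, neg_add]; ring
    rw [h1, hW, hV, Complex.neg_re, Complex.ofReal_re, Complex.re_mul_ofReal]
    simp only [Nm, if_true, a0, a2, Complex.neg_re, Complex.I_re, neg_zero, zero_mul, mul_zero,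
      add_zero]
    unfold cc ss at hcs ⊢
    linear_combination (-(r (Pr I2 x))
      - e ^ 2 / 5 * 35 * (x 0 ^ 2 * x 2) ^ 2 * r (Pr I2 x) ^ 7) * hcs
  have hff : ff l0 (mi m0) (Pr I2 x) = -Complex.I * ((x 0 ^ 2 * x 2 : ℝ) : ℂ) := by
    rw [← ff_real]; simp only [ff, Lf_mi]; ring
  have hH : H l0 (mi m0) (Pr I2 x) = ‖Pr I2 x‖ *
      (1 - e ^ 2 / 5 * (cc x ^ 4 * ss x ^ 2)) := by
    unfold H
    have h2 : ff l0 (mi m0) (Pr I2 x) ^ 2 = ((-(x 0 ^ 2 * x 2) ^ 2 : ℝ) : ℂ) := by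
      rw [hff]; push_cast
      linear_combination ((x 0 : ℂ) ^ 2 * (x 2 : ℂ)) ^ 2 * Complex.I_sq
    rw [h2, hff, Complex.ofReal_re, Complex.re_mul_ofReal]
    simp only [Complex.neg_re, Complex.I_re, neg_zero, zero_mul, mul_zero, add_zero]
    unfold cc ss
    linear_combination (e ^ 2 / 5 * (x 0 ^ 2 * x 2) ^ 2 * r (Pr I2 x) ^ 5) * hN
  unfold JJ
  rw [hT, hH]
  linear_combination ((1 - e ^ 2 / 5 * (cc x ^ 4 * ss x ^ 2)) *
      (1 - e ^ 2 / 5 * (12 * cc x ^ 2 * ss x ^ 2 + 2 * cc x ^ 4 - 35 * cc x ^ 4 * ss x ^ 2))) * hN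

end

end Pool.Agent.Helper98.Body
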