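import Mathlib
import Pool.Agent.Helper98.Area

open MeasureTheory Set Metric
open scoped Pointwise RealInnerProductSpace

namespace Pool.Agent.Helper98.Body

open Pool.Agent.Helper98.Steiner

noncomputable section

def rotN (ω : ℂ) : Matrix (Fin 4) (Fin 4) ℝ :=
  !![ω.re, 0, -ω.im, 0; 0, 1, 0, 0; ω.im, 0, ω.re, 0; 0, 0, 0, 1]

lemma rotN_norm {ω : ℂ} (h : ω.re ^ 2 + ω.im ^ 2 = 1) (x : E 4) :
    ‖Matrix.toEuclideanLin (rotN ω) x‖ = ‖x‖ := by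
  apply norm_eq_of_sq
  rw [norm_sq4, norm_sq4]
  simp only [lin_coord]
  simp [rotN]
  linear_combination (x 0 ^ 2 + x 2 ^ 2) * h

def rt (ω : ℂ) (h : ω.re ^ 2 + ω.im ^ 2 = 1) : E 4 ≃ₗᵢ[ℝ] E 4 :=
  mkIso (Matrix.toEuclideanLin (rotN ω)) (rotN_norm h)

lemma rt_0 (ω : ℂ) (h : ω.re ^ 2 + ω.im ^ 2 = 1) (x : E 4) :
    rt ω h x 0 = ω.re * x 0 - ω.im * x 2 := by
  rw [rt, mkIso_apply, lin_coord]; simp [rotN]; ring
lemma rt_1 (ω : ℂ) (h : ω.re ^ 2 + ω.im ^ 2 = 1) (x : E 4) : rt ω h x 1 = x 1 := by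
  rw [rt, mkIso_apply, lin_coord]; simp [rotN]
lemma rt_2 (ω : ℂ) (h : ω.re ^ 2 + ω.im ^ 2 = 1) (x : E 4) :
    rt ω h x 2 = ω.im * x 0 + ω.re * x 2 := by
  rw [rt, mkIso_apply, lin_coord]; simp [rotN]
lemma rt_3 (ω : ℂ) (h : ω.re ^ 2 + ω.im ^ 2 = 1) (x : E 4) : rt ω h x 3 = x 3 := by
  rw [rt, mkIso_apply, lin_coord]; simp [rotN]

lemma rt_Pr (ω : ℂ) (h : ω.re ^ 2 + ω.im ^ 2 = 1) (x : E 4) :
    Pr I2 (rt ω h x) = rt ω h (Pr I2 x) := by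
  obtain ⟨a0, a1, a2, a3⟩ := Pr2_coord x
  obtain ⟨b0, b1, b2, b3⟩ := Pr2_coord (rt ω h x)
  ext j
  fin_cases j
  · show Pr I2 (rt ω h x) 0 = rt ω h (Pr I2 x) 0
    rw [b0, rt_0, rt_0, a0, a2]
  · show Pr I2 (rt ω h x) 1 = rt ω h (Pr I2 x) 1
    rw [b1, rt_1, a1]
  · show Pr I2 (rt ω h x) 2 = rt ω h (Pr I2 x) 2
    rw [b2, rt_2, rt_2, a0, a2]
  · show Pr I2 (rt ω h x) 3 = rt ω h (Pr I2 x) 3
    rw [b3, rt_3, a3]

lemma Dc_inv (P : E 4 →L[ℝ] E 4) (T : E 4 ≃ₗᵢ[ℝ] E 4) (h : ∀ x, P (T x) = T (P x)) :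
    T ⁻¹' (Dc P) = Dc P := by
  ext x
  simp only [Dc, mem_preimage, Set.mem_ofPred_eq, h, LinearIsometryEquiv.norm_map, ne_eq,
    map_eq_zero_iff T T.injective, ← map_sub]

def EE (x : E 4) : ℝ :=
  4 / 5 * cc x ^ 4 + 34 / 5 * cc x ^ 2 * ss x ^ 2 - 108 / 5 * cc x ^ 4 * ss x ^ 2

lemma cc_rt (ω : ℂ) (h : ω.re ^ 2 + ω.im ^ 2 = 1) (x : E 4) :
    cc (rt ω h x) = ω.re * cc x - ω.im * ss x := by
  unfold cc ss; rw [rt_Pr, r_rot, rt_0]; ring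

lemma ss_rt (ω : ℂ) (h : ω.re ^ 2 + ω.im ^ 2 = 1) (x : E 4) :
    ss (rt ω h x) = ω.im * cc x + ω.re * ss x := by
  unfold cc ss; rw [rt_Pr, r_rot, rt_2]; ring

lemma Dc_fin : volume (Dc (Pr I2)) < ⊤ := by
  refine lt_of_le_of_lt (measure_mono ?_) (isCompact_closedBall (0 : E 4) 2).measure_lt_top
  rintro x ⟨-, h1, h2⟩
  rw [mem_closedBall_zero_iff]
  calc ‖x‖ = ‖Pr I2 x + (x - Pr I2 x)‖ := by congr 1; abel
    _ ≤ ‖Pr I2 x‖ + ‖x - Pr I2 x‖ := norm_add_le _ _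
    _ ≤ 2 := by linarith

lemma Dc_pos : 0 < volume (Dc (Pr I2)) := by
  have h1 : (Pr I2 ⁻¹' {0})ᶜ ∩ ball (0 : E 4) 1 ⊆ Dc (Pr I2) := by
    rintro x ⟨h1, h2⟩
    rw [mem_ball_zero_iff] at h2
    refine ⟨by simpa using h1, ?_, ?_⟩
    · exact ((isProj_Pr I2).norm_le x).trans h2.le
    · exact ((isProj_Pr I2).norm_sub_le x).trans h2.le
  refine lt_of_lt_of_le ?_ (measure_mono h1)
  refine IsOpen.measure_pos _ ?_ ?_
  · exact ((isClosed_singleton.preimage (Pr I2).continuous).isOpen_compl).inter isOpen_ball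
  · refine ⟨(1 / 2 : ℝ) • (EuclideanSpace.single 0 (1:ℝ) : E 4), ?_, ?_⟩
    · simp only [mem_compl_iff, mem_preimage, mem_singleton_iff]
      intro h0
      have h3 := congrArg (fun z : E 4 => z 0) h0
      simp only [Pr_apply] at h3
      simp [I2] at h3
    · rw [mem_ball_zero_iff, norm_smul]
      simp
      norm_num

lemma int_EE (hint : IntegrableOn EE (Dc (Pr I2))) :
    ∫ x in Dc (Pr I2), EE x = -(1 / 5) * (volume (Dc (Pr I2))).toReal := by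
  have w2 : (Complex.I : ℂ).re ^ 2 + (Complex.I : ℂ).im ^ 2 = 1 := by simp
  set ω : ℂ := ⟨Real.sqrt 2 / 2, Real.sqrt 2 / 2⟩ with hω
  have s2 : Real.sqrt 2 ^ 2 = 2 := Real.sq_sqrt (by norm_num)
  have w3 : ω.re ^ 2 + ω.im ^ 2 = 1 := by
    simp only [hω]; nlinarith
  have inv2 := Dc_inv (Pr I2) (rt Complex.I w2) (rt_Pr _ w2)
  have inv3 := Dc_inv (Pr I2) (rt ω w3) (rt_Pr _ w3)
  let E1 : E 4 → ℝ := fun x => 1 / 2 * (EE x + EE (rt Complex.I w2 x))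
  have i1 : IntegrableOn E1 (Dc (Pr I2)) := (hint.add (intble_comp _ inv2 hint)).const_mul _
  have r1 : ∫ x in Dc (Pr I2), E1 x = ∫ x in Dc (Pr I2), EE x := by
    simp only [E1]
    rw [integral_const_mul, integral_add hint (intble_comp _ inv2 hint), int_comp _ inv2]
    ring
  have e1 : ∀ x ∈ Dc (Pr I2), E1 x = 2 / 5 - 24 / 5 * (cc x ^ 2 * ss x ^ 2) := by
    intro x hx
    have hcs := cs_sq hx.1
    simp only [E1, EE, cc_rt, ss_rt, Complex.I_re, Complex.I_im]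
    have hs : ss x ^ 2 = 1 - cc x ^ 2 := by linarith
    have : ∀ u v : ℝ, v ^ 2 = 1 - u ^ 2 →
      1 / 2 * (4 / 5 * u ^ 4 + 34 / 5 * u ^ 2 * v ^ 2 - 108 / 5 * u ^ 4 * v ^ 2 +
        (4 / 5 * (0 * u - 1 * v) ^ 4 + 34 / 5 * (0 * u - 1 * v) ^ 2 * (1 * u + 0 * v) ^ 2 -
          108 / 5 * (0 * u - 1 * v) ^ 4 * (1 * u + 0 * v) ^ 2)) =
      2 / 5 - 24 / 5 * (u ^ 2 * v ^ 2) := by
      intro u v huv
      have h4 : v ^ 4 = (1 - u ^ 2) ^ 2 := by rw [← huv]; ring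
      ring_nf
      rw [h4, huv]
      ring
    exact this _ _ hs
  have e2 : ∀ x ∈ Dc (Pr I2), E1 x + E1 (rt ω w3 x) = -(2 / 5) := by
    intro x hx
    have hx' : rt ω w3 x ∈ Dc (Pr I2) := by
      have : x ∈ rt ω w3 ⁻¹' Dc (Pr I2) := by rwa [inv3]
      exact this
    rw [e1 x hx, e1 _ hx', cc_rt, ss_rt]
    have hcs := cs_sq hx.1
    simp only [hω]
    have h1 : (Real.sqrt 2 / 2 * cc x - Real.sqrt 2 / 2 * ss x) ^ 2 =
        (cc x - ss x) ^ 2 / 2 := by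
      linear_combination ((cc x - ss x) ^ 2 / 4) * s2
    have h2 : (Real.sqrt 2 / 2 * cc x + Real.sqrt 2 / 2 * ss x) ^ 2 =
        (cc x + ss x) ^ 2 / 2 := by
      linear_combination ((cc x + ss x) ^ 2 / 4) * s2
    rw [h1, h2]
    linear_combination (-(6 / 5) * (cc x ^ 2 + ss x ^ 2 + 1)) * hcs
  have r2 : ∫ x in Dc (Pr I2), E1 x = (1 / 2) * ∫ x in Dc (Pr I2), -(2 / 5 : ℝ) := by
    have h1 : ∫ x in Dc (Pr I2), (E1 x + E1 (rt ω w3 x)) = ∫ x in Dc (Pr I2), -(2 / 5 : ℝ) :=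
      setIntegral_congr_fun (measurableSet_Dc _) e2
    rw [← h1, integral_add i1 (intble_comp _ inv3 i1), int_comp _ inv3]
    ring
  rw [← r1, r2, setIntegral_const]
  simp only [smul_eq_mul, Measure.real]
  ring

lemma cc_neg (x : E 4) : cc (-x) = -cc x := by
  unfold cc; rw [map_neg, r_neg, PiLp.neg_apply]; ring

lemma ss_neg (x : E 4) : ss (-x) = -ss x := by
  unfold ss; rw [map_neg, r_neg, PiLp.neg_apply]; ring

/-- the planar projections have different areas -/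
lemma area_ne (h1 : Adm l0 m0) (h2 : Adm l0 (mi m0)) :
    (volume (C (Pr I2) (Pr I2 '' (K (H l0 m0))) 1)).toReal ≠
      (volume (C (Pr I2) (Pr I2 '' (K (H l0 (mi m0)))) 1)).toReal := by
  rw [volC_real h1, volC_real h2]
  set W : E 4 → ℝ := fun x => JJ l0 m0 x - JJ l0 (mi m0) x with hW
  have iW : IntegrableOn W (Dc (Pr I2)) := (JJ_int h1).sub (JJ_int h2)
  let T : E 4 ≃ₗᵢ[ℝ] E 4 := LinearIsometryEquiv.neg ℝ
  have hT : ∀ x, T x = -x := fun x => rfl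
  have invT : T ⁻¹' (Dc (Pr I2)) = Dc (Pr I2) := Dc_inv _ T (fun x => by
    rw [hT, hT, map_neg])
  have hpt : ∀ x ∈ Dc (Pr I2), EE x = (2 * e ^ 2)⁻¹ * (W x + W (T x)) := by
    intro x hx
    have hx' : Pr I2 (-x) ≠ 0 := by rw [map_neg]; exact neg_ne_zero.2 hx.1
    have hne : (2 * e ^ 2) ≠ 0 := by unfold e; norm_num
    rw [eq_inv_mul_iff_mul_eq₀ hne]
    simp only [hW, hT]
    rw [JJ_formula hx.1, JJ_formula' hx.1, JJ_formula hx', JJ_formula' hx', cc_neg, ss_neg]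
    unfold EE
    ring
  have iE : IntegrableOn EE (Dc (Pr I2)) := by
    have := (iW.add (intble_comp T invT iW)).const_mul ((2 * e ^ 2)⁻¹)
    refine this.congr ?_
    rw [Filter.EventuallyEq, ae_restrict_iff' (measurableSet_Dc _)]
    exact Filter.Eventually.of_forall fun x hx => (hpt x hx).symm
  have h3 := int_EE iE
  have h4 : ∫ x in Dc (Pr I2), EE x = (2 * e ^ 2)⁻¹ * (2 * ∫ x in Dc (Pr I2), W x) := by
    rw [setIntegral_congr_fun (measurableSet_Dc _) hpt, integral_const_mul,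
      integral_add iW (intble_comp T invT iW), int_comp T invT]
    ring
  have h5 : 0 < (volume (Dc (Pr I2))).toReal := ENNReal.toReal_pos Dc_pos.ne' Dc_fin.ne
  intro heq
  have h6 : ∫ x in Dc (Pr I2), W x = 0 := by
    rw [hW, integral_sub (JJ_int h1) (JJ_int h2)]
    linarith
  rw [h6] at h4
  rw [h4] at h3
  linarith

end

end Pool.Agent.Helper98.Body
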