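import Mathlib

open MeasureTheory Set Metric Filter Topology
open scoped Pointwise RealInnerProductSpace ENNReal

namespace Pool.Agent.Helper98.Near

abbrev E (n : ℕ) := EuclideanSpace ℝ (Fin n)

variable {n : ℕ}

/-- `p` is the nearest point map of `L`, described by the variational inequality. -/
def IsNear (L : Set (E n)) (p : E n → E n) : Prop :=
  ∀ x, p x ∈ L ∧ ∀ w ∈ L, ⟪x - p x, w - p x⟫ ≤ 0

lemma exists_near {L : Set (E n)} (hc : IsCompact L) (hv : Convex ℝ L) (hn : L.Nonempty) :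
    ∃ p, IsNear L p := by
  have : ∀ x, ∃ v, v ∈ L ∧ ∀ w ∈ L, ⟪x - v, w - v⟫ ≤ 0 := by
    intro x
    obtain ⟨v, hv1, hv2⟩ := exists_norm_eq_iInf_of_complete_convex hn hc.isComplete hv x
    exact ⟨v, hv1, (norm_eq_iInf_iff_real_inner_le_zero hv hv1).1 hv2⟩
  choose p hp using this
  exact ⟨p, hp⟩

lemma firm {L : Set (E n)} {p : E n → E n} (h : IsNear L p) (x y : E n) :
    ‖p x - p y‖ ^ 2 ≤ ⟪x - y, p x - p y⟫ := by
  have h1 := (h x).2 _ (h y).1
  have h2 := (h y).2 _ (h x).1
  have h3 : ⟪x - p x, p y - p x⟫ = -⟪x - p x, p x - p y⟫ := by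
    rw [← inner_neg_right]; congr 1; abel
  rw [h3] at h1
  have h4 : ⟪x - y, p x - p y⟫ = ⟪x - p x, p x - p y⟫ - ⟪y - p y, p x - p y⟫ +
      ⟪p x - p y, p x - p y⟫ := by
    rw [← inner_sub_left, ← inner_add_left]; congr 1; abel
  rw [h4, real_inner_self_eq_norm_sq]
  linarith

lemma lip {L : Set (E n)} {p : E n → E n} (h : IsNear L p) : LipschitzWith 1 p := by
  apply LipschitzWith.of_dist_le_mul
  intro x y
  rw [dist_eq_norm, dist_eq_norm, NNReal.coe_one, one_mul]
  have h1 := firm h x y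
  have h2 := real_inner_le_norm (x - y) (p x - p y)
  by_contra hc
  push Not at hc
  have h3 : 0 < ‖p x - p y‖ := lt_of_le_of_lt (norm_nonneg _) hc
  nlinarith

lemma uniq {L : Set (E n)} {p : E n → E n} (h : IsNear L p) {x v : E n} (hv : v ∈ L)
    (hw : ∀ w ∈ L, ⟪x - v, w - v⟫ ≤ 0) : p x = v := by
  have h1 := (h x).2 _ hv
  have h2 := hw _ (h x).1
  have h3 : ⟪x - p x, v - p x⟫ + ⟪x - v, p x - v⟫ = ‖p x - v‖ ^ 2 := by
    rw [← real_inner_self_eq_norm_sq]
    have : ⟪x - p x, v - p x⟫ = -⟪x - p x, p x - v⟫ := by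
      rw [← inner_neg_right]; congr 1; abel
    rw [this, ← inner_neg_left, ← inner_add_left]
    congr 1; abel
  have h4 : ‖p x - v‖ ^ 2 ≤ 0 := by linarith
  have h5 : ‖p x - v‖ = 0 := by
    have := sq_nonneg ‖p x - v‖
    exact pow_eq_zero_iff (two_ne_zero) |>.1 (le_antisymm h4 this)
  exact sub_eq_zero.1 (norm_eq_zero.1 h5)

/-- dilation about the nearest point -/
def Phi (p : E n → E n) (s : ℝ) (x : E n) : E n := s • x + (1 - s) • p x

lemma Phi_sub (p : E n → E n) (s : ℝ) (x : E n) : Phi p s x - p x = s • (x - p x) := by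
  unfold Phi; module

lemma p_Phi {L : Set (E n)} {p : E n → E n} (h : IsNear L p) {s : ℝ} (hs : 0 ≤ s) (x : E n) :
    p (Phi p s x) = p x := by
  apply uniq h (h x).1
  intro w hw
  rw [Phi_sub, inner_smul_left]
  exact mul_nonpos_of_nonneg_of_nonpos hs ((h x).2 w hw)

lemma Phi_inj {L : Set (E n)} {p : E n → E n} (h : IsNear L p) {s : ℝ} (hs : 0 < s) :
    Function.Injective (Phi p s) := by
  intro x y hxy
  have h1 : p x = p y := by rw [← p_Phi h hs.le x, ← p_Phi h hs.le y, hxy]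
  have h2 : s • (x - p x) = s • (y - p y) := by
    rw [← Phi_sub, ← Phi_sub, hxy, h1]
  have h3 : x - p x = y - p y := smul_right_injective (E n) hs.ne' h2
  rw [h1] at h3
  exact sub_left_injective h3

lemma thick_eq {L : Set (E n)} {p : E n → E n} (h : IsNear L p) (s : ℝ) :
    L + closedBall (0 : E n) s = {y | ‖y - p y‖ ≤ s} := by
  ext y
  constructor
  · intro hy
    obtain ⟨l, hl, b, hb, rfl⟩ := Set.mem_add.1 hy
    rw [mem_closedBall_zero_iff] at hb
    show ‖l + b - p (l + b)‖ ≤ s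
    refine le_trans ?_ hb
    set y := l + b
    have h1 := (h y).2 l hl
    have h2 : ‖b‖ ^ 2 = ‖y - p y‖ ^ 2 - 2 * ⟪y - p y, l - p y⟫ + ‖l - p y‖ ^ 2 := by
      rw [← norm_sub_sq_real]; congr 2
      show b = l + b - p y - (l - p y)
      abel
    have h3 : ‖y - p y‖ ^ 2 ≤ ‖b‖ ^ 2 := by nlinarith [sq_nonneg ‖l - p y‖]
    exact le_of_sq_le_sq h3 (norm_nonneg _)
  · intro hy
    refine Set.mem_add.2 ⟨p y, (h y).1, y - p y, ?_, by abel⟩
    rwa [mem_closedBall_zero_iff]

lemma Phi_image {L : Set (E n)} {p : E n → E n} (h : IsNear L p) {s : ℝ} (hs : 0 < s) :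
    Phi p s '' (L + closedBall (0 : E n) 1) = L + closedBall (0 : E n) s := by
  rw [thick_eq h, thick_eq h]
  ext y
  constructor
  · rintro ⟨x, hx, rfl⟩
    have hx' : ‖x - p x‖ ≤ 1 := hx
    show ‖Phi p s x - p (Phi p s x)‖ ≤ s
    rw [p_Phi h hs.le, Phi_sub, norm_smul, Real.norm_of_nonneg hs.le]
    nlinarith
  · intro hy
    have hy' : ‖y - p y‖ ≤ s := hy
    refine ⟨Phi p s⁻¹ y, ?_, ?_⟩
    · show ‖Phi p s⁻¹ y - p (Phi p s⁻¹ y)‖ ≤ 1
      rw [p_Phi h (inv_nonneg.2 hs.le), Phi_sub, norm_smul, norm_inv, Real.norm_of_nonneg hs.le,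
        inv_mul_le_iff₀ hs]
      linarith
    · have h1 : Phi p s (Phi p s⁻¹ y) - p (Phi p s⁻¹ y) = y - p y := by
        rw [Phi_sub, p_Phi h (inv_nonneg.2 hs.le), Phi_sub, smul_smul, mul_inv_cancel₀ hs.ne',
          one_smul]
      rw [p_Phi h (inv_nonneg.2 hs.le)] at h1
      exact sub_left_injective h1

/-- derivative of the dilation -/
noncomputable def M (A : E n →L[ℝ] E n) (s : ℝ) : E n →L[ℝ] E n :=
  s • ContinuousLinearMap.id ℝ (E n) + (1 - s) • A

lemma deriv_firm {L : Set (E n)} {p : E n → E n} (h : IsNear L p) {x : E n}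
    (hd : DifferentiableAt ℝ p x) (v : E n) :
    ‖fderiv ℝ p x v‖ ^ 2 ≤ ⟪v, fderiv ℝ p x v⟫ := by
  have h1 := (hd.hasFDerivAt.hasLineDerivAt v).tendsto_slope_zero
  have h2 : Tendsto (fun t : ℝ => ‖t⁻¹ • (p (x + t • v) - p x)‖ ^ 2) (𝓝[≠] 0)
      (𝓝 (‖fderiv ℝ p x v‖ ^ 2)) := (h1.norm).pow 2
  have h3 : Tendsto (fun t : ℝ => ⟪v, t⁻¹ • (p (x + t • v) - p x)⟫) (𝓝[≠] 0)
      (𝓝 ⟪v, fderiv ℝ p x v⟫) := tendsto_const_nhds.inner h1
  refine le_of_tendsto_of_tendsto h2 h3 ?_
  filter_upwards [self_mem_nhdsWithin] with t ht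
  have ht' : t ≠ 0 := ht
  have h4 := firm h (x + t • v) x
  rw [add_sub_cancel_left, inner_smul_left] at h4
  simp only [conj_trivial] at h4
  rw [norm_smul, mul_pow, norm_inv, Real.norm_eq_abs, inv_pow, sq_abs, inner_smul_right]
  have h5 : 0 < t ^ 2 := by positivity
  calc (t ^ 2)⁻¹ * ‖p (x + t • v) - p x‖ ^ 2
      ≤ (t ^ 2)⁻¹ * (t * ⟪v, p (x + t • v) - p x⟫) :=
        mul_le_mul_of_nonneg_left h4 (inv_nonneg.2 h5.le)
    _ = t⁻¹ * ⟪v, p (x + t • v) - p x⟫ := by field_simp

lemma det_ne {A : E n →L[ℝ] E n} (hA : ∀ v, ‖A v‖ ^ 2 ≤ ⟪v, A v⟫) {s : ℝ} (hs : 0 < s) :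
    (M A s).det ≠ 0 := by
  have hinj : Function.Injective ((M A s : E n →L[ℝ] E n) : E n →ₗ[ℝ] E n) := by
    rw [← LinearMap.ker_eq_bot, LinearMap.ker_eq_bot']
    intro v hv
    have h0 : s • v + (1 - s) • A v = 0 := hv
    have h1 : ⟪v, s • v + (1 - s) • A v⟫ = 0 := by rw [h0, inner_zero_right]
    rw [inner_add_right, inner_smul_right, inner_smul_right, real_inner_self_eq_norm_sq] at h1
    have h2 := hA v
    have h3 : ‖v - A v‖ ^ 2 = ‖v‖ ^ 2 - 2 * ⟪v, A v⟫ + ‖A v‖ ^ 2 := norm_sub_sq_real _ _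
    have h4 : s * (‖v‖ ^ 2 - ⟪v, A v⟫) + ⟪v, A v⟫ = 0 := by linarith
    have h5 : 0 ≤ ‖v‖ ^ 2 - ⟪v, A v⟫ := by nlinarith [sq_nonneg ‖v - A v‖]
    have h6 : 0 ≤ ⟪v, A v⟫ := by nlinarith [sq_nonneg ‖A v‖]
    have h7 : 0 ≤ s * (‖v‖ ^ 2 - ⟪v, A v⟫) := mul_nonneg hs.le h5
    have h8 : ⟪v, A v⟫ = 0 := by linarith
    have h9 : s * (‖v‖ ^ 2 - ⟪v, A v⟫) = 0 := by linarith
    have h10 : ‖v‖ ^ 2 - ⟪v, A v⟫ = 0 := by
      rcases mul_eq_zero.1 h9 with h | h
      · exact absurd h hs.ne'
      · exact h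
    have h11 : ‖v‖ ^ 2 = 0 := by linarith
    exact norm_eq_zero.1 (pow_eq_zero_iff (two_ne_zero) |>.1 h11)
  intro hdet
  have h1 : LinearMap.det ((M A s : E n →L[ℝ] E n) : E n →ₗ[ℝ] E n) = 0 := hdet
  have := LinearMap.bot_lt_ker_of_det_eq_zero h1
  rw [LinearMap.ker_eq_bot.2 hinj] at this
  exact lt_irrefl _ this

lemma continuous_M (A : E n →L[ℝ] E n) : Continuous (M A) := by
  unfold M; fun_prop

lemma det_pos {A : E n →L[ℝ] E n} (hA : ∀ v, ‖A v‖ ^ 2 ≤ ⟪v, A v⟫) {s : ℝ} (hs : 0 < s) :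
    0 < (M A s).det := by
  by_contra hc
  push Not at hc
  have hcont : Continuous fun s => (M A s).det :=
    ContinuousLinearMap.continuous_det.comp (continuous_M A)
  have h1 : (M A 1).det = 1 := by
    have : M A 1 = ContinuousLinearMap.id ℝ (E n) := by
      ext v
      simp [M]
    rw [this]
    exact LinearMap.det_id
  have hpre : IsPreconnected (Ioi (0:ℝ)) := isPreconnected_Ioi
  have := hpre.intermediate_value (show s ∈ Ioi (0:ℝ) from hs) (show (1:ℝ) ∈ Ioi (0:ℝ) from mem_Ioi.2 one_pos)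
    hcont.continuousOn
  have h0 : (0:ℝ) ∈ Icc ((M A s).det) ((M A 1).det) := ⟨hc, by rw [h1]; norm_num⟩
  obtain ⟨r, hr, hr0⟩ := this h0
  exact det_ne hA hr hr0

/-- the determinant as a polynomial in `s` -/
noncomputable def detPoly (A : E n →L[ℝ] E n) : Polynomial ℝ :=
  Matrix.det ((Polynomial.X : Polynomial ℝ) •
    ((1 - LinearMap.toMatrix (EuclideanSpace.basisFun (Fin n) ℝ).toBasis
      (EuclideanSpace.basisFun (Fin n) ℝ).toBasis (A : E n →ₗ[ℝ] E n) :
        Matrix (Fin n) (Fin n) ℝ).map Polynomial.C) +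
    (LinearMap.toMatrix (EuclideanSpace.basisFun (Fin n) ℝ).toBasis
      (EuclideanSpace.basisFun (Fin n) ℝ).toBasis (A : E n →ₗ[ℝ] E n)).map Polynomial.C)

lemma natDegree_detPoly (A : E n →L[ℝ] E n) : (detPoly A).natDegree ≤ n := by
  have := Polynomial.natDegree_det_X_add_C_le
    (1 - LinearMap.toMatrix (EuclideanSpace.basisFun (Fin n) ℝ).toBasis
      (EuclideanSpace.basisFun (Fin n) ℝ).toBasis (A : E n →ₗ[ℝ] E n) :
        Matrix (Fin n) (Fin n) ℝ)
    (LinearMap.toMatrix (EuclideanSpace.basisFun (Fin n) ℝ).toBasis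
      (EuclideanSpace.basisFun (Fin n) ℝ).toBasis (A : E n →ₗ[ℝ] E n))
  rw [Fintype.card_fin] at this
  exact this

lemma eval_detPoly (A : E n →L[ℝ] E n) (s : ℝ) : (detPoly A).eval s = (M A s).det := by
  unfold detPoly
  rw [← Polynomial.coe_evalRingHom, RingHom.map_det]
  have h1 : (M A s).det = LinearMap.det ((M A s : E n →L[ℝ] E n) : E n →ₗ[ℝ] E n) := rfl
  rw [h1, ← LinearMap.det_toMatrix (EuclideanSpace.basisFun (Fin n) ℝ).toBasis]
  congr 1
  have h2 : ((M A s : E n →L[ℝ] E n) : E n →ₗ[ℝ] E n) =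
      s • LinearMap.id + (1 - s) • (A : E n →ₗ[ℝ] E n) := by
    ext v; simp [M]
  have h3 : LinearMap.toMatrix (EuclideanSpace.basisFun (Fin n) ℝ).toBasis
      (EuclideanSpace.basisFun (Fin n) ℝ).toBasis (s • LinearMap.id +
        (1 - s) • (A : E n →ₗ[ℝ] E n)) = s • (1 : Matrix (Fin n) (Fin n) ℝ) + (1 - s) •
      LinearMap.toMatrix (EuclideanSpace.basisFun (Fin n) ℝ).toBasis
      (EuclideanSpace.basisFun (Fin n) ℝ).toBasis (A : E n →ₗ[ℝ] E n) := by
    rw [map_add, map_smul, map_smul, LinearMap.toMatrix_id]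
  rw [h2, h3]
  ext i j
  simp only [RingHom.mapMatrix_apply, Matrix.map_apply, Matrix.add_apply, Matrix.smul_apply,
    Matrix.sub_apply, smul_eq_mul, Polynomial.coe_evalRingHom, Polynomial.eval_add,
    Polynomial.eval_mul, Polynomial.eval_X, Polynomial.eval_C]
  ring

lemma volume_image_null (f : E n → E n) {C : NNReal} (hf : LipschitzWith C f) {N : Set (E n)}
    (hN : volume N = 0) : volume (f '' N) = 0 := by
  have hac : (volume : Measure (E n)) ≪ (μH[Module.finrank ℝ (E n)] : Measure (E n)) :=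
    Measure.absolutelyContinuous_isAddHaarMeasure _ _
  have hac' : (μH[Module.finrank ℝ (E n)] : Measure (E n)) ≪ (volume : Measure (E n)) :=
    Measure.absolutelyContinuous_isAddHaarMeasure _ _
  apply hac
  have h1 := hf.hausdorffMeasure_image_le (d := Module.finrank ℝ (E n)) (by positivity) N
  rw [hac' hN, mul_zero] at h1
  exact le_antisymm h1 bot_le

/-- Change of variables for parallel bodies. -/
lemma volume_thick {L : Set (E n)} (hc : IsCompact L) {p : E n → E n} (h : IsNear L p) {s : ℝ}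
    (hs : 0 < s) :
    volume (L + closedBall (0 : E n) s) =
      ∫⁻ x in (L + closedBall (0 : E n) 1) ∩ {x | DifferentiableAt ℝ p x},
        ENNReal.ofReal (M (fderiv ℝ p x) s).det := by
  set D := L + closedBall (0 : E n) 1 with hD
  have hDm : MeasurableSet D := (hc.add (isCompact_closedBall _ _)).measurableSet
  set N := {x | DifferentiableAt ℝ p x} with hN
  have hNm : MeasurableSet N := measurableSet_of_differentiableAt ℝ p
  have hNc : volume Nᶜ = 0 := by
    have := (lip h).ae_differentiableAt (μ := volume)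
    exact this
  have hlip : LipschitzWith (Real.nnabs s + Real.nnabs (1 - s)) (Phi p s) := by
    have h1 : LipschitzWith (Real.nnabs s) (fun x : E n => s • x) := by
      apply LipschitzWith.of_dist_le_mul
      intro x y
      rw [dist_smul₀]; simp
    have h2 : LipschitzWith (Real.nnabs (1 - s)) (fun x : E n => (1 - s) • p x) := by
      apply LipschitzWith.of_dist_le_mul
      intro x y
      rw [dist_smul₀]
      have := (lip h).dist_le_mul x y
      simp only [NNReal.coe_one, one_mul, Real.coe_nnabs, Real.norm_eq_abs] at this ⊢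
      exact mul_le_mul_of_nonneg_left this (abs_nonneg _)
    exact h1.add h2
  rw [← Phi_image h hs, ← hD]
  have hsplit : Phi p s '' D = Phi p s '' (D ∩ N) ∪ Phi p s '' (D ∩ Nᶜ) := by
    rw [← image_union, inter_union_compl]
  have hnull : volume (Phi p s '' (D ∩ Nᶜ)) = 0 :=
    volume_image_null _ hlip (measure_mono_null inter_subset_right hNc)
  have h1 : volume (Phi p s '' D) = volume (Phi p s '' (D ∩ N)) := by
    rw [hsplit]
    exact le_antisymm ((measure_union_le _ _).trans (by rw [hnull, add_zero]))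
      (measure_mono subset_union_left)
  rw [h1, ← lintegral_abs_det_fderiv_eq_addHaar_image volume (hDm.inter hNm)
      (f' := fun x => M (fderiv ℝ p x) s) ?_ ((Phi_inj h hs).injOn)]
  · refine setLIntegral_congr_fun (hDm.inter hNm) fun x hx => ?_
    have hx2 : DifferentiableAt ℝ p x := hx.2
    rw [abs_of_pos (det_pos (deriv_firm h hx2) hs)]
  · intro x hx
    have hx2 : DifferentiableAt ℝ p x := hx.2
    apply HasFDerivAt.hasFDerivWithinAt
    have h1 := ((hasFDerivAt_id (𝕜 := ℝ) x).const_smul s).add (hx2.hasFDerivAt.const_smul (1 - s))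
    exact h1

lemma measurable_det (p : E n → E n) (s : ℝ) :
    Measurable fun x => (M (fderiv ℝ p x) s).det := by
  have h1 : Measurable (fderiv ℝ p) := measurable_fderiv ℝ p
  have h2 : Continuous fun A : E n →L[ℝ] E n => (M A s).det := by
    refine ContinuousLinearMap.continuous_det.comp ?_
    unfold M; fun_prop
  exact h2.measurable.comp h1

/-- Steiner's formula for an arbitrary compact convex set. -/
theorem steiner {L : Set (E n)} (hc : IsCompact L) (hv : Convex ℝ L) (hn : L.Nonempty) :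
    ∃ c : ℕ → ℝ, ∀ t : ℝ, 0 ≤ t → (volume (L + closedBall (0 : E n) t)).toReal =
      ∑ m ∈ Finset.range (n + 1), c m * t ^ m := by
  obtain ⟨p, hp⟩ := exists_near hc hv hn
  set D := (L + closedBall (0 : E n) 1) ∩ {x | DifferentiableAt ℝ p x} with hD
  have hDm : MeasurableSet D :=
    ((hc.add (isCompact_closedBall _ _)).measurableSet).inter (measurableSet_of_differentiableAt ℝ p)
  have hfin : ∀ t : ℝ, volume (L + closedBall (0 : E n) t) < ⊤ := fun t =>
    (hc.add (isCompact_closedBall _ _)).measure_lt_top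
  have hnn : ∀ s : ℝ, 0 < s → 0 ≤ᵐ[volume.restrict D] fun x => (M (fderiv ℝ p x) s).det := by
    intro s hs
    rw [Filter.EventuallyLE, ae_restrict_iff' hDm]
    refine Filter.Eventually.of_forall fun x hx => ?_
    exact (det_pos (deriv_firm hp hx.2) hs).le
  have hint : ∀ s : ℝ, 0 < s → IntegrableOn (fun x => (M (fderiv ℝ p x) s).det) D := by
    intro s hs
    refine ⟨(measurable_det p s).aestronglyMeasurable, ?_⟩
    rw [hasFiniteIntegral_iff_ofReal (hnn s hs), ← volume_thick hc hp hs]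
    exact hfin s
  have hV : ∀ s : ℝ, 0 < s → (volume (L + closedBall (0 : E n) s)).toReal =
      ∫ x in D, (M (fderiv ℝ p x) s).det := by
    intro s hs
    rw [volume_thick hc hp hs,
      integral_eq_lintegral_of_nonneg_ae (hnn s hs) (measurable_det p s).aestronglyMeasurable]
  -- interpolation nodes
  let v : Fin (n + 1) → ℝ := fun i => (i : ℝ) + 1
  have hvpos : ∀ i, 0 < v i := fun i => by positivity
  have hvinj : Set.InjOn v (Finset.univ : Finset (Fin (n + 1))) := by
    intro i _ j _ hij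
    have : (i : ℝ) = j := by simpa [v] using hij
    exact Fin.ext (by exact_mod_cast this)
  have hinterp : ∀ A : E n →L[ℝ] E n, ∀ s : ℝ, (M A s).det =
      ∑ i : Fin (n + 1), (M A (v i)).det * (Lagrange.basis Finset.univ v i).eval s := by
    intro A s
    have hdeg : (detPoly A).degree < (Finset.univ : Finset (Fin (n + 1))).card := by
      rw [Finset.card_univ, Fintype.card_fin]
      refine lt_of_le_of_lt Polynomial.degree_le_natDegree ?_
      have := natDegree_detPoly A
      exact_mod_cast Nat.lt_succ_of_le this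
    have h1 := Lagrange.eq_interpolate hvinj hdeg
    rw [← eval_detPoly, h1, Lagrange.interpolate_apply, Polynomial.eval_finsetSum]
    refine Finset.sum_congr rfl fun i _ => ?_
    rw [Polynomial.eval_mul, Polynomial.eval_C, eval_detPoly]
  set V : ℝ → ℝ := fun s => (volume (L + closedBall (0 : E n) s)).toReal with hVdef
  have hVs : ∀ s : ℝ, 0 < s → V s =
      ∑ i : Fin (n + 1), V (v i) * (Lagrange.basis Finset.univ v i).eval s := by
    intro s hs
    have h1 : V s = ∫ x in D, ∑ i : Fin (n + 1), (M (fderiv ℝ p x) (v i)).det *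
        (Lagrange.basis Finset.univ v i).eval s := by
      rw [hVdef]
      simp only
      rw [hV s hs]
      refine integral_congr_ae (Filter.Eventually.of_forall fun x => ?_)
      exact hinterp _ s
    rw [h1, integral_finsetSum]
    · refine Finset.sum_congr rfl fun i _ => ?_
      rw [integral_mul_const, ← hV (v i) (hvpos i)]
    · intro i _
      exact (hint (v i) (hvpos i)).mul_const _
  -- the polynomial
  let Q : Polynomial ℝ := ∑ i : Fin (n + 1), Polynomial.C (V (v i)) * Lagrange.basis Finset.univ v i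
  have hQ : ∀ s : ℝ, 0 < s → V s = Q.eval s := by
    intro s hs
    rw [hVs s hs, Polynomial.eval_finsetSum]
    refine Finset.sum_congr rfl fun i _ => ?_
    rw [Polynomial.eval_mul, Polynomial.eval_C]
  have hQdeg : Q.natDegree < n + 1 := by
    refine Nat.lt_succ_of_le (Polynomial.natDegree_sum_le_of_forall_le _ _ fun i _ => ?_)
    refine (Polynomial.natDegree_C_mul_le _ _).trans ?_
    have h1 := Lagrange.degree_basis hvinj (Finset.mem_univ i)
    rw [Finset.card_univ, Fintype.card_fin, Nat.add_sub_cancel] at h1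
    exact (Polynomial.natDegree_eq_of_degree_eq_some h1).le
  -- continuity at zero
  have h0 : V 0 = Q.eval 0 := by
    have t1 : Tendsto (fun s : ℝ => Q.eval s) (𝓝[>] 0) (𝓝 (Q.eval 0)) :=
      (Q.continuous.tendsto 0).mono_left nhdsWithin_le_nhds
    have t2 : Tendsto V (𝓝[>] 0) (𝓝 (V 0)) := by
      have h1 : Tendsto (fun r => volume (cthickening r L)) (𝓝 0) (𝓝 (volume L)) :=
        tendsto_measure_cthickening_of_isCompact hc
      have h2 : Tendsto (fun r => (volume (cthickening r L)).toReal) (𝓝[>] 0)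
          (𝓝 (volume L).toReal) :=
        (ENNReal.tendsto_toReal hc.measure_lt_top.ne).comp (h1.mono_left nhdsWithin_le_nhds)
      have h3 : V 0 = (volume L).toReal := by
        rw [hVdef]; simp
      rw [h3]
      refine h2.congr' ?_
      filter_upwards [self_mem_nhdsWithin] with s hs
      have hs' : (0:ℝ) < s := hs
      rw [hVdef]
      simp only
      rw [hc.add_closedBall_zero hs'.le]
    have t3 : Tendsto V (𝓝[>] 0) (𝓝 (Q.eval 0)) := by
      refine t1.congr' ?_
      filter_upwards [self_mem_nhdsWithin] with s hs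
      exact (hQ s hs).symm
    exact tendsto_nhds_unique t2 t3
  refine ⟨fun m => Q.coeff m, fun t ht => ?_⟩
  have h1 : V t = Q.eval t := by
    rcases ht.eq_or_lt with rfl | ht
    · exact h0
    · exact hQ t ht
  rw [← Polynomial.eval_eq_sum_range' hQdeg, ← h1]

end Pool.Agent.Helper98.Near
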