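import Mathlib
import Pool.Agent.Helper98.Near

open MeasureTheory Set Metric Filter Topology
open scoped Pointwise RealInnerProductSpace ENNReal

namespace Pool.Agent.Helper98.Mean

open Pool.Agent.Helper98.Near

/-- `h` is the support function of `L` -/
structure IsSupp (L : Set (E 4)) (h : E 4 → ℝ) : Prop where
  le : ∀ x, ∀ l ∈ L, ⟪l, x⟫ ≤ h x
  att : ∀ x, ∃ l ∈ L, ⟪l, x⟫ = h x

abbrev Sp := sphere (0 : E 4) 1

/-- open star body with radial function `φ`, centre removed -/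
def A (φ : Sp → ℝ) : Set (E 4) :=
  {y | ∃ hy : y ∈ ({0}ᶜ : Set (E 4)), ‖y‖ < φ (homeomorphUnitSphereProd (E 4) ⟨y, hy⟩).1}

lemma volume_A {φ : Sp → ℝ} (hφ : Measurable φ) (hpos : ∀ θ, 0 < φ θ) :
    volume (A φ) = ∫⁻ θ, ENNReal.ofReal (φ θ ^ 4 / 4) ∂((volume : Measure (E 4)).toSphere) := by
  have hA : A φ = (↑) '' {z : ({0}ᶜ : Set (E 4)) | ‖(z : E 4)‖ <
      φ (homeomorphUnitSphereProd (E 4) z).1} := by
    ext y
    constructor
    · rintro ⟨hy, h⟩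
      exact ⟨⟨y, hy⟩, h, rfl⟩
    · rintro ⟨z, h, rfl⟩
      exact ⟨z.2, h⟩
  rw [hA, ← comap_subtype_coe_apply (measurableSet_singleton _).compl]
  have hS : MeasurableSet {p : Sp × Ioi (0:ℝ) | p.2.1 < φ p.1} :=
    measurableSet_lt (measurable_subtype_coe.comp measurable_snd) (hφ.comp measurable_fst)
  have hT : {z : ({0}ᶜ : Set (E 4)) | ‖(z : E 4)‖ < φ (homeomorphUnitSphereProd (E 4) z).1} =
      homeomorphUnitSphereProd (E 4) ⁻¹' {p : Sp × Ioi (0:ℝ) | p.2.1 < φ p.1} := by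
    ext z
    simp
  rw [hT, (Measure.measurePreserving_homeomorphUnitSphereProd
    (volume : Measure (E 4))).measure_preimage hS.nullMeasurableSet, Measure.prod_apply hS]
  refine lintegral_congr fun θ => ?_
  have h1 : Prod.mk θ ⁻¹' {p : Sp × Ioi (0:ℝ) | p.2.1 < φ p.1} = Iio ⟨φ θ, mem_Ioi.2 (hpos θ)⟩ := by
    ext r
    simp only [mem_preimage, mem_ofPred_eq, mem_Iio]
    exact Iff.rfl
  have h2 : Module.finrank ℝ (E 4) - 1 = 3 := by simp
  rw [h1, h2, Measure.volumeIoiPow_apply_Iio]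
  norm_num

lemma dir (y : E 4) (hy : y ∈ ({0}ᶜ : Set (E 4))) :
    ((homeomorphUnitSphereProd (E 4) ⟨y, hy⟩).1 : E 4) = ‖y‖⁻¹ • y := by
  simp

lemma upper {L : Set (E 4)} {h : E 4 → ℝ} (hs : IsSupp L h) {t : ℝ} (ht : 0 < t) :
    L + closedBall (0 : E 4) t ⊆ {0} ∪ A fun θ => t + h θ + 1 / t := by
  intro y hy
  obtain ⟨l, hl, b, hb, rfl⟩ := Set.mem_add.1 hy
  rw [mem_closedBall_zero_iff] at hb
  by_cases h0 : l + b = 0
  · left; exact h0
  right
  have hy : l + b ∈ ({0}ᶜ : Set (E 4)) := h0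
  refine ⟨hy, ?_⟩
  show ‖l + b‖ < t + h ((homeomorphUnitSphereProd (E 4) ⟨l + b, hy⟩).1 : E 4) + 1 / t
  rw [dir]
  set y := l + b with hydef
  have hn : 0 < ‖y‖ := norm_pos_iff.2 h0
  have h1 := hs.le (‖y‖⁻¹ • y) l hl
  have h2 : ⟪b, ‖y‖⁻¹ • y⟫ ≤ t := by
    refine (real_inner_le_norm _ _).trans ?_
    rw [norm_smul, norm_inv, norm_norm, inv_mul_cancel₀ hn.ne', mul_one]
    exact hb
  have h3 : ‖y‖ = ⟪l, ‖y‖⁻¹ • y⟫ + ⟪b, ‖y‖⁻¹ • y⟫ := by
    rw [← inner_add_left, ← hydef, inner_smul_right, real_inner_self_eq_norm_sq]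
    field_simp
  have h4 : 0 < 1 / t := by positivity
  linarith

lemma lower {L : Set (E 4)} {h : E 4 → ℝ} (hs : IsSupp L h) {R : ℝ} (hR : ∀ l ∈ L, ‖l‖ ≤ R)
    {t : ℝ} (ht : 0 < t) (htR : R ≤ t) :
    (A fun θ => t + h θ - R ^ 2 / t) ⊆ L + closedBall (0 : E 4) t := by
  rintro y ⟨hy, hlt⟩
  have hn : 0 < ‖y‖ := norm_pos_iff.2 hy
  replace hlt : ‖y‖ < t + h ((homeomorphUnitSphereProd (E 4) ⟨y, hy⟩).1 : E 4) - R ^ 2 / t := hlt
  rw [dir] at hlt
  obtain ⟨l, hl, hlx⟩ := hs.att (‖y‖⁻¹ • y)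
  rw [← hlx] at hlt
  have hRl := hR l hl
  have hR0 : 0 ≤ R := (norm_nonneg _).trans hRl
  refine Set.mem_add.2 ⟨l, hl, y - l, ?_, by abel⟩
  rw [mem_closedBall_zero_iff]
  set k := ⟪l, ‖y‖⁻¹ • y⟫ with hk
  have h1 : ‖y - l‖ ^ 2 = ‖y‖ ^ 2 - 2 * (‖y‖ * k) + ‖l‖ ^ 2 := by
    rw [norm_sub_sq_real, hk, inner_smul_right, real_inner_comm y l]
    field_simp
  have h2 : ‖l‖ ^ 2 ≤ R ^ 2 := pow_le_pow_left₀ (norm_nonneg _) hRl 2
  have h3 : ‖y - l‖ ^ 2 ≤ t ^ 2 := by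
    rw [h1]
    have e1 : ‖y‖ ^ 2 - 2 * (‖y‖ * k) + ‖l‖ ^ 2 = (‖y‖ - k) ^ 2 - k ^ 2 + ‖l‖ ^ 2 := by ring
    rw [e1]
    rcases le_total k ‖y‖ with hc | hc
    · have h4 : ‖y‖ - k ≤ t - R ^ 2 / t := by linarith
      have h5 : (‖y‖ - k) ^ 2 ≤ (t - R ^ 2 / t) ^ 2 :=
        pow_le_pow_left₀ (sub_nonneg.2 hc) h4 2
      have h6 : (t - R ^ 2 / t) ^ 2 = t ^ 2 - 2 * R ^ 2 + R ^ 2 * (R ^ 2 / t ^ 2) := by
        field_simp
        ring
      have h7 : R ^ 2 / t ^ 2 ≤ 1 := by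
        rw [div_le_one (by positivity)]
        exact pow_le_pow_left₀ hR0 htR 2
      have h8 : R ^ 2 * (R ^ 2 / t ^ 2) ≤ R ^ 2 * 1 := mul_le_mul_of_nonneg_left h7 (sq_nonneg _)
      nlinarith [sq_nonneg k]
    · have h5 : (‖y‖ - k) ^ 2 ≤ k ^ 2 := by nlinarith
      have h6 : R ^ 2 ≤ t ^ 2 := pow_le_pow_left₀ hR0 htR 2
      linarith
  exact le_of_sq_le_sq h3 ht.le

lemma IsSupp.bound {L : Set (E 4)} {h : E 4 → ℝ} (hs : IsSupp L h) {R : ℝ}
    (hR : ∀ l ∈ L, ‖l‖ ≤ R) (x : E 4) : |h x| ≤ R * ‖x‖ := by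
  obtain ⟨l, hl, hlx⟩ := hs.att x
  rw [← hlx]
  exact (abs_real_inner_le_norm _ _).trans (mul_le_mul_of_nonneg_right (hR l hl) (norm_nonneg _))

lemma IsSupp.continuous {L : Set (E 4)} {h : E 4 → ℝ} (hs : IsSupp L h) {R : ℝ}
    (hR : ∀ l ∈ L, ‖l‖ ≤ R) : Continuous h := by
  have hR0 : 0 ≤ R := by
    obtain ⟨l, hl, -⟩ := hs.att 0
    exact (norm_nonneg _).trans (hR l hl)
  have key : ∀ x y, h x - h y ≤ R * ‖x - y‖ := by
    intro x y
    obtain ⟨l, hl, hlx⟩ := hs.att x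
    have h1 := hs.le y l hl
    have h2 : ⟪l, x - y⟫ ≤ R * ‖x - y‖ :=
      (real_inner_le_norm _ _).trans (mul_le_mul_of_nonneg_right (hR l hl) (norm_nonneg _))
    rw [inner_sub_right] at h2
    linarith
  have : LipschitzWith (Real.toNNReal R) h := by
    apply LipschitzWith.of_dist_le_mul
    intro x y
    rw [Real.dist_eq, dist_eq_norm, Real.coe_toNNReal R hR0, abs_le]
    have h1 := key x y
    have h2 := key y x
    rw [norm_sub_rev] at h2
    constructor <;> linarith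
  exact this.continuous

lemma ptwise {R a h t : ℝ} (hh : |h| ≤ R) (ha : |a| ≤ R ^ 2 + 1) (ht : 1 ≤ t) :
    |(t + h + a / t) ^ 4 / 4 - t ^ 4 / 4 - t ^ 3 * h| ≤
      (R ^ 2 + 1 + 3 / 2 * (R + R ^ 2 + 1) ^ 2 + (R + R ^ 2 + 1) ^ 3 + (R + R ^ 2 + 1) ^ 4 / 4)
        * t ^ 2 := by
  have t0 : 0 < t := by linarith
  have hR : 0 ≤ R := (abs_nonneg _).trans hh
  set Y := R + R ^ 2 + 1 with hY
  have hY0 : 0 ≤ Y := by positivity
  set y := h + a / t with hy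
  have hyY : |y| ≤ Y := by
    have h1 : |a / t| ≤ R ^ 2 + 1 := by
      rw [abs_div, abs_of_pos t0, div_le_iff₀ t0]
      nlinarith [sq_nonneg R]
    calc |y| ≤ |h| + |a / t| := abs_add_le _ _
      _ ≤ Y := by rw [hY]; linarith
  have e1 : (t + h + a / t) ^ 4 / 4 - t ^ 4 / 4 - t ^ 3 * h =
      a * t ^ 2 + 3 / 2 * (t ^ 2 * y ^ 2) + t * y ^ 3 + y ^ 4 / 4 := by
    have h1 : t + h + a / t = t + y := by rw [hy]; ring
    have h2 : a = t * (y - h) := by rw [hy]; field_simp; ring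
    rw [h1]
    conv_rhs => rw [h2]
    ring
  rw [e1]
  have b1 : |a * t ^ 2| ≤ (R ^ 2 + 1) * t ^ 2 := by
    rw [abs_mul, abs_of_nonneg (by positivity : (0:ℝ) ≤ t ^ 2)]
    exact mul_le_mul_of_nonneg_right ha (by positivity)
  have b2 : |3 / 2 * (t ^ 2 * y ^ 2)| ≤ 3 / 2 * Y ^ 2 * t ^ 2 := by
    rw [abs_of_nonneg (by positivity)]
    have : y ^ 2 ≤ Y ^ 2 := by rw [← sq_abs]; exact pow_le_pow_left₀ (abs_nonneg _) hyY 2
    nlinarith [sq_nonneg t]
  have b3 : |t * y ^ 3| ≤ Y ^ 3 * t ^ 2 := by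
    rw [abs_mul, abs_of_pos t0, abs_pow]
    have h1 : |y| ^ 3 ≤ Y ^ 3 := pow_le_pow_left₀ (abs_nonneg _) hyY 3
    have h2 : t ≤ t ^ 2 := by nlinarith
    calc t * |y| ^ 3 ≤ t ^ 2 * Y ^ 3 := by
          apply mul_le_mul h2 h1 (by positivity) (by positivity)
      _ = Y ^ 3 * t ^ 2 := by ring
  have b4 : |y ^ 4 / 4| ≤ Y ^ 4 / 4 * t ^ 2 := by
    rw [abs_of_nonneg (by positivity)]
    have h1 : y ^ 4 ≤ Y ^ 4 := by
      have : y ^ 4 = |y| ^ 4 := by rw [← abs_pow, abs_of_nonneg (by positivity)]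
      rw [this]; exact pow_le_pow_left₀ (abs_nonneg _) hyY 4
    have h2 : 1 ≤ t ^ 2 := by nlinarith
    have h3 : 0 ≤ Y ^ 4 := by positivity
    nlinarith
  calc |a * t ^ 2 + 3 / 2 * (t ^ 2 * y ^ 2) + t * y ^ 3 + y ^ 4 / 4|
      ≤ |a * t ^ 2| + |3 / 2 * (t ^ 2 * y ^ 2)| + |t * y ^ 3| + |y ^ 4 / 4| := by
        refine (abs_add_le _ _).trans ?_
        gcongr
        refine (abs_add_le _ _).trans ?_
        gcongr
        exact abs_add_le _ _
    _ ≤ _ := by nlinarith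

lemma int_bound {h : E 4 → ℝ} (hc : Continuous h) {R : ℝ} (hb : ∀ θ : Sp, |h θ| ≤ R)
    {a t : ℝ} (ha : |a| ≤ R ^ 2 + 1) (ht : 1 ≤ t) (hpos : ∀ θ : Sp, 0 < t + h θ + a / t) :
    |(volume (A fun θ => t + h θ + a / t)).toReal -
      ((volume : Measure (E 4)).toSphere.real univ) / 4 * t ^ 4 -
        (∫ θ, h θ ∂((volume : Measure (E 4)).toSphere)) * t ^ 3| ≤
      (R ^ 2 + 1 + 3 / 2 * (R + R ^ 2 + 1) ^ 2 + (R + R ^ 2 + 1) ^ 3 + (R + R ^ 2 + 1) ^ 4 / 4)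
        * ((volume : Measure (E 4)).toSphere.real univ) * t ^ 2 := by
  set σ := (volume : Measure (E 4)).toSphere with hσ
  have hcs : Continuous fun θ : Sp => h θ := hc.comp continuous_subtype_val
  have hcomp : CompactSpace Sp := isCompact_iff_compactSpace.1 (isCompact_sphere _ _)
  have hint : ∀ f : Sp → ℝ, Continuous f → Integrable f σ := by
    intro f hf
    exact hf.integrable_of_hasCompactSupport (HasCompactSupport.of_compactSpace f)
  have hφc : Continuous fun θ : Sp => t + h θ + a / t :=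
    (continuous_const.add hcs).add continuous_const
  rw [volume_A hφc.measurable hpos]
  have e1 : (∫⁻ θ, ENNReal.ofReal ((t + h θ + a / t) ^ 4 / 4) ∂σ).toReal =
      ∫ θ, (t + h θ + a / t) ^ 4 / 4 ∂σ := by
    have hnn : 0 ≤ᵐ[σ] fun θ : Sp => (t + h θ + a / t) ^ 4 / 4 :=
      Filter.Eventually.of_forall fun θ => by
        show (0:ℝ) ≤ (t + h θ + a / t) ^ 4 / 4
        positivity
    have hm : AEStronglyMeasurable (fun θ : Sp => (t + h θ + a / t) ^ 4 / 4) σ :=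
      ((hφc.pow 4).div_const 4).aestronglyMeasurable
    rw [integral_eq_lintegral_of_nonneg_ae hnn hm]
  rw [e1]
  have e2 : (∫ θ, (t + h θ + a / t) ^ 4 / 4 ∂σ) - σ.real univ / 4 * t ^ 4 -
      (∫ θ, h θ ∂σ) * t ^ 3 = ∫ θ, ((t + h θ + a / t) ^ 4 / 4 - t ^ 4 / 4 - t ^ 3 * h θ) ∂σ := by
    rw [integral_sub, integral_sub, integral_const, integral_const_mul, smul_eq_mul]
    · ring
    · exact hint _ ((hφc.pow 4).div_const 4)
    · exact integrable_const _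
    · exact (hint _ ((hφc.pow 4).div_const 4)).sub (integrable_const _)
    · exact (hint _ hcs).const_mul _
  rw [e2]
  have h3 := norm_integral_le_of_norm_le_const (μ := σ) (f := fun θ : Sp =>
    ((t + h θ + a / t) ^ 4 / 4 - t ^ 4 / 4 - t ^ 3 * h θ))
    (Filter.Eventually.of_forall fun θ => by
      rw [Real.norm_eq_abs]; exact ptwise (hb θ) ha ht)
  rw [Real.norm_eq_abs] at h3
  refine h3.trans (le_of_eq ?_)
  ring

/-- comparison of a polynomial of degree four with its two leading terms -/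
lemma coeff_of_bound {c : ℕ → ℝ} {κ I C t0 : ℝ}
    (h : ∀ t : ℝ, t0 ≤ t → |(∑ m ∈ Finset.range 5, c m * t ^ m) - κ * t ^ 4 - I * t ^ 3| ≤
      C * t ^ 2) : c 3 = I := by
  -- rewrite with s = 1 / t
  have hs : ∀ᶠ s : ℝ in 𝓝[>] 0, |(c 4 - κ) + (c 3 - I) * s + c 2 * s ^ 2 + c 1 * s ^ 3 +
      c 0 * s ^ 4| ≤ C * s ^ 2 := by
    have h1 : ∀ᶠ s : ℝ in 𝓝[>] 0, t0 ≤ s⁻¹ :=
      tendsto_inv_nhdsGT_zero.eventually (eventually_ge_atTop t0)
    filter_upwards [h1, self_mem_nhdsWithin] with s hs1 hs2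
    have hs0 : (0:ℝ) < s := hs2
    have h2 := h s⁻¹ hs1
    have e1 : (∑ m ∈ Finset.range 5, c m * s⁻¹ ^ m) - κ * s⁻¹ ^ 4 - I * s⁻¹ ^ 3 =
        ((c 4 - κ) + (c 3 - I) * s + c 2 * s ^ 2 + c 1 * s ^ 3 + c 0 * s ^ 4) / s ^ 4 := by
      simp only [Finset.sum_range_succ, Finset.sum_range_zero]
      field_simp
      ring
    rw [e1, abs_div, abs_of_pos (by positivity : (0:ℝ) < s ^ 4), div_le_iff₀ (by positivity)] at h2
    refine h2.trans (le_of_eq ?_)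
    field_simp
  have l1 : Tendsto (fun s : ℝ => |(c 4 - κ) + (c 3 - I) * s + c 2 * s ^ 2 + c 1 * s ^ 3 +
      c 0 * s ^ 4|) (𝓝[>] 0) (𝓝 |c 4 - κ|) := by
    have : Continuous fun s : ℝ => |(c 4 - κ) + (c 3 - I) * s + c 2 * s ^ 2 + c 1 * s ^ 3 +
      c 0 * s ^ 4| := by fun_prop
    have h1 := (this.tendsto 0).mono_left (nhdsWithin_le_nhds (s := Ioi 0))
    simpa using h1
  have l2 : Tendsto (fun s : ℝ => C * s ^ 2) (𝓝[>] 0) (𝓝 0) := by
    have : Continuous fun s : ℝ => C * s ^ 2 := by fun_prop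
    have h1 := (this.tendsto 0).mono_left (nhdsWithin_le_nhds (s := Ioi 0))
    simpa using h1
  have h4 : c 4 - κ = 0 := by
    have := le_of_tendsto_of_tendsto l1 l2 hs
    exact abs_eq_zero.1 (le_antisymm this (abs_nonneg _))
  have l3 : Tendsto (fun s : ℝ => |(c 3 - I) + c 2 * s + c 1 * s ^ 2 + c 0 * s ^ 3|) (𝓝[>] 0)
      (𝓝 |c 3 - I|) := by
    have : Continuous fun s : ℝ => |(c 3 - I) + c 2 * s + c 1 * s ^ 2 + c 0 * s ^ 3| := by fun_prop
    have h1 := (this.tendsto 0).mono_left (nhdsWithin_le_nhds (s := Ioi 0))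
    simpa using h1
  have l4 : Tendsto (fun s : ℝ => C * s) (𝓝[>] 0) (𝓝 0) := by
    have : Continuous fun s : ℝ => C * s := by fun_prop
    have h1 := (this.tendsto 0).mono_left (nhdsWithin_le_nhds (s := Ioi 0))
    simpa using h1
  have h5 : |c 3 - I| ≤ 0 := by
    refine le_of_tendsto_of_tendsto l3 l4 ?_
    filter_upwards [hs, self_mem_nhdsWithin] with s hs1 hs2
    have hs0 : (0:ℝ) < s := hs2
    have e1 : (c 4 - κ) + (c 3 - I) * s + c 2 * s ^ 2 + c 1 * s ^ 3 + c 0 * s ^ 4 =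
        s * ((c 3 - I) + c 2 * s + c 1 * s ^ 2 + c 0 * s ^ 3) := by rw [h4]; ring
    rw [e1, abs_mul, abs_of_pos hs0] at hs1
    have h6 : s * |c 3 - I + c 2 * s + c 1 * s ^ 2 + c 0 * s ^ 3| ≤ s * (C * s) := by
      refine hs1.trans (le_of_eq ?_); ring
    exact le_of_mul_le_mul_left h6 hs0
  have h6 : c 3 - I = 0 := abs_eq_zero.1 (le_antisymm h5 (abs_nonneg _))
  linarith

/-- The Steiner coefficient of index three in dimension four is the integral of the support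
function over the sphere. -/
theorem coeff_three {L : Set (E 4)} (hcL : IsCompact L) {h : E 4 → ℝ} (hs : IsSupp L h)
    {c : ℕ → ℝ} (hc : ∀ t : ℝ, 0 ≤ t → (volume (L + closedBall (0 : E 4) t)).toReal =
      ∑ m ∈ Finset.range 5, c m * t ^ m) :
    c 3 = ∫ θ : Sp, h θ ∂((volume : Measure (E 4)).toSphere) := by
  obtain ⟨R, hR⟩ : ∃ R, ∀ l ∈ L, ‖l‖ ≤ R := by
    obtain ⟨R, hR⟩ := hcL.isBounded.subset_closedBall 0
    exact ⟨R, fun l hl => by simpa using hR hl⟩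
  have hR0 : 0 ≤ R := by
    obtain ⟨l, hl, -⟩ := hs.att 0
    exact (norm_nonneg _).trans (hR l hl)
  have hcont := hs.continuous hR
  have hb : ∀ θ : Sp, |h θ| ≤ R := by
    intro θ
    have h1 := hs.bound hR θ
    have h2 : ‖(θ : E 4)‖ = 1 := by simp
    rwa [h2, mul_one] at h1
  have hfin : ∀ t : ℝ, volume (L + closedBall (0 : E 4) t) < ⊤ := fun t =>
    (hcL.add (isCompact_closedBall _ _)).measure_lt_top
  refine coeff_of_bound (t0 := 2 * R + 2)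
    (κ := ((volume : Measure (E 4)).toSphere.real univ) / 4)
    (C := (R ^ 2 + 1 + 3 / 2 * (R + R ^ 2 + 1) ^ 2 + (R + R ^ 2 + 1) ^ 3 +
      (R + R ^ 2 + 1) ^ 4 / 4) * ((volume : Measure (E 4)).toSphere.real univ)) ?_
  intro t ht
  have t1 : 1 ≤ t := by linarith
  have t0 : 0 < t := by linarith
  rw [← hc t t0.le]
  have hdiv : R ^ 2 / t ≤ R / 2 := by
    rw [div_le_div_iff₀ t0 (by norm_num)]
    nlinarith
  have hposm : ∀ θ : Sp, 0 < t + h θ + (-(R ^ 2)) / t := by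
    intro θ
    have := (abs_le.1 (hb θ)).1
    rw [neg_div]
    linarith
  have hposp : ∀ θ : Sp, 0 < t + h θ + 1 / t := by
    intro θ
    have := (abs_le.1 (hb θ)).1
    have : 0 < 1 / t := by positivity
    linarith
  have bp := int_bound hcont hb (a := 1) (t := t) (by rw [abs_one]; nlinarith) t1 hposp
  have bm := int_bound hcont hb (a := -(R ^ 2)) (t := t)
    (by rw [abs_neg, abs_of_nonneg (sq_nonneg R)]; linarith) t1 hposm
  have hAfin : volume (A fun θ => t + h θ + 1 / t) < ⊤ := by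
    refine lt_of_le_of_lt (measure_mono ?_)
      (isCompact_closedBall (0 : E 4) (t + R + 1 / t)).measure_lt_top
    rintro y ⟨hy, hlt⟩
    rw [mem_closedBall_zero_iff]
    have := (abs_le.1 (hb (homeomorphUnitSphereProd (E 4) ⟨y, hy⟩).1)).2
    linarith
  have u1 : (volume (L + closedBall (0 : E 4) t)).toReal ≤
      (volume (A fun θ => t + h θ + 1 / t)).toReal := by
    apply ENNReal.toReal_mono hAfin.ne
    refine (measure_mono (upper hs t0)).trans ?_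
    refine (measure_union_le _ _).trans ?_
    rw [measure_singleton, zero_add]
  have u2 : (volume (A fun θ => t + h θ + (-(R ^ 2)) / t)).toReal ≤
      (volume (L + closedBall (0 : E 4) t)).toReal := by
    apply ENNReal.toReal_mono (hfin t).ne
    refine measure_mono ?_
    have := lower hs hR t0 (by linarith : R ≤ t)
    simpa only [neg_div, sub_eq_add_neg] using this
  rw [abs_le] at bp bm ⊢
  constructor
  · linarith [bm.1]
  · linarith [bp.2]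

end Pool.Agent.Helper98.Mean
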