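import Mathlib
import Pool.Agent.Helper98.Near

open MeasureTheory Set Metric Filter Topology
open scoped Pointwise RealInnerProductSpace ENNReal

namespace Pool.Agent.Helper98.Thin

open Pool.Agent.Helper98.Near

/-- Slab of the cylinder over `X` in direction `u`. -/
def Z {n : ℕ} (g : E n →L[ℝ] ℝ) (u : E n) (X : Set (E n)) : Set (E n) :=
  {y | |g y| ≤ 1 ∧ ∃ τ : ℝ, y + τ • u ∈ X}

variable {n : ℕ}

lemma vol_Z (g1 g2 : E n →L[ℝ] ℝ) (u : E n) (X : Set (E n)) (h2 : g2 u = 1) (h1 : g1 u ≠ 0) :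
    volume (Z g2 u X) = ENNReal.ofReal |g1 u| * volume (Z g1 u X) := by
  set f : Module.Dual ℝ (E n) := ((g1 : E n →ₗ[ℝ] ℝ) - (g2 : E n →ₗ[ℝ] ℝ)) with hf
  have hfy : ∀ y, f y = g1 y - g2 y := fun y => rfl
  have himg : Z g2 u X = LinearMap.transvection f u '' Z g1 u X := by
    ext z
    constructor
    · rintro ⟨hz, τ, hτ⟩
      set c := (g2 z - g1 z) / g1 u with hc
      have hg1 : g1 (z + c • u) = g2 z := by
        rw [map_add, map_smul, smul_eq_mul, hc]
        field_simp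
        ring
      refine ⟨z + c • u, ⟨by rw [hg1]; exact hz, τ - c, ?_⟩, ?_⟩
      · have : z + c • u + (τ - c) • u = z + τ • u := by module
        rw [this]; exact hτ
      · rw [LinearMap.transvection.apply, hfy, hg1, map_add, map_smul, h2, smul_eq_mul, mul_one]
        have : g2 z - (g2 z + c) = -c := by ring
        rw [this]
        module
    · rintro ⟨y, ⟨hy, τ, hτ⟩, rfl⟩
      rw [LinearMap.transvection.apply, hfy]
      refine ⟨?_, τ - (g1 y - g2 y), ?_⟩
      · rw [map_add, map_smul, h2, smul_eq_mul, mul_one]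
        have : g2 y + (g1 y - g2 y) = g1 y := by ring
        rw [this]; exact hy
      · have : y + (g1 y - g2 y) • u + (τ - (g1 y - g2 y)) • u = y + τ • u := by module
        rw [this]; exact hτ
  rw [himg, Measure.addHaar_image_linearMap, LinearMap.transvection.det, hfy, h2]
  congr 3
  ring

/-- the part of a cylinder at height at most `t` -/
lemma vol_scale {u : E n} (hu : ‖u‖ = 1) (X : Set (E n)) {t : ℝ} (ht : 0 < t) :
    volume {y : E n | |⟪u, y⟫| ≤ t ∧ ∃ τ : ℝ, y + τ • u ∈ X} =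
      ENNReal.ofReal t * volume (Z (innerSL ℝ u) u X) := by
  have h2 : innerSL ℝ u u = 1 := by
    rw [innerSL_apply_apply, real_inner_self_eq_norm_sq, hu]; norm_num
  have h1 : (t⁻¹ • innerSL ℝ u : E n →L[ℝ] ℝ) u = t⁻¹ := by
    rw [_root_.smul_apply, h2, smul_eq_mul, mul_one]
  have h3 := vol_Z (t⁻¹ • innerSL ℝ u) (innerSL ℝ u) u X h2 (by rw [h1]; exact (inv_pos.2 ht).ne')
  have hset : Z (t⁻¹ • innerSL ℝ u : E n →L[ℝ] ℝ) u X =
      {y : E n | |⟪u, y⟫| ≤ t ∧ ∃ τ : ℝ, y + τ • u ∈ X} := by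
    ext y
    unfold Z
    simp only [mem_ofPred_eq, _root_.smul_apply, innerSL_apply_apply, smul_eq_mul, abs_mul,
      abs_inv, abs_of_pos ht]
    rw [inv_mul_le_iff₀ ht, mul_one]
  rw [h3, hset, h1, abs_of_pos (inv_pos.2 ht), ← mul_assoc, ← ENNReal.ofReal_mul ht.le,
    mul_inv_cancel₀ ht.ne', ENNReal.ofReal_one, one_mul]

lemma isCompact_Z {u : E n} (hu : ‖u‖ = 1) {X : Set (E n)} (hX : IsCompact X) :
    IsCompact (Z (innerSL ℝ u) u X) := by
  have huu : ⟪u, u⟫ = 1 := by rw [real_inner_self_eq_norm_sq, hu]; norm_num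
  have himg : Z (innerSL ℝ u) u X =
      (fun q : E n × ℝ => q.1 - ⟪u, q.1⟫ • u + q.2 • u) '' (X ×ˢ Icc (-1) 1) := by
    ext y
    constructor
    · rintro ⟨hy, τ, hτ⟩
      rw [innerSL_apply_apply] at hy
      refine ⟨(y + τ • u, ⟪u, y⟫), ⟨hτ, abs_le.1 hy⟩, ?_⟩
      simp only [inner_add_right, inner_smul_right, huu]
      module
    · rintro ⟨⟨x, s⟩, ⟨hx, hs⟩, rfl⟩
      simp only at hx hs ⊢
      refine ⟨?_, ⟪u, x⟫ - s, ?_⟩
      · rw [innerSL_apply_apply, inner_add_right, inner_sub_right, inner_smul_right,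
          inner_smul_right, huu]
        have : ⟪u, x⟫ - ⟪u, x⟫ * 1 + s * 1 = s := by ring
        rw [this]; exact abs_le.2 hs
      · have : x - ⟪u, x⟫ • u + s • u + (⟪u, x⟫ - s) • u = x := by module
        rw [this]; exact hx
  rw [himg]
  exact (hX.prod isCompact_Icc).image (by fun_prop)

/-- The volume of a thin parallel body of a projection. -/
lemma tendsto_thin {u : E n} (hu : ‖u‖ = 1) {K L : Set (E n)} (hK : IsCompact K)
    (hL : L = {y | ⟪u, y⟫ = 0 ∧ ∃ τ : ℝ, y + τ • u ∈ K}) :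
    Tendsto (fun t : ℝ => (volume (L + closedBall (0 : E n) t)).toReal / t) (𝓝[>] 0)
      (𝓝 (volume (Z (innerSL ℝ u) u K)).toReal) := by
  have huu : ⟪u, u⟫ = 1 := by rw [real_inner_self_eq_norm_sq, hu]; norm_num
  set W := Z (innerSL ℝ u) u K with hW
  have hWc : IsCompact W := isCompact_Z hu hK
  have hlow : ∀ t : ℝ, 0 < t → (volume W).toReal ≤
      (volume (L + closedBall (0 : E n) t)).toReal / t := by
    intro t ht
    rw [le_div_iff₀ ht]
    have h1 := vol_scale hu K ht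
    have h2 : {y : E n | |⟪u, y⟫| ≤ t ∧ ∃ τ : ℝ, y + τ • u ∈ K} ⊆ L + closedBall (0 : E n) t := by
      rintro y ⟨hy, τ, hτ⟩
      refine Set.mem_add.2 ⟨y - ⟪u, y⟫ • u, ?_, ⟪u, y⟫ • u, ?_, by abel⟩
      · rw [hL]
        refine ⟨?_, τ + ⟪u, y⟫, ?_⟩
        · rw [inner_sub_right, inner_smul_right, huu]; ring
        · have : y - ⟪u, y⟫ • u + (τ + ⟪u, y⟫) • u = y + τ • u := by module
          rw [this]; exact hτ
      · rw [mem_closedBall_zero_iff, norm_smul, hu, mul_one]; exact hy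
    have h3 : volume (L + closedBall (0 : E n) t) ≠ ⊤ := by
      have hb : Bornology.IsBounded (L + closedBall (0 : E n) t) := by
        apply Bornology.IsBounded.add _ isBounded_closedBall
        have : L ⊆ W := by
          rw [hL]
          rintro y ⟨hy, hτ⟩
          refine ⟨?_, hτ⟩
          rw [innerSL_apply_apply, hy, abs_zero]; norm_num
        exact hWc.isBounded.subset this
      exact hb.measure_lt_top.ne
    have h4 := measure_mono (μ := volume) h2
    rw [h1] at h4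
    have h5 := ENNReal.toReal_mono h3 h4
    rw [ENNReal.toReal_mul, ENNReal.toReal_ofReal ht.le] at h5
    linarith
  have hupp : ∀ t : ℝ, 0 < t → (volume (L + closedBall (0 : E n) t)).toReal / t ≤
      (volume (cthickening t W)).toReal := by
    intro t ht
    rw [div_le_iff₀ ht]
    have h1 := vol_scale hu (K + closedBall (0 : E n) t) ht
    have h2 : L + closedBall (0 : E n) t ⊆
        {y : E n | |⟪u, y⟫| ≤ t ∧ ∃ τ : ℝ, y + τ • u ∈ K + closedBall (0 : E n) t} := by
      intro y hy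
      obtain ⟨l, hl, b, hb, rfl⟩ := Set.mem_add.1 hy
      rw [hL] at hl
      obtain ⟨hl0, τ, hτ⟩ := hl
      refine ⟨?_, τ, Set.mem_add.2 ⟨l + τ • u, hτ, b, hb, by abel⟩⟩
      rw [inner_add_right, hl0, zero_add]
      rw [mem_closedBall_zero_iff] at hb
      refine (abs_real_inner_le_norm _ _).trans ?_
      rw [hu, one_mul]; exact hb
    have h3 : Z (innerSL ℝ u) u (K + closedBall (0 : E n) t) ⊆ cthickening t W := by
      rintro y ⟨hy, τ, hτ⟩
      obtain ⟨k, hk, b, hb, hkb⟩ := Set.mem_add.1 hτ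
      rw [← hWc.add_closedBall_zero ht.le]
      rw [innerSL_apply_apply] at hy
      refine Set.mem_add.2 ⟨y - (b - ⟪u, b⟫ • u), ⟨?_, τ - ⟪u, b⟫, ?_⟩, b - ⟪u, b⟫ • u, ?_, by abel⟩
      · rw [innerSL_apply_apply, inner_sub_right, inner_sub_right, inner_smul_right, huu]
        have : ⟪u, y⟫ - (⟪u, b⟫ - ⟪u, b⟫ * 1) = ⟪u, y⟫ := by ring
        rw [this]; exact hy
      · have : y - (b - ⟪u, b⟫ • u) + (τ - ⟪u, b⟫) • u = k := by
          have h5 : y = k + b - τ • u := by rw [hkb]; abel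
          rw [h5]; module
        rw [this]; exact hk
      · rw [mem_closedBall_zero_iff] at hb ⊢
        have h5 : ‖b - ⟪u, b⟫ • u‖ ^ 2 ≤ ‖b‖ ^ 2 := by
          rw [norm_sub_sq_real, inner_smul_right, norm_smul, hu, real_inner_comm u b, mul_one,
            Real.norm_eq_abs, sq_abs]
          nlinarith [sq_nonneg ⟪u, b⟫]
        exact (le_of_sq_le_sq h5 (norm_nonneg _)).trans hb
    have h4 : volume (L + closedBall (0 : E n) t) ≤ ENNReal.ofReal t * volume (cthickening t W) := by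
      refine (measure_mono h2).trans ?_
      rw [h1]
      gcongr
    have h5 : ENNReal.ofReal t * volume (cthickening t W) ≠ ⊤ := by
      apply ENNReal.mul_ne_top ENNReal.ofReal_ne_top
      exact (hWc.cthickening).measure_lt_top.ne
    have h6 := ENNReal.toReal_mono h5 h4
    rw [ENNReal.toReal_mul, ENNReal.toReal_ofReal ht.le] at h6
    linarith
  have hlim : Tendsto (fun t : ℝ => (volume (cthickening t W)).toReal) (𝓝[>] 0)
      (𝓝 (volume W).toReal) := by
    have h1 : Tendsto (fun r => volume (cthickening r W)) (𝓝 0) (𝓝 (volume W)) :=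
      tendsto_measure_cthickening_of_isCompact hWc
    exact (ENNReal.tendsto_toReal hWc.measure_lt_top.ne).comp (h1.mono_left nhdsWithin_le_nhds)
  refine tendsto_of_tendsto_of_tendsto_of_le_of_le' tendsto_const_nhds hlim ?_ ?_
  · filter_upwards [self_mem_nhdsWithin] with t ht
    exact hlow t ht
  · filter_upwards [self_mem_nhdsWithin] with t ht
    exact hupp t ht

lemma coeff_one {c : ℕ → ℝ} {V : ℝ → ℝ} {w : ℝ} (hV : ∀ t : ℝ, 0 ≤ t → V t =
      ∑ m ∈ Finset.range 5, c m * t ^ m)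
    (hlim : Tendsto (fun t : ℝ => V t / t) (𝓝[>] 0) (𝓝 w)) : c 1 = w := by
  have h0 : c 0 = 0 := by
    have l1 : Tendsto (fun t : ℝ => t * (V t / t)) (𝓝[>] 0) (𝓝 (0 * w)) := by
      refine Tendsto.mul ?_ hlim
      exact tendsto_id.mono_left nhdsWithin_le_nhds
    have l2 : Tendsto (fun t : ℝ => ∑ m ∈ Finset.range 5, c m * t ^ m) (𝓝[>] 0) (𝓝 (c 0)) := by
      have : Continuous fun t : ℝ => ∑ m ∈ Finset.range 5, c m * t ^ m := by fun_prop
      have h1 := (this.tendsto 0).mono_left (nhdsWithin_le_nhds (s := Ioi 0))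
      simpa [Finset.sum_range_succ] using h1
    rw [zero_mul] at l1
    refine tendsto_nhds_unique l2 (l1.congr' ?_)
    filter_upwards [self_mem_nhdsWithin] with t ht
    have ht' : (0:ℝ) < t := ht
    rw [← hV t ht'.le]
    field_simp
  have l3 : Tendsto (fun t : ℝ => c 1 + c 2 * t + c 3 * t ^ 2 + c 4 * t ^ 3) (𝓝[>] 0)
      (𝓝 (c 1)) := by
    have : Continuous fun t : ℝ => c 1 + c 2 * t + c 3 * t ^ 2 + c 4 * t ^ 3 := by fun_prop
    have h1 := (this.tendsto 0).mono_left (nhdsWithin_le_nhds (s := Ioi 0))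
    simpa using h1
  refine tendsto_nhds_unique l3 (hlim.congr' ?_)
  filter_upwards [self_mem_nhdsWithin] with t ht
  have ht' : (0:ℝ) < t := ht
  rw [hV t ht'.le]
  simp only [Finset.sum_range_succ, Finset.sum_range_zero, h0]
  field_simp
  ring

end Pool.Agent.Helper98.Thin
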