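import Mathlib
import Pool.Agent.Helper98.Thin

open MeasureTheory Set Metric Filter Topology
open scoped Pointwise RealInnerProductSpace ENNReal

namespace Pool.Agent.Helper98.Shadow

open Pool.Agent.Helper98.Near Pool.Agent.Helper98.Thin

abbrev R2 := ℝ × ℝ

/-- area form -/
def cr (v q : R2) : ℝ := v.1 * q.2 - v.2 * q.1

/-- width of `A` across the direction `v`, times the length of `v` -/
noncomputable def om (A : Set R2) (v : R2) : ℝ≥0∞ := volume (cr v '' A)

/-- coordinate along `v` -/
noncomputable def lf (v q : R2) : ℝ := (v.1 * q.1 + v.2 * q.2) / (v.1 ^ 2 + v.2 ^ 2)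

lemma continuous_cr (v : R2) : Continuous (cr v) := by unfold cr; fun_prop

lemma continuous_lf (v : R2) : Continuous (lf v) := by unfold lf; fun_prop

lemma sq_pos {v : R2} (hv : v ≠ 0) : 0 < v.1 ^ 2 + v.2 ^ 2 := by
  by_contra hc
  push Not at hc
  apply hv
  have h1 : v.1 = 0 := by nlinarith [sq_nonneg v.1, sq_nonneg v.2]
  have h2 : v.2 = 0 := by nlinarith [sq_nonneg v.1, sq_nonneg v.2]
  exact Prod.ext h1 h2

lemma exists_Icc {S : Set ℝ} (hc : IsCompact S) (hv : Convex ℝ S) (hn : S.Nonempty) :
    ∃ x y, x ≤ y ∧ S = Icc x y := by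
  have h := eq_Icc_of_connected_compact ⟨hn, hv.isPreconnected⟩ hc
  obtain ⟨z, hz⟩ := hn
  exact ⟨_, _, (csInf_le hc.bddBelow hz).trans (le_csSup hc.bddAbove hz), h⟩

lemma vol_add_Icc {S : Set ℝ} (hc : IsCompact S) (hv : Convex ℝ S) (hn : S.Nonempty) {a b : ℝ}
    (hab : a ≤ b) : volume (S + Icc a b) = volume S + ENNReal.ofReal (b - a) := by
  obtain ⟨x, y, hxy, rfl⟩ := exists_Icc hc hv hn
  rw [Icc_add_Icc hxy hab, Real.volume_Icc, Real.volume_Icc,
    ← ENNReal.ofReal_add (sub_nonneg.2 hxy) (sub_nonneg.2 hab)]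
  congr 1; ring

/-- adding a horizontal segment -/
lemma vol_add_horiz {B : Set R2} (hc : IsCompact B) (hv : Convex ℝ B) {a b : ℝ} (hab : a ≤ b) :
    volume (B + Icc a b ×ˢ {(0:ℝ)}) =
      volume B + ENNReal.ofReal (b - a) * volume (Prod.snd '' B) := by
  have hc' : IsCompact (B + Icc a b ×ˢ {(0:ℝ)}) := hc.add (isCompact_Icc.prod isCompact_singleton)
  rw [Measure.volume_eq_prod, Measure.prod_apply_symm hc'.measurableSet,
    Measure.prod_apply_symm hc.measurableSet]
  have hsm : MeasurableSet (Prod.snd '' B) := (hc.image continuous_snd).measurableSet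
  have key : ∀ q : ℝ, volume ((fun x => (x, q)) ⁻¹' (B + Icc a b ×ˢ {(0:ℝ)})) =
      volume ((fun x => (x, q)) ⁻¹' B) +
        (Prod.snd '' B).indicator (fun _ => ENNReal.ofReal (b - a)) q := by
    intro q
    have hset : (fun x : ℝ => (x, q)) ⁻¹' (B + Icc a b ×ˢ {(0:ℝ)}) =
        (fun x : ℝ => (x, q)) ⁻¹' B + Icc a b := by
      ext x
      constructor
      · intro hx
        obtain ⟨p, hp, r, hr, hpr⟩ := Set.mem_add.1 (show (x, q) ∈ B + Icc a b ×ˢ {(0:ℝ)} from hx)
        obtain ⟨hr1, hr2⟩ := hr
        have hr2' : r.2 = 0 := hr2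
        have h2 : p.2 = q := by
          have := congrArg Prod.snd hpr
          simp only [Prod.snd_add, hr2', add_zero] at this
          exact this
        have h1 : p.1 + r.1 = x := congrArg Prod.fst hpr
        refine Set.mem_add.2 ⟨p.1, ?_, r.1, hr1, h1⟩
        show (p.1, q) ∈ B
        rw [← h2]; exact hp
      · intro hx
        obtain ⟨p, hp, r, hr, hpr⟩ := Set.mem_add.1 hx
        show (x, q) ∈ B + Icc a b ×ˢ {(0:ℝ)}
        refine Set.mem_add.2 ⟨(p, q), hp, (r, 0), ⟨hr, rfl⟩, ?_⟩
        rw [← hpr]; simp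
    by_cases hq : q ∈ Prod.snd '' B
    · rw [hset, indicator_of_mem hq, vol_add_Icc _ _ _ hab]
      · have : (fun x : ℝ => (x, q)) ⁻¹' B = Prod.fst '' (B ∩ {p | p.2 = q}) := by
          ext x
          constructor
          · intro hx; exact ⟨(x, q), ⟨hx, rfl⟩, rfl⟩
          · rintro ⟨p, ⟨hp, hp2⟩, rfl⟩
            have hp2' : p.2 = q := hp2
            show (p.1, q) ∈ B
            rw [← hp2']; exact hp
        rw [this]
        exact (hc.inter_right (isClosed_eq continuous_snd continuous_const)).image continuous_fst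
      · intro x hx y hy s t hs ht hst
        have := hv (show (x, q) ∈ B from hx) (show (y, q) ∈ B from hy) hs ht hst
        have e1 : s • (x, q) + t • (y, q) = (s • x + t • y, q) := by
          ext
          · rfl
          · simp only [Prod.smul_mk, Prod.mk_add_mk, smul_eq_mul]
            rw [← add_mul, hst, one_mul]
        rw [e1] at this
        exact this
      · obtain ⟨p, hp, rfl⟩ := hq
        exact ⟨p.1, hp⟩
    · have hemp : (fun x : ℝ => (x, q)) ⁻¹' B = ∅ := by
        rw [eq_empty_iff_forall_notMem]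
        intro x hx
        exact hq ⟨(x, q), hx, rfl⟩
      rw [hset, hemp, indicator_of_notMem hq, empty_add, measure_empty, add_zero]
  simp only [key]
  rw [lintegral_add_right _ (measurable_const.indicator hsm), lintegral_indicator_const hsm]

/-- adapted linear coordinates -/
noncomputable def fl (v : R2) : R2 →ₗ[ℝ] R2 :=
  Matrix.toLin (Module.Basis.finTwoProd ℝ) (Module.Basis.finTwoProd ℝ)
    !![v.1 / (v.1 ^ 2 + v.2 ^ 2), v.2 / (v.1 ^ 2 + v.2 ^ 2); -v.2, v.1]

lemma fl_apply (v q : R2) : fl v q = (lf v q, cr v q) := by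
  unfold fl
  rw [Matrix.toLin_finTwoProd_apply]
  unfold lf cr
  ext
  · simp only; ring
  · simp only; ring

lemma fl_self {v : R2} (hv : v ≠ 0) : fl v v = (1, 0) := by
  rw [fl_apply]
  have := sq_pos hv
  ext
  · unfold lf; simp only; field_simp
  · unfold cr; simp only; ring

lemma vol_fl {v : R2} (hv : v ≠ 0) (X : Set R2) : volume (fl v '' X) = volume X := by
  have h1 : LinearMap.det (fl v) = 1 := by
    have := sq_pos hv
    unfold fl
    rw [LinearMap.det_toLin, Matrix.det_fin_two_of]
    field_simp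
    ring
  rw [Measure.addHaar_image_linearMap, h1]
  simp

lemma lf_add_smul {v : R2} (hv : v ≠ 0) (q : R2) (τ : ℝ) : lf v (q + τ • v) = lf v q + τ := by
  have := sq_pos hv
  unfold lf
  simp only [Prod.fst_add, Prod.snd_add, Prod.smul_fst, Prod.smul_snd, smul_eq_mul]
  field_simp
  ring

lemma cr_add_smul (v q : R2) (τ : ℝ) : cr v (q + τ • v) = cr v q := by
  unfold cr
  simp only [Prod.fst_add, Prod.snd_add, Prod.smul_fst, Prod.smul_snd, smul_eq_mul]
  ring

/-- adding a segment in an arbitrary direction -/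
lemma vol_add_seg {B : Set R2} (hc : IsCompact B) (hv : Convex ℝ B) (v : R2)
    {a b : ℝ} (hab : a ≤ b) :
    volume (B + (fun s : ℝ => s • v) '' Icc a b) = volume B + ENNReal.ofReal (b - a) * om B v := by
  by_cases h0 : v = 0
  · subst h0
    have h1 : (fun s : ℝ => s • (0 : R2)) '' Icc a b = {0} := by
      ext x
      constructor
      · rintro ⟨s, -, rfl⟩; simp
      · intro hx
        refine ⟨a, ⟨le_rfl, hab⟩, ?_⟩
        show a • (0 : R2) = x
        rw [smul_zero]; exact hx.symm
    have h2 : om B 0 = 0 := by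
      unfold om
      refine measure_mono_null (t := {0}) ?_ Real.volume_singleton
      rintro _ ⟨x, -, rfl⟩
      simp [cr]
    rw [h1, h2, mul_zero, add_zero, Set.singleton_zero, add_zero]
  · rw [← vol_fl h0 (B + _)]
    have h1 : fl v '' (B + (fun s : ℝ => s • v) '' Icc a b) = fl v '' B + Icc a b ×ˢ {(0:ℝ)} := by
      rw [image_add, image_image]
      congr 1
      ext x
      constructor
      · rintro ⟨s, hs, rfl⟩
        show fl v (s • v) ∈ Icc a b ×ˢ {(0:ℝ)}
        rw [map_smul, fl_self h0]
        refine ⟨?_, ?_⟩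
        · show s • (1:ℝ) ∈ Icc a b
          rw [smul_eq_mul, mul_one]; exact hs
        · show s • (0:ℝ) = 0
          rw [smul_zero]
      · rintro ⟨h1, h2⟩
        have h2' : x.2 = 0 := h2
        refine ⟨x.1, h1, ?_⟩
        simp only
        rw [map_smul, fl_self h0]
        ext
        · simp
        · simp [h2']
    have hfc : Continuous (fl v) := (fl v).continuous_of_finiteDimensional
    rw [h1, vol_add_horiz (hc.image hfc) (hv.linear_image _) hab, vol_fl h0]
    congr 3
    rw [image_image]
    ext x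
    simp only [fl_apply]

lemma vol_cyl {v : R2} (hv : v ≠ 0) (A : Set R2) :
    volume {p : R2 | |lf v p| ≤ 1 ∧ ∃ τ : ℝ, p + τ • v ∈ A} = 2 * om A v := by
  rw [← vol_fl hv]
  have h1 : fl v '' {p : R2 | |lf v p| ≤ 1 ∧ ∃ τ : ℝ, p + τ • v ∈ A} =
      Icc (-1) 1 ×ˢ (cr v '' A) := by
    ext x
    constructor
    · rintro ⟨p, ⟨hp, τ, hτ⟩, rfl⟩
      rw [fl_apply]
      exact ⟨abs_le.1 hp, ⟨p + τ • v, hτ, cr_add_smul _ _ _⟩⟩
    · rintro ⟨h1, a, ha, hax⟩
      refine ⟨a + (x.1 - lf v a) • v, ⟨?_, lf v a - x.1, ?_⟩, ?_⟩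
      · rw [lf_add_smul hv]
        have : lf v a + (x.1 - lf v a) = x.1 := by ring
        rw [this]; exact abs_le.2 h1
      · have : a + (x.1 - lf v a) • v + (lf v a - x.1) • v = a := by module
        rw [this]; exact ha
      · rw [fl_apply, lf_add_smul hv, cr_add_smul]
        ext
        · simp only; ring
        · exact hax
  rw [h1, Measure.volume_eq_prod, Measure.prod_prod, Real.volume_Icc]
  unfold om
  norm_num

lemma int_chord {v : R2} (hv : v ≠ 0) {A : Set R2} (hA : MeasurableSet A) :
    ∫⁻ p in {p : R2 | |lf v p| ≤ 1}, volume {τ : ℝ | p + τ • v ∈ A} = 2 * volume A := by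
  have hm1 : MeasurableSet {p : R2 | |lf v p| ≤ 1} :=
    (isClosed_le (continuous_lf v).abs continuous_const).measurableSet
  have hS : MeasurableSet {z : R2 × ℝ | |lf v z.1| ≤ 1 ∧ z.1 + z.2 • v ∈ A} := by
    apply MeasurableSet.inter
    · exact (isClosed_le ((continuous_lf v).comp continuous_fst).abs
        continuous_const).measurableSet
    · have : Measurable fun z : R2 × ℝ => z.1 + z.2 • v := by
        apply Continuous.measurable; fun_prop
      exact this hA
  have hS' : MeasurableSet {z : R2 × ℝ | |lf v z.1 - z.2| ≤ 1 ∧ z.1 ∈ A} := by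
    apply MeasurableSet.inter
    · exact (isClosed_le (((continuous_lf v).comp continuous_fst).sub continuous_snd).abs
        continuous_const).measurableSet
    · exact measurable_fst hA
  have e1 : ∫⁻ p in {p : R2 | |lf v p| ≤ 1}, volume {τ : ℝ | p + τ • v ∈ A} =
      ((volume : Measure R2).prod (volume : Measure ℝ))
        {z : R2 × ℝ | |lf v z.1| ≤ 1 ∧ z.1 + z.2 • v ∈ A} := by
    rw [Measure.prod_apply hS, ← lintegral_indicator hm1]
    refine lintegral_congr fun p => ?_
    by_cases hp : |lf v p| ≤ 1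
    · rw [indicator_of_mem (show p ∈ {p : R2 | |lf v p| ≤ 1} from hp)]
      congr 1
      ext τ
      constructor
      · intro h; exact ⟨hp, h⟩
      · intro h; exact h.2
    · rw [indicator_of_notMem (show p ∉ {p : R2 | |lf v p| ≤ 1} from hp)]
      have : Prod.mk p ⁻¹' {z : R2 × ℝ | |lf v z.1| ≤ 1 ∧ z.1 + z.2 • v ∈ A} = ∅ := by
        rw [eq_empty_iff_forall_notMem]
        intro τ h; exact hp h.1
      rw [this, measure_empty]
  have e2 : ((volume : Measure R2).prod (volume : Measure ℝ))
        {z : R2 × ℝ | |lf v z.1| ≤ 1 ∧ z.1 + z.2 • v ∈ A} =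
      ((volume : Measure R2).prod (volume : Measure ℝ))
        {z : R2 × ℝ | |lf v z.1 - z.2| ≤ 1 ∧ z.1 ∈ A} := by
    rw [Measure.prod_apply_symm hS, Measure.prod_apply_symm hS']
    refine lintegral_congr fun τ => ?_
    rw [← measure_preimage_add_right volume (τ • v)
      ((fun x => (x, τ)) ⁻¹' {z : R2 × ℝ | |lf v z.1 - z.2| ≤ 1 ∧ z.1 ∈ A})]
    congr 1
    ext p
    simp only [mem_preimage, mem_ofPred_eq]
    rw [lf_add_smul hv, add_sub_cancel_right]
  rw [e1, e2, Measure.prod_apply hS']
  have e3 : ∀ p : R2, volume (Prod.mk p ⁻¹' {z : R2 × ℝ | |lf v z.1 - z.2| ≤ 1 ∧ z.1 ∈ A}) =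
      A.indicator (fun _ => (2 : ℝ≥0∞)) p := by
    intro p
    by_cases hp : p ∈ A
    · rw [indicator_of_mem hp]
      have : Prod.mk p ⁻¹' {z : R2 × ℝ | |lf v z.1 - z.2| ≤ 1 ∧ z.1 ∈ A} =
          Icc (lf v p - 1) (lf v p + 1) := by
        ext τ
        simp only [mem_preimage, mem_ofPred_eq, hp, and_true, mem_Icc, abs_le]
        constructor
        · rintro ⟨h1, h2⟩; constructor <;> linarith
        · rintro ⟨h1, h2⟩; constructor <;> linarith
      rw [this, Real.volume_Icc]
      have : lf v p + 1 - (lf v p - 1) = 2 := by ring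
      rw [this]; simp
    · rw [indicator_of_notMem hp]
      have : Prod.mk p ⁻¹' {z : R2 × ℝ | |lf v z.1 - z.2| ≤ 1 ∧ z.1 ∈ A} = ∅ := by
        rw [eq_empty_iff_forall_notMem]
        intro τ h; exact hp h.2
      rw [this, measure_empty]
  simp only [e3]
  rw [lintegral_indicator_const hA]

/-- volume of the slab of a cylinder over a product of planar sets -/
lemma vol_prod_cyl {v : R2} (hv : v ≠ 0) (w : R2) {A B : Set R2} (hA : IsCompact A)
    (hAc : Convex ℝ A) (hB : IsCompact B) (hBc : Convex ℝ B) :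
    volume {z : R2 × R2 | |lf v z.1| ≤ 1 ∧ ∃ τ : ℝ, z.1 + τ • v ∈ A ∧ z.2 + τ • w ∈ B} =
      2 * (om A v * volume B + om B w * volume A) := by
  have hS : IsCompact {z : R2 × R2 | |lf v z.1| ≤ 1 ∧
      ∃ τ : ℝ, z.1 + τ • v ∈ A ∧ z.2 + τ • w ∈ B} := by
    have himg : {z : R2 × R2 | |lf v z.1| ≤ 1 ∧ ∃ τ : ℝ, z.1 + τ • v ∈ A ∧ z.2 + τ • w ∈ B} =
        (fun q : (R2 × R2) × ℝ => (q.1.1 + (q.2 - lf v q.1.1) • v,
          q.1.2 + (q.2 - lf v q.1.1) • w)) '' ((A ×ˢ B) ×ˢ Icc (-1) 1) := by
      ext z
      constructor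
      · rintro ⟨hz, τ, h1, h2⟩
        refine ⟨((z.1 + τ • v, z.2 + τ • w), lf v z.1), ⟨⟨h1, h2⟩, abs_le.1 hz⟩, ?_⟩
        simp only [lf_add_smul hv]
        ext : 1
        · simp only; module
        · simp only; module
      · rintro ⟨⟨⟨a, b⟩, s⟩, ⟨⟨ha, hb⟩, hs⟩, rfl⟩
        simp only at ha hb hs ⊢
        refine ⟨?_, lf v a - s, ?_, ?_⟩
        · rw [lf_add_smul hv]
          have : lf v a + (s - lf v a) = s := by ring
          rw [this]; exact abs_le.2 hs
        · have : a + (s - lf v a) • v + (lf v a - s) • v = a := by module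
          rw [this]; exact ha
        · have : b + (s - lf v a) • w + (lf v a - s) • w = b := by module
          rw [this]; exact hb
    rw [himg]
    refine ((hA.prod hB).prod isCompact_Icc).image ?_
    have := continuous_lf v
    fun_prop
  have hm1 : MeasurableSet {p : R2 | |lf v p| ≤ 1} :=
    (isClosed_le (continuous_lf v).abs continuous_const).measurableSet
  have hcyl : MeasurableSet {p : R2 | |lf v p| ≤ 1 ∧ ∃ τ : ℝ, p + τ • v ∈ A} := by
    have himg : {p : R2 | |lf v p| ≤ 1 ∧ ∃ τ : ℝ, p + τ • v ∈ A} =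
        (fun q : R2 × ℝ => q.1 + (q.2 - lf v q.1) • v) '' (A ×ˢ Icc (-1) 1) := by
      ext z
      constructor
      · rintro ⟨hz, τ, h1⟩
        refine ⟨(z + τ • v, lf v z), ⟨h1, abs_le.1 hz⟩, ?_⟩
        simp only [lf_add_smul hv]
        module
      · rintro ⟨⟨a, s⟩, ⟨ha, hs⟩, rfl⟩
        simp only at ha hs ⊢
        refine ⟨?_, lf v a - s, ?_⟩
        · rw [lf_add_smul hv]
          have : lf v a + (s - lf v a) = s := by ring
          rw [this]; exact abs_le.2 hs
        · have : a + (s - lf v a) • v + (lf v a - s) • v = a := by module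
          rw [this]; exact ha
    rw [himg]
    refine ((hA.prod isCompact_Icc).image ?_).measurableSet
    have := continuous_lf v
    fun_prop
  have hchord : Measurable fun p : R2 => volume {τ : ℝ | p + τ • v ∈ A} := by
    have hm : MeasurableSet {z : R2 × ℝ | z.1 + z.2 • v ∈ A} := by
      have : Measurable fun z : R2 × ℝ => z.1 + z.2 • v := by
        apply Continuous.measurable; fun_prop
      exact this hA.measurableSet
    exact measurable_measure_prodMk_left hm
  rw [Measure.volume_eq_prod, Measure.prod_apply hS.measurableSet]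
  have key : ∀ p : R2, volume (Prod.mk p ⁻¹' {z : R2 × R2 | |lf v z.1| ≤ 1 ∧
      ∃ τ : ℝ, z.1 + τ • v ∈ A ∧ z.2 + τ • w ∈ B}) =
      {p : R2 | |lf v p| ≤ 1 ∧ ∃ τ : ℝ, p + τ • v ∈ A}.indicator (fun _ => volume B) p +
        {p : R2 | |lf v p| ≤ 1}.indicator
          (fun p => volume {τ : ℝ | p + τ • v ∈ A} * om B w) p := by
    intro p
    by_cases hp : |lf v p| ≤ 1
    · rw [indicator_of_mem (show p ∈ {p : R2 | |lf v p| ≤ 1} from hp)]
      by_cases hI : ∃ τ : ℝ, p + τ • v ∈ A
      · rw [indicator_of_mem (show p ∈ {p : R2 | |lf v p| ≤ 1 ∧ ∃ τ : ℝ, p + τ • v ∈ A} from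
          ⟨hp, hI⟩)]
        have hIc : IsCompact {τ : ℝ | p + τ • v ∈ A} := by
          have himg : {τ : ℝ | p + τ • v ∈ A} = (fun a => lf v a - lf v p) ''
              (A ∩ {a | cr v a = cr v p}) := by
            ext τ
            constructor
            · intro hτ
              refine ⟨p + τ • v, ⟨hτ, cr_add_smul _ _ _⟩, ?_⟩
              simp only [lf_add_smul hv]; ring
            · rintro ⟨a, ⟨ha, hcr⟩, rfl⟩
              have hcr' : cr v a = cr v p := hcr
              have : p + (lf v a - lf v p) • v = a := by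
                have h1 : fl v (p + (lf v a - lf v p) • v) = fl v a := by
                  rw [fl_apply, fl_apply, lf_add_smul hv, cr_add_smul, hcr']
                  ext
                  · simp only; ring
                  · rfl
                have h2 : Function.Injective (fl v) := by
                  have hdet : LinearMap.det (fl v) ≠ 0 := by
                    have := sq_pos hv
                    unfold fl
                    rw [LinearMap.det_toLin, Matrix.det_fin_two_of]
                    have : v.1 / (v.1 ^ 2 + v.2 ^ 2) * v.1 - v.2 / (v.1 ^ 2 + v.2 ^ 2) * -v.2 = 1 := by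
                      field_simp
                      ring
                    rw [this]; exact one_ne_zero
                  exact (LinearMap.equivOfDetNeZero (fl v) hdet).injective
                exact h2 h1
              show p + (lf v a - lf v p) • v ∈ A
              rw [this]; exact ha
          rw [himg]
          refine (hA.inter_right (isClosed_eq (continuous_cr v) continuous_const)).image ?_
          have := continuous_lf v
          fun_prop
        have hIv : Convex ℝ {τ : ℝ | p + τ • v ∈ A} := by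
          intro x hx y hy s t hs ht hst
          have := hAc (show p + x • v ∈ A from hx) (show p + y • v ∈ A from hy) hs ht hst
          have e1 : s • (p + x • v) + t • (p + y • v) = p + (s • x + t • y) • v := by
            have h1 : s • p + t • p = p := by rw [← add_smul, hst, one_smul]
            calc s • (p + x • v) + t • (p + y • v) = (s • p + t • p) + (s • x + t • y) • v := by
                  simp only [smul_eq_mul]; module
              _ = _ := by rw [h1]
          rw [e1] at this
          exact this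
        obtain ⟨x, y, hxy, hIcc⟩ := exists_Icc hIc hIv hI
        have hslice : Prod.mk p ⁻¹' {z : R2 × R2 | |lf v z.1| ≤ 1 ∧
            ∃ τ : ℝ, z.1 + τ • v ∈ A ∧ z.2 + τ • w ∈ B} =
            B + (fun s : ℝ => s • w) '' Icc (-y) (-x) := by
          ext q
          constructor
          · rintro ⟨-, τ, h1, h2⟩
            have hτ : τ ∈ Icc x y := by rw [← hIcc]; exact h1
            refine Set.mem_add.2 ⟨q + τ • w, h2, (-τ) • w, ⟨-τ, ⟨by linarith [hτ.2],
              by linarith [hτ.1]⟩, rfl⟩, by module⟩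
          · intro hq
            obtain ⟨b, hb, _, ⟨s, hs, rfl⟩, rfl⟩ := Set.mem_add.1 hq
            refine ⟨hp, -s, ?_, ?_⟩
            · have : -s ∈ {τ : ℝ | p + τ • v ∈ A} := by
                rw [hIcc]; exact ⟨by linarith [hs.2], by linarith [hs.1]⟩
              exact this
            · show b + s • w + (-s) • w ∈ B
              have : b + s • w + (-s) • w = b := by module
              rw [this]; exact hb
        rw [hslice, vol_add_seg hB hBc w (by linarith : -y ≤ -x), hIcc, Real.volume_Icc]
        congr 3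
        ring
      · rw [indicator_of_notMem (fun h => hI h.2)]
        have h1 : {τ : ℝ | p + τ • v ∈ A} = ∅ := by
          rw [eq_empty_iff_forall_notMem]
          intro τ h; exact hI ⟨τ, h⟩
        have h2 : Prod.mk p ⁻¹' {z : R2 × R2 | |lf v z.1| ≤ 1 ∧
            ∃ τ : ℝ, z.1 + τ • v ∈ A ∧ z.2 + τ • w ∈ B} = ∅ := by
          rw [eq_empty_iff_forall_notMem]
          rintro q ⟨-, τ, h, -⟩; exact hI ⟨τ, h⟩
        rw [h1, h2, measure_empty, measure_empty, zero_mul, add_zero]
    · rw [indicator_of_notMem (show p ∉ {p : R2 | |lf v p| ≤ 1 ∧ ∃ τ : ℝ, p + τ • v ∈ A} from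
          fun h => hp h.1), indicator_of_notMem (show p ∉ {p : R2 | |lf v p| ≤ 1} from hp)]
      have h2 : Prod.mk p ⁻¹' {z : R2 × R2 | |lf v z.1| ≤ 1 ∧
          ∃ τ : ℝ, z.1 + τ • v ∈ A ∧ z.2 + τ • w ∈ B} = ∅ := by
        rw [eq_empty_iff_forall_notMem]
        rintro q ⟨h, -⟩; exact hp h
      rw [h2, measure_empty, add_zero]
  simp only [key]
  rw [lintegral_add_left (measurable_const.indicator hcyl), lintegral_indicator_const hcyl,
    lintegral_indicator hm1, lintegral_mul_const _ hchord, int_chord hv hA.measurableSet,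
    vol_cyl hv]
  ring

end Pool.Agent.Helper98.Shadow
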