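import Mathlib
import Pool.Agent.Helper98.Shadow
import Pool.Agent.Helper98.Mean

open MeasureTheory Set Metric Filter Topology
open scoped Pointwise RealInnerProductSpace ENNReal

namespace Pool.Agent.Helper98.Prod4

open Pool.Agent.Helper98.Near Pool.Agent.Helper98.Thin Pool.Agent.Helper98.Shadow
open Pool.Agent.Helper98.Mean

/-- measurable coordinates -/
noncomputable def psi : E 4 ≃ᵐ R2 × R2 :=
  (MeasurableEquiv.toLp 2 (Fin 4 → ℝ)).symm.trans <|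
  (MeasurableEquiv.piCongrLeft (fun _ : Fin 4 => ℝ)
    (finSumFinEquiv : Fin 2 ⊕ Fin 2 ≃ Fin 4)).symm.trans <|
  (MeasurableEquiv.sumPiEquivProdPi (fun _ : Fin 2 ⊕ Fin 2 => ℝ)).trans <|
  MeasurableEquiv.prodCongr MeasurableEquiv.finTwoArrow MeasurableEquiv.finTwoArrow

lemma psi_apply (y : E 4) : psi y = ((y 0, y 1), (y 2, y 3)) := by
  rfl

lemma mp_psi : MeasurePreserving psi (volume : Measure (E 4)) (volume : Measure (R2 × R2)) := by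
  refine (EuclideanSpace.volume_preserving_symm_measurableEquiv_toLp (Fin 4)).trans ?_
  refine ((volume_measurePreserving_piCongrLeft (fun _ : Fin 4 => ℝ)
    (finSumFinEquiv : Fin 2 ⊕ Fin 2 ≃ Fin 4)).symm _).trans ?_
  refine (volume_measurePreserving_sumPiEquivProdPi (fun _ : Fin 2 ⊕ Fin 2 => ℝ)).trans ?_
  exact (volume_preserving_finTwoArrow ℝ).prod (volume_preserving_finTwoArrow ℝ)

/-- the product of two planar sets -/
def K4 (A B : Set R2) : Set (E 4) := {y | ((y 0, y 1) : R2) ∈ A ∧ ((y 2, y 3) : R2) ∈ B}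

noncomputable def g1 (v : R2) : E 4 →L[ℝ] ℝ :=
  (v.1 / (v.1 ^ 2 + v.2 ^ 2)) • (EuclideanSpace.proj 0 : E 4 →L[ℝ] ℝ) +
    (v.2 / (v.1 ^ 2 + v.2 ^ 2)) • (EuclideanSpace.proj 1 : E 4 →L[ℝ] ℝ)

noncomputable def g2 (v : R2) : E 4 →L[ℝ] ℝ :=
  (v.1 / (v.1 ^ 2 + v.2 ^ 2)) • (EuclideanSpace.proj 2 : E 4 →L[ℝ] ℝ) +
    (v.2 / (v.1 ^ 2 + v.2 ^ 2)) • (EuclideanSpace.proj 3 : E 4 →L[ℝ] ℝ)

lemma g1_apply (v : R2) (y : E 4) : g1 v y = lf v (y 0, y 1) := by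
  simp only [g1, lf, _root_.add_apply, _root_.smul_apply, PiLp.proj_apply, smul_eq_mul]
  ring

lemma g2_apply (v : R2) (y : E 4) : g2 v y = lf v (y 2, y 3) := by
  simp only [g2, lf, _root_.add_apply, _root_.smul_apply, PiLp.proj_apply, smul_eq_mul]
  ring

lemma lf_self {v : R2} (hv : v ≠ 0) : lf v v = 1 := by
  have := sq_pos hv
  unfold lf; field_simp

lemma vol_Z_K4 {u : E 4} (hu : ‖u‖ = 1) {A B : Set R2} (hA : IsCompact A)
    (hAc : Convex ℝ A) (hB : IsCompact B) (hBc : Convex ℝ B) :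
    volume (Z (innerSL ℝ u) u (K4 A B)) =
      2 * (om A (u 0, u 1) * volume B + om B (u 2, u 3) * volume A) := by
  have huu : innerSL ℝ u u = 1 := by
    rw [innerSL_apply_apply, real_inner_self_eq_norm_sq, hu]; norm_num
  by_cases hv : ((u 0, u 1) : R2) = 0
  · have hw : ((u 2, u 3) : R2) ≠ 0 := by
      intro hw
      have h0 : u = 0 := by
        have a0 : u 0 = 0 := congrArg Prod.fst hv
        have a1 : u 1 = 0 := congrArg Prod.snd hv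
        have a2 : u 2 = 0 := congrArg Prod.fst hw
        have a3 : u 3 = 0 := congrArg Prod.snd hw
        ext i; fin_cases i
        · exact a0
        · exact a1
        · exact a2
        · exact a3
      rw [h0, norm_zero] at hu
      norm_num at hu
    have h1 := vol_Z (innerSL ℝ u) (g2 (u 2, u 3)) u (K4 A B)
      (by rw [g2_apply, lf_self hw]) (by rw [huu]; exact one_ne_zero)
    rw [huu, abs_one, ENNReal.ofReal_one, one_mul] at h1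
    rw [← h1]
    have hset : Z (g2 (u 2, u 3)) u (K4 A B) = psi ⁻¹' (Prod.swap ⁻¹'
        {z : R2 × R2 | |lf (u 2, u 3) z.1| ≤ 1 ∧ ∃ τ : ℝ, z.1 + τ • ((u 2, u 3) : R2) ∈ B ∧
          z.2 + τ • ((u 0, u 1) : R2) ∈ A}) := by
      ext y
      simp only [Z, K4, mem_ofPred_eq, mem_preimage, psi_apply, Prod.swap_prod_mk, g2_apply,
        PiLp.add_apply, PiLp.smul_apply, Prod.smul_mk, Prod.mk_add_mk, smul_eq_mul, and_comm]
    rw [hset, mp_psi.measure_preimage_equiv]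
    have hsw : MeasurePreserving (MeasurableEquiv.prodComm : R2 × R2 ≃ᵐ R2 × R2) volume volume := by
      rw [Measure.volume_eq_prod]
      exact Measure.measurePreserving_swap
    have h2 := hsw.measure_preimage_equiv {z : R2 × R2 | |lf (u 2, u 3) z.1| ≤ 1 ∧
      ∃ τ : ℝ, z.1 + τ • ((u 2, u 3) : R2) ∈ B ∧ z.2 + τ • ((u 0, u 1) : R2) ∈ A}
    have h3 : (Prod.swap ⁻¹' {z : R2 × R2 | |lf (u 2, u 3) z.1| ≤ 1 ∧
      ∃ τ : ℝ, z.1 + τ • ((u 2, u 3) : R2) ∈ B ∧ z.2 + τ • ((u 0, u 1) : R2) ∈ A}) =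
      (MeasurableEquiv.prodComm : R2 × R2 ≃ᵐ R2 × R2) ⁻¹' {z : R2 × R2 | |lf (u 2, u 3) z.1| ≤ 1 ∧
      ∃ τ : ℝ, z.1 + τ • ((u 2, u 3) : R2) ∈ B ∧ z.2 + τ • ((u 0, u 1) : R2) ∈ A} := rfl
    rw [h3, h2, vol_prod_cyl hw _ hB hBc hA hAc, add_comm]
  · have h1 := vol_Z (innerSL ℝ u) (g1 (u 0, u 1)) u (K4 A B)
      (by rw [g1_apply, lf_self hv]) (by rw [huu]; exact one_ne_zero)
    rw [huu, abs_one, ENNReal.ofReal_one, one_mul] at h1
    rw [← h1]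
    have hset : Z (g1 (u 0, u 1)) u (K4 A B) = psi ⁻¹'
        {z : R2 × R2 | |lf (u 0, u 1) z.1| ≤ 1 ∧ ∃ τ : ℝ, z.1 + τ • ((u 0, u 1) : R2) ∈ A ∧
          z.2 + τ • ((u 2, u 3) : R2) ∈ B} := by
      ext y
      simp only [Z, K4, mem_ofPred_eq, mem_preimage, psi_apply, g1_apply,
        PiLp.add_apply, PiLp.smul_apply, Prod.smul_mk, Prod.mk_add_mk, smul_eq_mul]
    rw [hset, mp_psi.measure_preimage_equiv, vol_prod_cyl hv _ hA hAc hB hBc]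

/-- right triangle -/
def T : Set R2 := {q | 0 ≤ q.1 ∧ 0 ≤ q.2 ∧ q.1 + q.2 ≤ 1}

/-- half of the difference body of the triangle -/
def Hx : Set R2 := (fun p : R2 × R2 => (1 / 2 : ℝ) • (p.1 - p.2)) '' (T ×ˢ T)

lemma isCompact_T : IsCompact T := by
  have h1 : IsClosed T := by
    refine IsClosed.inter (isClosed_le continuous_const continuous_fst)
      (IsClosed.inter (isClosed_le continuous_const continuous_snd)
        (isClosed_le (continuous_fst.add continuous_snd) continuous_const))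
  refine (isCompact_Icc (a := ((0, 0) : R2)) (b := (1, 1))).of_isClosed_subset h1 ?_
  rintro q ⟨h1, h2, h3⟩
  exact ⟨⟨h1, h2⟩, ⟨by show q.1 ≤ 1; linarith, by show q.2 ≤ 1; linarith⟩⟩

lemma convex_T : Convex ℝ T := by
  rintro x ⟨x1, x2, x3⟩ y ⟨y1, y2, y3⟩ s t hs ht hst
  refine ⟨?_, ?_, ?_⟩
  · show 0 ≤ s * x.1 + t * y.1
    positivity
  · show 0 ≤ s * x.2 + t * y.2
    positivity
  · show s * x.1 + t * y.1 + (s * x.2 + t * y.2) ≤ 1
    have h1 : s * (x.1 + x.2) ≤ s * 1 := mul_le_mul_of_nonneg_left x3 hs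
    have h2 : t * (y.1 + y.2) ≤ t * 1 := mul_le_mul_of_nonneg_left y3 ht
    nlinarith

lemma isCompact_Hx : IsCompact Hx := (isCompact_T.prod isCompact_T).image (by fun_prop)

lemma convex_Hx : Convex ℝ Hx := by
  rintro _ ⟨⟨a, b⟩, ⟨ha, hb⟩, rfl⟩ _ ⟨⟨c, d⟩, ⟨hc, hd⟩, rfl⟩ s t hs ht hst
  refine ⟨(s • a + t • c, s • b + t • d), ⟨convex_T ha hc hs ht hst, convex_T hb hd hs ht hst⟩, ?_⟩
  simp only
  module

lemma om_Hx (v : R2) : om Hx v = om T v := by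
  unfold om
  have hlin : ∀ a b : R2, cr v ((1 / 2 : ℝ) • (a - b)) = (1 / 2) * (cr v a - cr v b) := by
    intro a b
    unfold cr
    simp only [Prod.smul_fst, Prod.smul_snd, Prod.fst_sub, Prod.snd_sub, smul_eq_mul]
    ring
  have h1 : cr v '' Hx = (fun p : ℝ × ℝ => (1 / 2) * (p.1 - p.2)) '' ((cr v '' T) ×ˢ (cr v '' T)) := by
    ext x
    constructor
    · rintro ⟨_, ⟨⟨a, b⟩, ⟨ha, hb⟩, rfl⟩, rfl⟩
      exact ⟨(cr v a, cr v b), ⟨⟨a, ha, rfl⟩, ⟨b, hb, rfl⟩⟩, (hlin a b).symm⟩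
    · rintro ⟨⟨_, _⟩, ⟨⟨a, ha, rfl⟩, ⟨b, hb, rfl⟩⟩, rfl⟩
      exact ⟨_, ⟨(a, b), ⟨ha, hb⟩, rfl⟩, hlin a b⟩
  have hconv : Convex ℝ (cr v '' T) := by
    rintro _ ⟨a, ha, rfl⟩ _ ⟨b, hb, rfl⟩ s t hs ht hst
    refine ⟨s • a + t • b, convex_T ha hb hs ht hst, ?_⟩
    unfold cr
    simp only [Prod.smul_fst, Prod.smul_snd, Prod.fst_add, Prod.snd_add, smul_eq_mul]
    ring
  obtain ⟨x, y, hxy, hI⟩ := exists_Icc (isCompact_T.image (continuous_cr v)) hconv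
    ⟨cr v 0, 0, by simp [T], rfl⟩
  rw [h1, hI]
  have h2 : (fun p : ℝ × ℝ => (1 / 2) * (p.1 - p.2)) '' (Icc x y ×ˢ Icc x y) =
      Icc ((x - y) / 2) ((y - x) / 2) := by
    ext z
    constructor
    · rintro ⟨⟨a, b⟩, ⟨⟨a1, a2⟩, ⟨b1, b2⟩⟩, rfl⟩
      simp only at a1 a2 b1 b2 ⊢
      constructor <;> linarith
    · rintro ⟨z1, z2⟩
      refine ⟨((x + y) / 2 + z, (x + y) / 2 - z), ⟨⟨?_, ?_⟩, ⟨?_, ?_⟩⟩, ?_⟩
      · show x ≤ (x + y) / 2 + z; linarith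
      · show (x + y) / 2 + z ≤ y; linarith
      · show x ≤ (x + y) / 2 - z; linarith
      · show (x + y) / 2 - z ≤ y; linarith
      · simp only; ring
  rw [h2, Real.volume_Icc, Real.volume_Icc]
  congr 1; ring

lemma vol_Hx_pos : 0 < volume Hx := by
  have h1 : Ioo (0:ℝ) (1 / 4) ×ˢ Ioo (0:ℝ) (1 / 4) ⊆ Hx := by
    rintro q ⟨⟨a1, a2⟩, ⟨b1, b2⟩⟩
    refine ⟨((2:ℝ) • q, 0), ⟨⟨?_, ?_, ?_⟩, ?_⟩, ?_⟩
    · show (0:ℝ) ≤ 2 * q.1; linarith
    · show (0:ℝ) ≤ 2 * q.2; linarith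
    · show (2:ℝ) * q.1 + 2 * q.2 ≤ 1; linarith
    · simp [T]
    · simp only; module
  refine lt_of_lt_of_le ?_ (measure_mono h1)
  rw [Measure.volume_eq_prod, Measure.prod_prod, Real.volume_Ioo]
  simp

lemma isCompact_K4 {A B : Set R2} (hA : IsCompact A) (hB : IsCompact B) : IsCompact (K4 A B) := by
  have himg : K4 A B = (fun z : R2 × R2 => (!₂[z.1.1, z.1.2, z.2.1, z.2.2] : E 4)) '' (A ×ˢ B) := by
    ext y
    constructor
    · rintro ⟨h1, h2⟩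
      refine ⟨((y 0, y 1), (y 2, y 3)), ⟨h1, h2⟩, ?_⟩
      ext i; fin_cases i <;> rfl
    · rintro ⟨z, ⟨h1, h2⟩, rfl⟩
      exact ⟨h1, h2⟩
  rw [himg]
  refine (hA.prod hB).image ?_
  fun_prop

lemma convex_K4 {A B : Set R2} (hA : Convex ℝ A) (hB : Convex ℝ B) : Convex ℝ (K4 A B) := by
  rintro x ⟨x1, x2⟩ y ⟨y1, y2⟩ s t hs ht hst
  exact ⟨hA x1 y1 hs ht hst, hB x2 y2 hs ht hst⟩

end Pool.Agent.Helper98.Prod4
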