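import Mathlib
import Pool.Agent.Helper98.Prod4

open MeasureTheory Set Metric Filter Topology
open scoped Pointwise RealInnerProductSpace ENNReal

namespace Pool.Agent.Helper98.Asm

open Pool.Agent.Helper98.Near Pool.Agent.Helper98.Thin Pool.Agent.Helper98.Shadow
open Pool.Agent.Helper98.Mean Pool.Agent.Helper98.Prod4

/-- shadow of `K` on the hyperplane orthogonal to `u` -/
def Sh (u : E 4) (K : Set (E 4)) : Set (E 4) := {y | ⟪u, y⟫ = 0 ∧ ∃ τ : ℝ, y + τ • u ∈ K}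

lemma Sh_eq {u : E 4} (hu : ‖u‖ = 1) (K : Set (E 4)) :
    Sh u K = (fun x => x - ⟪u, x⟫ • u) '' K := by
  have huu : ⟪u, u⟫ = 1 := by rw [real_inner_self_eq_norm_sq, hu]; norm_num
  ext y
  constructor
  · rintro ⟨hy, τ, hτ⟩
    refine ⟨y + τ • u, hτ, ?_⟩
    simp only [inner_add_right, inner_smul_right, huu, hy]
    module
  · rintro ⟨x, hx, rfl⟩
    refine ⟨?_, ⟪u, x⟫, ?_⟩
    · rw [inner_sub_right, inner_smul_right, huu]; ring
    · have : x - ⟪u, x⟫ • u + ⟪u, x⟫ • u = x := by module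
      rw [this]; exact hx

lemma isCompact_Sh {u : E 4} (hu : ‖u‖ = 1) {K : Set (E 4)} (hK : IsCompact K) :
    IsCompact (Sh u K) := by
  rw [Sh_eq hu]
  exact hK.image (by fun_prop)

lemma convex_Sh {u : E 4} {K : Set (E 4)} (hK : Convex ℝ K) :
    Convex ℝ (Sh u K) := by
  rintro x ⟨x1, τ, x2⟩ y ⟨y1, ρ, y2⟩ s t hs ht hst
  refine ⟨?_, s * τ + t * ρ, ?_⟩
  · rw [inner_add_right, inner_smul_right, inner_smul_right, x1, y1]; ring
  · have := hK x2 y2 hs ht hst
    have e1 : s • (x + τ • u) + t • (y + ρ • u) = s • x + t • y + (s * τ + t * ρ) • u := by module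
    rwa [e1] at this

/-- support function of a set -/
noncomputable def hh (L : Set (E 4)) (x : E 4) : ℝ := sSup ((fun l => ⟪l, x⟫) '' L)

lemma isSupp_hh {L : Set (E 4)} (hc : IsCompact L) (hn : L.Nonempty) : IsSupp L (hh L) := by
  constructor
  · intro x l hl
    apply le_csSup
    · exact (hc.image (by fun_prop : Continuous fun l : E 4 => ⟪l, x⟫)).bddAbove
    · exact ⟨l, hl, rfl⟩
  · intro x
    have h1 := (hc.image (by fun_prop : Continuous fun l : E 4 => ⟪l, x⟫)).sSup_mem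
      (hn.image _)
    obtain ⟨l, hl, hlx⟩ := h1
    exact ⟨l, hl, hlx⟩

/-- half of the difference body -/
def HD (K : Set (E 4)) : Set (E 4) := {x | ∃ y ∈ K, ∃ z ∈ K, x = (1 / 2 : ℝ) • (y - z)}

lemma HD_K4 : HD (K4 T T) = K4 Hx Hx := by
  ext x
  constructor
  · rintro ⟨y, ⟨y1, y2⟩, z, ⟨z1, z2⟩, rfl⟩
    refine ⟨⟨((y 0, y 1), (z 0, z 1)), ⟨y1, z1⟩, ?_⟩, ⟨((y 2, y 3), (z 2, z 3)), ⟨y2, z2⟩, ?_⟩⟩
    · rfl
    · rfl
  · rintro ⟨⟨⟨a, b⟩, ⟨ha, hb⟩, hab⟩, ⟨⟨c, d⟩, ⟨hc, hd⟩, hcd⟩⟩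
    refine ⟨!₂[a.1, a.2, c.1, c.2], ⟨ha, hc⟩, !₂[b.1, b.2, d.1, d.2], ⟨hb, hd⟩, ?_⟩
    have e1 := congrArg Prod.fst hab
    have e2 := congrArg Prod.snd hab
    have e3 := congrArg Prod.fst hcd
    have e4 := congrArg Prod.snd hcd
    ext i; fin_cases i
    · exact e1.symm
    · exact e2.symm
    · exact e3.symm
    · exact e4.symm

lemma Sh_HD (u : E 4) {K : Set (E 4)} (hu : ‖u‖ = 1) : Sh u (HD K) = HD (Sh u K) := by
  rw [Sh_eq hu, Sh_eq hu]
  ext x
  constructor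
  · rintro ⟨_, ⟨y, hy, z, hz, rfl⟩, rfl⟩
    refine ⟨_, ⟨y, hy, rfl⟩, _, ⟨z, hz, rfl⟩, ?_⟩
    simp only [inner_smul_right, inner_sub_right]
    module
  · rintro ⟨_, ⟨y, hy, rfl⟩, _, ⟨z, hz, rfl⟩, rfl⟩
    refine ⟨_, ⟨y, hy, z, hz, rfl⟩, ?_⟩
    simp only [inner_smul_right, inner_sub_right]
    module

lemma isSupp_HD {L : Set (E 4)} {h : E 4 → ℝ} (hs : IsSupp L h) :
    IsSupp (HD L) (fun x => (1 / 2) * (h x + h (-x))) := by
  constructor
  · rintro x _ ⟨y, hy, z, hz, rfl⟩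
    have h1 := hs.le x y hy
    have h2 := hs.le (-x) z hz
    rw [inner_neg_right] at h2
    rw [inner_smul_left, inner_sub_left]
    simp only [conj_trivial]
    linarith
  · intro x
    obtain ⟨y, hy, h1⟩ := hs.att x
    obtain ⟨z, hz, h2⟩ := hs.att (-x)
    refine ⟨_, ⟨y, hy, z, hz, rfl⟩, ?_⟩
    rw [inner_neg_right] at h2
    rw [inner_smul_left, inner_sub_left]
    simp only [conj_trivial]
    linarith

lemma isSupp_neg {L : Set (E 4)} {h : E 4 → ℝ} (hs : IsSupp L h) :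
    IsSupp (-L) (fun x => h (-x)) := by
  constructor
  · intro x l hl
    have h1 := hs.le (-x) (-l) hl
    rwa [inner_neg_neg] at h1
  · intro x
    obtain ⟨z, hz, h2⟩ := hs.att (-x)
    refine ⟨-z, by rwa [Set.mem_neg, neg_neg], ?_⟩
    show ⟪-z, x⟫ = h (-x)
    rw [← h2, inner_neg_right, inner_neg_left]

lemma volume_neg_thick (L : Set (E 4)) (t : ℝ) :
    volume (-L + closedBall (0 : E 4) t) = volume (L + closedBall (0 : E 4) t) := by
  have h1 : -L + closedBall (0 : E 4) t = -(L + closedBall (0 : E 4) t) := by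
    rw [neg_add]
    congr 1
    ext x; simp
  rw [h1, Measure.measure_neg]

/-- the two mean width coefficients agree -/
lemma coeff_three_eq {L : Set (E 4)} (hc : IsCompact L) (hn : L.Nonempty) {c c' : ℕ → ℝ}
    (h1 : ∀ t : ℝ, 0 ≤ t → (volume (L + closedBall (0 : E 4) t)).toReal =
      ∑ m ∈ Finset.range 5, c m * t ^ m)
    (hcD : IsCompact (HD L))
    (h2 : ∀ t : ℝ, 0 ≤ t → (volume (HD L + closedBall (0 : E 4) t)).toReal =
      ∑ m ∈ Finset.range 5, c' m * t ^ m) : c 3 = c' 3 := by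
  have hs := isSupp_hh hc hn
  have e1 := coeff_three hc hs h1
  have e2 := coeff_three hc.neg (isSupp_neg hs) (c := c) (fun t ht => by
    rw [volume_neg_thick]; exact h1 t ht)
  have e3 := coeff_three hcD (isSupp_HD hs) h2
  obtain ⟨R, hR⟩ : ∃ R, ∀ l ∈ L, ‖l‖ ≤ R := by
    obtain ⟨R, hR⟩ := hc.isBounded.subset_closedBall 0
    exact ⟨R, fun l hl => by simpa using hR hl⟩
  have hcont := hs.continuous hR
  have hcomp : CompactSpace Sp := isCompact_iff_compactSpace.1 (isCompact_sphere _ _)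
  have hint : ∀ f : Sp → ℝ, Continuous f → Integrable f (volume : Measure (E 4)).toSphere := by
    intro f hf
    exact hf.integrable_of_hasCompactSupport (HasCompactSupport.of_compactSpace f)
  rw [integral_const_mul, integral_add, ← e1, ← e2] at e3
  · linarith
  · exact hint _ (hcont.comp continuous_subtype_val)
  · exact hint _ (hcont.comp continuous_subtype_val.neg)

lemma symm_HD {K : Set (E 4)} {x : E 4} (hx : x ∈ HD K) : -x ∈ HD K := by
  obtain ⟨y, hy, z, hz, rfl⟩ := hx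
  exact ⟨z, hz, y, hy, by module⟩

lemma finrank_span {K : Set (E 4)} {a : ℝ} (ha : a ≠ 0) (h0 : (0 : E 4) ∈ K)
    (hi : ∀ i : Fin 4, (EuclideanSpace.single i a : E 4) ∈ K) :
    Module.finrank ℝ (vectorSpan ℝ K) = 4 := by
  have htop : vectorSpan ℝ K = ⊤ := by
    rw [eq_top_iff]
    intro x _
    have h1 : ∀ i : Fin 4, (EuclideanSpace.single i a : E 4) ∈ vectorSpan ℝ K := by
      intro i
      have := vsub_mem_vectorSpan ℝ (hi i) h0
      simpa using this
    have h2 : x = ∑ i : Fin 4, (x i / a) • (EuclideanSpace.single i a : E 4) := by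
      ext j
      simp only [WithLp.ofLp_sum, Finset.sum_apply, WithLp.ofLp_smul,
        Pi.smul_apply, smul_eq_mul]
      rw [Finset.sum_eq_single j]
      · simp [ha]
      · intro b _ hb
        simp [hb.symm]
      · intro h; exact absurd (Finset.mem_univ j) h
    rw [h2]
    exact Submodule.sum_mem _ fun i _ => Submodule.smul_mem _ _ (h1 i)
  rw [htop, finrank_top]
  simp

lemma single_mem_K4 (i : Fin 4) : (EuclideanSpace.single i (1:ℝ) : E 4) ∈ K4 T T := by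
  fin_cases i <;> simp [K4, T]

lemma zero_mem_K4 : (0 : E 4) ∈ K4 T T := by
  simp [K4, T]

lemma zero_mem_HD : (0 : E 4) ∈ HD (K4 T T) := ⟨0, zero_mem_K4, 0, zero_mem_K4, by simp⟩

lemma single_mem_HD (i : Fin 4) : (EuclideanSpace.single i (1 / 2 : ℝ) : E 4) ∈ HD (K4 T T) := by
  refine ⟨_, single_mem_K4 i, 0, zero_mem_K4, ?_⟩
  ext j
  simp only [PiLp.smul_apply, sub_zero, PiLp.single_apply, smul_eq_mul]
  split_ifs <;> simp

theorem main_result :
    ¬ (∀ (n k i j : ℕ), 1 ≤ k → k ≤ n - 1 → 1 ≤ i → i ≤ k → 1 ≤ j → j ≤ k → i ≠ j →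
  ∀ (K₁ K₂ : Set (EuclideanSpace ℝ (Fin n))),
    IsCompact K₁ → Convex ℝ K₁ → k + 1 ≤ Module.finrank ℝ (vectorSpan ℝ K₁) →
    IsCompact K₂ → Convex ℝ K₂ → k + 1 ≤ Module.finrank ℝ (vectorSpan ℝ K₂) →
    (∃ c : EuclideanSpace ℝ (Fin n), ∀ x ∈ K₂, (2 : ℝ) • c - x ∈ K₂) →
    ∀ a b : ℝ,
    (∀ S : Submodule ℝ (EuclideanSpace ℝ (Fin n)), Module.finrank ℝ S = k →
      ∃ c₁ c₂ : ℕ → ℝ,
        (∀ t : ℝ, 0 ≤ t →
          MeasureTheory.volume
            ({y : EuclideanSpace ℝ (Fin n) | y ∈ S ∧ ∃ x ∈ K₁, x - y ∈ Sᗮ}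
              + Metric.closedBall (0 : EuclideanSpace ℝ (Fin n)) t)
            = ENNReal.ofReal (∑ m ∈ Finset.range (n + 1), c₁ m * t ^ m)) ∧
        (∀ t : ℝ, 0 ≤ t →
          MeasureTheory.volume
            ({y : EuclideanSpace ℝ (Fin n) | y ∈ S ∧ ∃ x ∈ K₂, x - y ∈ Sᗮ}
              + Metric.closedBall (0 : EuclideanSpace ℝ (Fin n)) t)
            = ENNReal.ofReal (∑ m ∈ Finset.range (n + 1), c₂ m * t ^ m)) ∧
        c₁ (n - i) = a * c₂ (n - i) ∧
        c₁ (n - j) = b * c₂ (n - j)) →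
    ∃ r : ℝ, 0 < r ∧ ∃ v : EuclideanSpace ℝ (Fin n),
      K₁ = (fun x => r • x + v) '' K₂) := by
  intro hall
  have hK1c : IsCompact (K4 T T) := isCompact_K4 isCompact_T isCompact_T
  have hK1v : Convex ℝ (K4 T T) := convex_K4 convex_T convex_T
  have hK2c : IsCompact (HD (K4 T T)) := by
    rw [HD_K4]; exact isCompact_K4 isCompact_Hx isCompact_Hx
  have hK2v : Convex ℝ (HD (K4 T T)) := by
    rw [HD_K4]; exact convex_K4 convex_Hx convex_Hx
  refine absurd (hall 4 3 1 3 (by norm_num) (by norm_num) (by norm_num) (by norm_num)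
    (by norm_num) (by norm_num) (by norm_num) (K4 T T) (HD (K4 T T)) hK1c hK1v
    (le_of_eq (finrank_span one_ne_zero zero_mem_K4 single_mem_K4).symm) hK2c hK2v
    (le_of_eq (finrank_span (a := 1 / 2) (by norm_num) zero_mem_HD single_mem_HD).symm)
    ⟨0, fun x hx => by rw [smul_zero, zero_sub]; exact symm_HD hx⟩
    1 ((volume T).toReal / (volume Hx).toReal) ?_) ?_
  rotate_left
  · -- the homothety is impossible
    rintro ⟨r, hr, v, hv⟩
    have hsymm : ∀ x ∈ K4 T T, (2:ℝ) • v - x ∈ K4 T T := by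
      intro x hx
      rw [hv] at hx ⊢
      obtain ⟨k, hk, rfl⟩ := hx
      exact ⟨-k, symm_HD hk, by simp only; module⟩
    have h0 := hsymm 0 zero_mem_K4
    have h1 := hsymm _ (single_mem_K4 0)
    have h2 := hsymm _ (single_mem_K4 1)
    have a0 : (2:ℝ) * v 0 - 0 + (2 * v 1 - 0) ≤ 1 := h0.1.2.2
    have a1 : (0:ℝ) ≤ 2 * v 0 - 1 := by
      have := h1.1.1
      simpa using this
    have a2 : (0:ℝ) ≤ 2 * v 1 - 1 := by
      have := h2.1.2.1
      simpa using this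
    linarith
  · intro S hS
    -- a unit normal vector
    have hfin : Module.finrank ℝ Sᗮ = 1 := by
      have := Submodule.finrank_add_finrank_orthogonal S
      rw [hS] at this
      simp at this
      omega
    obtain ⟨u0, hu0, hspan⟩ := finrank_eq_one_iff'.1 hfin
    have hu0' : (u0 : E 4) ≠ 0 := fun h => hu0 (Subtype.ext h)
    have hn0 : 0 < ‖(u0 : E 4)‖ := norm_pos_iff.2 hu0'
    set u : E 4 := ‖(u0 : E 4)‖⁻¹ • (u0 : E 4) with hu
    have hu1 : ‖u‖ = 1 := by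
      rw [hu, norm_smul, norm_inv, norm_norm, inv_mul_cancel₀ hn0.ne']
    have hmem : ∀ w : E 4, w ∈ Sᗮ ↔ ∃ τ : ℝ, w = τ • u := by
      intro w
      constructor
      · intro hw
        obtain ⟨τ, hτ⟩ := hspan ⟨w, hw⟩
        refine ⟨τ * ‖(u0 : E 4)‖, ?_⟩
        have : τ • (u0 : E 4) = w := congrArg Subtype.val hτ
        rw [hu, smul_smul, mul_assoc, mul_inv_cancel₀ hn0.ne', mul_one, this]
      · rintro ⟨τ, rfl⟩
        rw [hu]
        exact Submodule.smul_mem _ _ (Submodule.smul_mem _ _ u0.2)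
    have hSmem : ∀ y : E 4, y ∈ S ↔ ⟪u, y⟫ = 0 := by
      intro y
      rw [← Submodule.orthogonal_orthogonal S, Submodule.mem_orthogonal]
      constructor
      · intro h
        exact h u ((hmem u).2 ⟨1, by simp⟩)
      · intro h w hw
        obtain ⟨τ, rfl⟩ := (hmem w).1 hw
        rw [inner_smul_left, h, mul_zero]
    have hL : ∀ K : Set (E 4), {y : E 4 | y ∈ S ∧ ∃ x ∈ K, x - y ∈ Sᗮ} = Sh u K := by
      intro K
      ext y
      constructor
      · rintro ⟨h1, x, hx, h2⟩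
        obtain ⟨τ, hτ⟩ := (hmem _).1 h2
        refine ⟨(hSmem y).1 h1, τ, ?_⟩
        rw [← hτ]
        have : y + (x - y) = x := by abel
        rw [this]; exact hx
      · rintro ⟨h1, τ, hτ⟩
        refine ⟨(hSmem y).2 h1, _, hτ, (hmem _).2 ⟨τ, by abel⟩⟩
    rw [hL, hL]
    have hc1 := isCompact_Sh hu1 hK1c
    have hc2 := isCompact_Sh hu1 hK2c
    have hne1 : (Sh u (K4 T T)).Nonempty := by
      rw [Sh_eq hu1]; exact ⟨_, 0, zero_mem_K4, rfl⟩
    have hne2 : (Sh u (HD (K4 T T))).Nonempty := by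
      rw [Sh_eq hu1]; exact ⟨_, 0, zero_mem_HD, rfl⟩
    obtain ⟨c₁, hc₁⟩ := steiner hc1 (convex_Sh hK1v) hne1
    obtain ⟨c₂, hc₂⟩ := steiner hc2 (convex_Sh hK2v) hne2
    refine ⟨c₁, c₂, ?_, ?_, ?_, ?_⟩
    · intro t ht
      rw [← hc₁ t ht, ENNReal.ofReal_toReal]
      exact (hc1.add (isCompact_closedBall _ _)).measure_lt_top.ne
    · intro t ht
      rw [← hc₂ t ht, ENNReal.ofReal_toReal]
      exact (hc2.add (isCompact_closedBall _ _)).measure_lt_top.ne
    · rw [one_mul]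
      have hc2' := hc2
      have hc₂' := hc₂
      rw [Sh_HD u hu1] at hc2'
      simp only [Sh_HD u hu1] at hc₂'
      exact coeff_three_eq hc1 hne1 hc₁ hc2' hc₂'
    · have e1 := coeff_one (c := c₁) hc₁ (tendsto_thin hu1 hK1c rfl)
      have e2 := coeff_one (c := c₂) hc₂ (tendsto_thin hu1 hK2c rfl)
      show c₁ 1 = _ * c₂ 1
      rw [e1, e2, HD_K4, vol_Z_K4 hu1 isCompact_T convex_T isCompact_T convex_T,
        vol_Z_K4 hu1 isCompact_Hx convex_Hx isCompact_Hx convex_Hx, om_Hx, om_Hx]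
      have hH0 : (volume Hx).toReal ≠ 0 :=
        (ENNReal.toReal_pos vol_Hx_pos.ne' isCompact_Hx.measure_lt_top.ne).ne'
      have f1 : om T (u 0, u 1) * volume T + om T (u 2, u 3) * volume T =
          (om T (u 0, u 1) + om T (u 2, u 3)) * volume T := by ring
      have f2 : om T (u 0, u 1) * volume Hx + om T (u 2, u 3) * volume Hx =
          (om T (u 0, u 1) + om T (u 2, u 3)) * volume Hx := by ring
      rw [f1, f2]
      simp only [ENNReal.toReal_mul]
      field_simp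

end Pool.Agent.Helper98.Asm
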