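import Mathlib
import Pool.Agent.Helper98.Area2

open MeasureTheory Set Metric
open scoped Pointwise RealInnerProductSpace

namespace Pool.Agent.Helper98.Body

open Pool.Agent.Helper98.Steiner

noncomputable section

lemma norm_le_of_sq {z : ℂ} {t : ℝ} (ht : 0 ≤ t) (h : z.re ^ 2 + z.im ^ 2 ≤ t ^ 2) : ‖z‖ ≤ t := by
  have h1 : ‖z‖ ^ 2 = z.re ^ 2 + z.im ^ 2 := by
    rw [← Complex.normSq_eq_norm_sq, Complex.normSq_apply]; ring
  have h2 : ‖z‖ ^ 2 ≤ t ^ 2 := by rw [h1]; exact h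
  exact le_of_sq_le_sq h2 ht

lemma adm0 : Adm l0 m0 where
  hl x := by
    have h1 : Lf l0 x = (x 0 : ℂ) + Complex.I * (x 1 : ℂ) := by
      simp [Lf, Fin.sum_univ_four, l0]
    apply norm_le_of_sq (norm_nonneg _)
    rw [norm_sq4, h1]
    simp
    nlinarith [sq_nonneg (x 2), sq_nonneg (x 3)]
  hm x := by
    have h1 : Lf m0 x = (x 2 : ℂ) + Complex.I * (x 3 : ℂ) := by
      simp [Lf, Fin.sum_univ_four, m0]
    apply norm_le_of_sq (norm_nonneg _)
    rw [norm_sq4, h1]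
    simp
    nlinarith [sq_nonneg (x 0), sq_nonneg (x 1)]

lemma adm_mi {l m : Fin 4 → ℂ} (h : Adm l m) : Adm l (mi m) where
  hl := h.hl
  hm x := by
    rw [Lf_mi, norm_mul]
    simpa using h.hm x

/-- pull back of a complex form -/
def pull (l : Fin 4 → ℂ) (U : E 4 ≃ₗᵢ[ℝ] E 4) : Fin 4 → ℂ :=
  fun j => Lf l (U (EuclideanSpace.single j 1))

lemma Lf_pull (l : Fin 4 → ℂ) (U : E 4 ≃ₗᵢ[ℝ] E 4) (x : E 4) :
    Lf (pull l U) x = Lf l (U x) := by
  have hx : x = ∑ j, x j • (EuclideanSpace.single j (1:ℝ) : E 4) := by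
    ext k
    simp [Pi.single_apply]
  have h1 : Lf l (U x) = lin l (U x) := by rw [lin_apply]; rfl
  rw [h1]
  conv_rhs => rw [hx]
  rw [map_sum, map_sum]
  simp only [map_smul]
  unfold Lf pull
  refine Finset.sum_congr rfl fun j _ => ?_
  have h2 : Lf l (U (EuclideanSpace.single j 1)) = lin l (U (EuclideanSpace.single j 1)) := by
    rw [lin_apply]; rfl
  rw [h2, Complex.real_smul, mul_comm]

lemma pull_mi (m : Fin 4 → ℂ) (U : E 4 ≃ₗᵢ[ℝ] E 4) : pull (mi m) U = mi (pull m U) := by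
  funext j
  simp only [pull, Lf_mi, mi]

lemma adm_pull {l m : Fin 4 → ℂ} (h : Adm l m) (U : E 4 ≃ₗᵢ[ℝ] E 4) :
    Adm (pull l U) (pull m U) where
  hl x := by
    rw [Lf_pull, ← U.norm_map x]; exact h.hl _
  hm x := by
    rw [Lf_pull, ← U.norm_map x]; exact h.hm _

lemma H_pull (l m : Fin 4 → ℂ) (U : E 4 ≃ₗᵢ[ℝ] E 4) (x : E 4) :
    H (pull l U) (pull m U) x = H l m (U x) := by
  unfold H ff
  rw [Lf_pull, Lf_pull, r_rot, U.norm_map]

lemma K_pull (l m : Fin 4 → ℂ) (U : E 4 ≃ₗᵢ[ℝ] E 4) :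
    K (H l m) = U '' (K (H (pull l U) (pull m U))) := by
  ext y
  constructor
  · intro hy
    refine ⟨U.symm y, fun x => ?_, by simp⟩
    rw [H_pull, ← U.inner_map_map, U.apply_symm_apply]
    exact hy _
  · rintro ⟨z, hz, rfl⟩ x
    have h1 := hz (U.symm x)
    rw [H_pull, U.apply_symm_apply] at h1
    rwa [← U.inner_map_map, U.apply_symm_apply] at h1

/-- quaternionic frame -/
def UM (u : E 4) : Matrix (Fin 4) (Fin 4) ℝ :=
  !![u 0, -u 1, -u 2, -u 3; u 1, u 0, u 3, -u 2; u 2, -u 3, u 0, u 1; u 3, u 2, -u 1, u 0]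

lemma UM_norm {u : E 4} (h : ‖u‖ = 1) (x : E 4) :
    ‖Matrix.toEuclideanLin (UM u) x‖ = ‖x‖ := by
  apply norm_eq_of_sq
  have h1 := norm_sq4 u
  rw [h] at h1
  rw [norm_sq4, norm_sq4]
  simp only [lin_coord]
  simp [UM]
  linear_combination (-(x 0 ^ 2 + x 1 ^ 2 + x 2 ^ 2 + x 3 ^ 2)) * h1

def UU (u : E 4) (h : ‖u‖ = 1) : E 4 ≃ₗᵢ[ℝ] E 4 :=
  mkIso (Matrix.toEuclideanLin (UM u)) (UM_norm h)

lemma UU_coord (u : E 4) (h : ‖u‖ = 1) (x : E 4) :
    UU u h x 0 = u 0 * x 0 - u 1 * x 1 - u 2 * x 2 - u 3 * x 3 ∧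
    UU u h x 1 = u 1 * x 0 + u 0 * x 1 + u 3 * x 2 - u 2 * x 3 ∧
    UU u h x 2 = u 2 * x 0 - u 3 * x 1 + u 0 * x 2 + u 1 * x 3 ∧
    UU u h x 3 = u 3 * x 0 + u 2 * x 1 - u 1 * x 2 + u 0 * x 3 := by
  refine ⟨?_, ?_, ?_, ?_⟩ <;> rw [UU, mkIso_apply, lin_coord] <;> simp [UM] <;> ring

lemma pull_l3 (u : E 4) (h : ‖u‖ = 1) :
    pull l0 (UU u h) 3 = Complex.I * pull l0 (UU u h) 2 := by
  unfold pull
  obtain ⟨a0, a1, a2, a3⟩ := UU_coord u h (EuclideanSpace.single 3 1)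
  obtain ⟨b0, b1, b2, b3⟩ := UU_coord u h (EuclideanSpace.single 2 1)
  simp only [Lf, Fin.sum_univ_four, a0, a1, a2, a3, b0, b1, b2, b3]
  simp [l0]
  linear_combination (-(u 3 : ℂ)) * Complex.I_sq

lemma pull_m3 (u : E 4) (h : ‖u‖ = 1) :
    pull m0 (UU u h) 3 = Complex.I * pull m0 (UU u h) 2 := by
  unfold pull
  obtain ⟨a0, a1, a2, a3⟩ := UU_coord u h (EuclideanSpace.single 3 1)
  obtain ⟨b0, b1, b2, b3⟩ := UU_coord u h (EuclideanSpace.single 2 1)
  simp only [Lf, Fin.sum_univ_four, a0, a1, a2, a3, b0, b1, b2, b3]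
  simp [m0]
  linear_combination ((u 1 : ℂ)) * Complex.I_sq

lemma proj_UU (u : E 4) (h : ‖u‖ = 1) (x : E 4) :
    (Submodule.span ℝ {u})ᗮ.starProjection (UU u h x) = UU u h (Pr I3 x) := by
  obtain ⟨p0, p1, p2, p3⟩ := Pr3_coord x
  have hu := norm_sq4 u
  rw [h] at hu
  have h1 : (EuclideanSpace.single 0 (1:ℝ) : E 4) 0 = 1 := by simp
  have hinner : ⟪u, UU u h x⟫ = x 0 := by
    obtain ⟨a0, a1, a2, a3⟩ := UU_coord u h x
    simp only [PiLp.inner_apply, RCLike.inner_apply, conj_trivial, Fin.sum_univ_four, a0, a1, a2,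
      a3]
    linear_combination (-(x 0)) * hu
  rw [Submodule.starProjection_orthogonal_val, Submodule.starProjection_unit_singleton ℝ h, hinner]
  obtain ⟨a0, a1, a2, a3⟩ := UU_coord u h x
  obtain ⟨b0, b1, b2, b3⟩ := UU_coord u h (Pr I3 x)
  ext j
  fin_cases j
  · show UU u h x 0 - x 0 * u 0 = UU u h (Pr I3 x) 0
    rw [a0, b0, p0, p1, p2, p3]; ring
  · show UU u h x 1 - x 0 * u 1 = UU u h (Pr I3 x) 1
    rw [a1, b1, p0, p1, p2, p3]; ring
  · show UU u h x 2 - x 0 * u 2 = UU u h (Pr I3 x) 2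
    rw [a2, b2, p0, p1, p2, p3]; ring
  · show UU u h x 3 - x 0 * u 3 = UU u h (Pr I3 x) 3
    rw [a3, b3, p0, p1, p2, p3]; ring

lemma volume_hyper (l m : Fin 4 → ℂ) (u : E 4) (h : ‖u‖ = 1) (ε : ℝ) :
    volume ((Submodule.span ℝ {u})ᗮ.starProjection '' (K (H l m)) + closedBall (0 : E 4) ε) =
      volume (Pr I3 '' (K (H (pull l (UU u h)) (pull m (UU u h)))) + closedBall (0 : E 4) ε) := by
  set U := UU u h with hU
  have h1 : (Submodule.span ℝ {u})ᗮ.starProjection '' (K (H l m)) + closedBall (0 : E 4) ε =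
      U '' (Pr I3 '' (K (H (pull l U) (pull m U))) + closedBall (0 : E 4) ε) := by
    rw [Set.image_add, U.image_closedBall, map_zero]
    congr 1
    rw [K_pull l m U, Set.image_image, Set.image_image]
    refine Set.image_congr fun x _ => ?_
    exact proj_UU u h x
  rw [h1]
  have h2 : MeasurePreserving U volume volume := U.measurePreserving
  have h3 : U '' (Pr I3 '' (K (H (pull l U) (pull m U))) + closedBall (0 : E 4) ε) =
      U.symm ⁻¹' (Pr I3 '' (K (H (pull l U) (pull m U))) + closedBall (0 : E 4) ε) := by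
    ext z
    constructor
    · rintro ⟨w, hw, rfl⟩
      simpa using hw
    · intro hz
      exact ⟨U.symm z, hz, by simp⟩
  rw [h3]
  exact (U.symm.measurePreserving (E := E 4) (F := E 4)).measure_preimage_equiv (f := U.symm.toHomeomorph.toMeasurableEquiv) _

lemma c2p_zero {l m : Fin 4 → ℂ} {x : E 4} (hx : Pr I2 x ≠ 0) : c2p (B l m I2 x) = 0 := by
  have hrad := B_radial (l := l) (m := m) I2 hx
  have h0 := congrArg (fun z : E 4 => z 0) hrad
  have h2 := congrArg (fun z : E 4 => z 2) hrad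
  simp only [Matrix.ofLp_toEuclideanCLM, Matrix.mulVec, dotProduct, Fin.sum_univ_four] at h0 h2
  have k0 : (0 : Fin 4) ∈ I2 := by decide
  have k1 : (1 : Fin 4) ∉ I2 := by decide
  have k2 : (2 : Fin 4) ∈ I2 := by decide
  have k3 : (3 : Fin 4) ∉ I2 := by decide
  have z01 : B l m I2 x 0 1 = 0 := by simp [B, k1]
  have z03 : B l m I2 x 0 3 = 0 := by simp [B, k3]
  have z21 : B l m I2 x 2 1 = 0 := by simp [B, k1]
  have z23 : B l m I2 x 2 3 = 0 := by simp [B, k3]
  rw [z01, z03, zero_mul, zero_mul, add_zero, add_zero] at h0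
  rw [z21, z23, zero_mul, zero_mul, add_zero, add_zero] at h2
  simp only [PiLp.zero_apply] at h0 h2
  obtain ⟨a0, a1, a2, a3⟩ := Pr2_coord x
  have hne : x 0 ≠ 0 ∨ x 2 ≠ 0 := by
    by_contra hc
    push Not at hc
    apply hx
    ext j
    fin_cases j
    · show Pr I2 x 0 = 0; rw [a0]; exact hc.1
    · show Pr I2 x 1 = 0; exact a1
    · show Pr I2 x 2 = 0; rw [a2]; exact hc.2
    · show Pr I2 x 3 = 0; exact a3
  unfold c2p
  rcases hne with h | h
  · have : x 0 * (B l m I2 x 0 0 * B l m I2 x 2 2 - B l m I2 x 0 2 * B l m I2 x 2 0) = 0 := by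
      linear_combination B l m I2 x 2 2 * h0 - B l m I2 x 0 2 * h2
    rcases mul_eq_zero.1 this with h' | h'
    · exact absurd h' h
    · exact h'
  · have : x 2 * (B l m I2 x 0 0 * B l m I2 x 2 2 - B l m I2 x 0 2 * B l m I2 x 2 0) = 0 := by
      linear_combination B l m I2 x 0 0 * h2 - B l m I2 x 2 0 * h0
    rcases mul_eq_zero.1 this with h' | h'
    · exact absurd h' h
    · exact h'

/-- Steiner polynomial for a hyperplane coordinate projection. -/
lemma poly_hyper {l m : Fin 4 → ℂ} (h : Adm l m) :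
    IntegrableOn (fun x => c2h (B l m I3 x)) (D (Pr I3)) ∧
    ∃ p : Polynomial ℝ, (∀ ε : ℝ, 0 ≤ ε → p.eval ε =
      (volume (Pr I3 '' (K (H l m)) + closedBall (0 : E 4) ε)).toReal) ∧
      p.coeff 2 = ∫ x in D (Pr I3), c2h (B l m I3 x) := by
  have hB : ∀ j k, Measurable fun x => B l m I3 x j k := B_measurable l m I3
  have k0 : (0 : Fin 4) ∉ I3 := by decide
  have hdet : ∀ x, Pr I3 x ≠ 0 → ∀ s : ℝ, (s • (1 : Matrix (Fin 4) (Fin 4) ℝ) + B l m I3 x).det =
      s ^ 4 + c3h (B l m I3 x) * s ^ 3 + c2h (B l m I3 x) * s ^ 2 + c1h (B l m I3 x) * s := by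
    intro x _ s
    refine det_h _ (fun j => ?_) (fun j => ?_) s <;> simp [B, k0]
  have m1 : Measurable fun x => c1h (B l m I3 x) := by
    unfold c1h
    exact (((hB _ _).mul (((hB _ _).mul (hB _ _)).sub ((hB _ _).mul (hB _ _)))).sub
      ((hB _ _).mul (((hB _ _).mul (hB _ _)).sub ((hB _ _).mul (hB _ _))))).add
      ((hB _ _).mul (((hB _ _).mul (hB _ _)).sub ((hB _ _).mul (hB _ _))))
  have m2 : Measurable fun x => c2h (B l m I3 x) := by
    unfold c2h
    exact ((((hB _ _).mul (hB _ _)).sub ((hB _ _).mul (hB _ _))).add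
      (((hB _ _).mul (hB _ _)).sub ((hB _ _).mul (hB _ _)))).add
      (((hB _ _).mul (hB _ _)).sub ((hB _ _).mul (hB _ _)))
  have m3 : Measurable fun x => c3h (B l m I3 x) := by
    unfold c3h
    exact ((hB _ _).add (hB _ _)).add (hB _ _)
  obtain ⟨hi, a1, a3, a4, hpoly⟩ := steiner (I := I3) (by decide) (supp h)
    (fun x hx => hasFDerivAt_PGP l m I3 hx) (fun x hx s hs => B_det_pos h I3 hx hs) m1 m2 m3 hdet
  refine ⟨hi, Polynomial.C a4 * Polynomial.X ^ 4 + Polynomial.C a3 * Polynomial.X ^ 3 +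
    Polynomial.C (∫ x in D (Pr I3), c2h (B l m I3 x)) * Polynomial.X ^ 2 +
    Polynomial.C (a1 + (volume (Steiner.C (Pr I3) (Pr I3 '' (K (H l m))) 1)).toReal) * Polynomial.X, ?_, ?_⟩
  · intro ε hε
    rw [hpoly ε hε]
    have hc : (I3ᶜ).card = 1 := by decide
    rw [hc]
    simp only [Polynomial.eval_add, Polynomial.eval_mul, Polynomial.eval_C, Polynomial.eval_pow,
      Polynomial.eval_X]
    ring
  · simp [Polynomial.coeff_X, Polynomial.coeff_C]

/-- Steiner polynomial for a plane coordinate projection. -/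
lemma poly_plane {l m : Fin 4 → ℂ} (h : Adm l m) :
    ∃ p : Polynomial ℝ, (∀ ε : ℝ, 0 ≤ ε → p.eval ε =
      (volume (Pr I2 '' (K (H l m)) + closedBall (0 : E 4) ε)).toReal) ∧
      p.coeff 2 = (volume (Steiner.C (Pr I2) (Pr I2 '' (K (H l m))) 1)).toReal := by
  have hB : ∀ j k, Measurable fun x => B l m I2 x j k := B_measurable l m I2
  have k1 : (1 : Fin 4) ∉ I2 := by decide
  have k3 : (3 : Fin 4) ∉ I2 := by decide
  have hdet : ∀ x, Pr I2 x ≠ 0 → ∀ s : ℝ, (s • (1 : Matrix (Fin 4) (Fin 4) ℝ) + B l m I2 x).det =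
      s ^ 4 + c3p (B l m I2 x) * s ^ 3 + c2p (B l m I2 x) * s ^ 2 + 0 * s := by
    intro x _ s
    refine det_p _ (fun j => ?_) (fun j => ?_) (fun j => ?_) (fun j => ?_) s <;>
      simp [B, k1, k3]
  have m2 : Measurable fun x => c2p (B l m I2 x) := by
    unfold c2p
    exact ((hB _ _).mul (hB _ _)).sub ((hB _ _).mul (hB _ _))
  have m3 : Measurable fun x => c3p (B l m I2 x) := by
    unfold c3p
    exact (hB _ _).add (hB _ _)
  obtain ⟨hi, a1, a3, a4, hpoly⟩ := steiner (I := I2) (by decide) (supp h)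
    (fun x hx => hasFDerivAt_PGP l m I2 hx) (fun x hx s hs => B_det_pos h I2 hx hs)
    (c1 := fun _ => 0) measurable_const m2 m3 hdet
  have hz : ∫ x in D (Pr I2), c2p (B l m I2 x) = 0 := by
    rw [setIntegral_congr_fun (measurableSet_D _) (g := fun _ => (0:ℝ))
      (fun x hx => c2p_zero hx.1)]
    simp
  refine ⟨Polynomial.C a4 * Polynomial.X ^ 4 + Polynomial.C a3 * Polynomial.X ^ 3 +
    Polynomial.C ((volume (Steiner.C (Pr I2) (Pr I2 '' (K (H l m))) 1)).toReal) *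
      Polynomial.X ^ 2 + Polynomial.C a1 * Polynomial.X, ?_, ?_⟩
  · intro ε hε
    rw [hpoly ε hε, hz]
    have hc : (I2ᶜ).card = 2 := by decide
    rw [hc]
    simp only [Polynomial.eval_add, Polynomial.eval_mul, Polynomial.eval_C, Polynomial.eval_pow,
      Polynomial.eval_X]
    ring
  · simp [Polynomial.coeff_X, Polynomial.coeff_C]

/-- the test plane -/
def SS : Submodule ℝ (E 4) := Submodule.span ℝ
  (Set.range fun i : Fin 2 => (EuclideanSpace.basisFun (Fin 4) ℝ) (![0, 2] i))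

lemma finrank_SS : Module.finrank ℝ SS = 2 := by
  unfold SS
  rw [finrank_span_eq_card]
  · simp
  · have h1 := (EuclideanSpace.basisFun (Fin 4) ℝ).toBasis.linearIndependent
    have h2 := h1.comp (![0, 2] : Fin 2 → Fin 4) (by decide)
    simpa [Function.comp_def] using h2

lemma starProjection_SS (x : E 4) : SS.starProjection x = Pr I2 x := by
  obtain ⟨a0, a1, a2, a3⟩ := Pr2_coord x
  refine Submodule.eq_starProjection_of_mem_orthogonal ?_ ?_
  · have h1 : Pr I2 x = x 0 • (EuclideanSpace.basisFun (Fin 4) ℝ) (![0, 2] 0) +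
        x 2 • (EuclideanSpace.basisFun (Fin 4) ℝ) (![0, 2] 1) := by
      ext j
      fin_cases j
      · show Pr I2 x 0 = _; rw [a0]; simp
      · show Pr I2 x 1 = _; rw [a1]; simp
      · show Pr I2 x 2 = _; rw [a2]; simp
      · show Pr I2 x 3 = _; rw [a3]; simp
    rw [h1]
    exact add_mem (Submodule.smul_mem _ _ (Submodule.subset_span ⟨0, rfl⟩))
      (Submodule.smul_mem _ _ (Submodule.subset_span ⟨1, rfl⟩))
  · unfold SS
    rw [Submodule.mem_orthogonal]
    intro w hw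
    refine Submodule.span_induction (p := fun w _ => ⟪w, x - Pr I2 x⟫ = 0) ?_ ?_ ?_ ?_ hw
    · rintro _ ⟨i, rfl⟩
      fin_cases i
      · simp [EuclideanSpace.inner_single_left, a0]
      · simp [EuclideanSpace.inner_single_left, a2]
    · simp
    · intro a b _ _ ha hb
      rw [inner_add_left, ha, hb, add_zero]
    · intro t a _ ha
      rw [inner_smul_left, ha, mul_zero]

theorem main_result :
    ¬ (∀ (n i k : ℕ), 1 ≤ i → i ≤ k → k ≤ n - 1 →
  ∀ K₁ K₂ : Set (EuclideanSpace ℝ (Fin n)),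
    IsCompact K₁ → Convex ℝ K₁ → IsCompact K₂ → Convex ℝ K₂ →
    (∀ u ∈ Metric.sphere (0 : EuclideanSpace ℝ (Fin n)) 1,
      ∃ p q : Polynomial ℝ,
        (∀ ε : ℝ, 0 ≤ ε → p.eval ε =
          (volume (((Submodule.orthogonal (Submodule.span ℝ {u})).starProjection '' K₁)
            + Metric.closedBall (0 : EuclideanSpace ℝ (Fin n)) ε)).toReal) ∧
        (∀ ε : ℝ, 0 ≤ ε → q.eval ε =
          (volume (((Submodule.orthogonal (Submodule.span ℝ {u})).starProjection '' K₂)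
            + Metric.closedBall (0 : EuclideanSpace ℝ (Fin n)) ε)).toReal) ∧
        p.coeff (n - i) = q.coeff (n - i)) →
    ∀ S : Submodule ℝ (EuclideanSpace ℝ (Fin n)), Module.finrank ℝ S = k →
      ∃ p q : Polynomial ℝ,
        (∀ ε : ℝ, 0 ≤ ε → p.eval ε =
          (volume ((S.starProjection '' K₁)
            + Metric.closedBall (0 : EuclideanSpace ℝ (Fin n)) ε)).toReal) ∧
        (∀ ε : ℝ, 0 ≤ ε → q.eval ε =
          (volume ((S.starProjection '' K₂)
            + Metric.closedBall (0 : EuclideanSpace ℝ (Fin n)) ε)).toReal) ∧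
        p.coeff (n - i) = q.coeff (n - i)) := by
  intro hall
  have h1 := adm0
  have h2 := adm_mi adm0
  have hyp := hall 4 2 2 (by norm_num) (by norm_num) (by norm_num) (K (H l0 m0))
    (K (H l0 (mi m0))) (isCompact_K (supp h1)) (convex_K _) (isCompact_K (supp h2)) (convex_K _)
    (by
      intro u hu
      have hu1 : ‖u‖ = 1 := by simpa using hu
      obtain ⟨i1, p, hp, hp2⟩ := poly_hyper (adm_pull h1 (UU u hu1))
      obtain ⟨i2, q, hq, hq2⟩ := poly_hyper (adm_pull h2 (UU u hu1))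
      refine ⟨p, q, ?_, ?_, ?_⟩
      · intro ε hε
        rw [hp ε hε, volume_hyper l0 m0 u hu1 ε]
      · intro ε hε
        rw [hq ε hε, volume_hyper l0 (mi m0) u hu1 ε]
      · show p.coeff 2 = q.coeff 2
        rw [hp2, hq2, pull_mi]
        rw [pull_mi] at i2
        exact hyper_eq _ _ (pull_l3 u hu1) (pull_m3 u hu1) i1 i2) SS finrank_SS
  obtain ⟨p, q, hp, hq, hpq⟩ := hyp
  obtain ⟨p', hp', hp2⟩ := poly_plane h1
  obtain ⟨q', hq', hq2⟩ := poly_plane h2
  have himg : ∀ S : Set (E 4), SS.starProjection '' S = Pr I2 '' S := fun S =>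
    Set.image_congr fun x _ => starProjection_SS x
  have e1 : p = p' := by
    refine Polynomial.eq_of_infinite_eval_eq _ _ (Set.Infinite.mono ?_ (Set.Ici_infinite (0:ℝ)))
    intro ε hε
    show p.eval ε = p'.eval ε
    rw [hp ε hε, hp' ε hε, himg]
  have e2 : q = q' := by
    refine Polynomial.eq_of_infinite_eval_eq _ _ (Set.Infinite.mono ?_ (Set.Ici_infinite (0:ℝ)))
    intro ε hε
    show q.eval ε = q'.eval ε
    rw [hq ε hε, hq' ε hε, himg]
  have h3 : p'.coeff 2 = q'.coeff 2 := by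
    rw [← e1, ← e2]; exact hpq
  rw [hp2, hq2] at h3
  exact area_ne h1 h2 h3

end

end Pool.Agent.Helper98.Body
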